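import Pool.Agent.Y60.Mod8

/-!
# The idempotents `e_i` of `2^4 : 5 × 2`
-/

open scoped BigOperators Classical MonoidAlgebra
open Pool.Agent.H254R3.IN Pool.Agent.Helper884

noncomputable section

namespace Pool.Agent.Y60

variable {G : Type} [Group G] [Fintype G] {R : Type*} [CommRing R]

/-- the value of a function on `G` at an element of the group ring -/
def cvl (ι : R →+* ℂ) (χ : G → ℂ) (x : MonoidAlgebra R G) : ℂ := ∑ g : G, ι (x.coeff g) * χ g

section cvl
variable (ι : R →+* ℂ) (χ : G → ℂ)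

lemma cvl_add (x y : MonoidAlgebra R G) : cvl ι χ (x + y) = cvl ι χ x + cvl ι χ y := by
  rw [cvl, cvl, cvl, ← Finset.sum_add_distrib]
  refine Finset.sum_congr rfl fun g _ => ?_
  rw [MonoidAlgebra.coeff_add, Finsupp.add_apply, map_add, add_mul]

lemma cvl_single (g : G) (r : R) : cvl ι χ (MonoidAlgebra.single g r) = ι r * χ g := by
  rw [cvl, Finset.sum_eq_single g]
  · rw [MonoidAlgebra.coeff_single, Finsupp.single_eq_same]
  · intro h _ hne
    rw [MonoidAlgebra.coeff_single, Finsupp.single_eq_of_ne hne, map_zero, zero_mul]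
  · intro h
    exact absurd (Finset.mem_univ g) h

/-- `cvl` as an additive map -/
def cvh : MonoidAlgebra R G →+ ℂ where
  toFun := cvl ι χ
  map_zero' := by simp [cvl]
  map_add' := cvl_add ι χ

lemma cvl_sub (x y : MonoidAlgebra R G) : cvl ι χ (x - y) = cvl ι χ x - cvl ι χ y :=
  map_sub (cvh ι χ) x y

lemma cvl_sum {α : Type*} (s : Finset α) (f : α → MonoidAlgebra R G) :
    cvl ι χ (∑ a ∈ s, f a) = ∑ a ∈ s, cvl ι χ (f a) :=
  map_sum (cvh ι χ) f s

lemma cvl_trace {V : Type} [AddCommGroup V] [Module ℂ V] [FiniteDimensional ℂ V]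
    (ρ : Representation ℂ G V) (e : MonoidAlgebra R G) :
    LinearMap.trace ℂ V (ev ι ρ e) = cvl ι ρ.character e := by
  induction e using MonoidAlgebra.induction_linear with
  | zero => simp [cvl]
  | add x y hx hy => rw [map_add, map_add, hx, hy, cvl_add]
  | single g a =>
    rw [ev_single, map_smul, cvl_single]
    rfl

lemma cvl_nat {χ : G → ℂ} (hχ : IsIrr χ) {e : MonoidAlgebra R G} (he : e * e = e) :
    ∃ m : ℕ, cvl ι χ e = m := by
  obtain ⟨V, _, _, _, ρ, hρ, rfl⟩ := hχ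
  exact ⟨_, by rw [← cvl_trace, trace_idem _ (ev_idem ι ρ he)]⟩

end cvl

/-- central elements act by scalars -/
lemma central_mul {χ : G → ℂ} (hχ : IsIrr χ) {z : G} (hz : ∀ g, g * z = z * g) (g : G) :
    χ (z * g) * χ 1 = χ z * χ g := by
  obtain ⟨V, _, _, _, ρ, hρ, rfl⟩ := hχ
  obtain ⟨a, ha⟩ := schur ρ hρ (ρ z) (by
    intro h v
    rw [← Module.End.mul_apply, ← Module.End.mul_apply, ← map_mul, ← map_mul, hz])
  unfold Representation.character
  have h1 : (a • (LinearMap.id : V →ₗ[ℂ] V)) * ρ g = a • ρ g := rfl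
  rw [map_mul, ha, map_one, h1, map_smul, map_smul, smul_eq_mul, smul_eq_mul]
  have h2 : LinearMap.trace ℂ V (1 : Module.End ℂ V) = LinearMap.trace ℂ V LinearMap.id := rfl
  rw [h2]
  ring

lemma central_sq {χ : G → ℂ} (hχ : IsIrr χ) {z : G} (hz : ∀ g, g * z = z * g) (h2 : z * z = 1) :
    χ z = χ 1 ∨ χ z = - χ 1 := by
  have h1 := central_mul hχ hz z
  rw [h2] at h1
  have h3 : (χ z - χ 1) * (χ z + χ 1) = 0 := by
    ring_nf
    rw [pow_two, pow_two, h1]
    ring
  rcases mul_eq_zero.mp h3 with h | h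
  · exact Or.inl (sub_eq_zero.mp h)
  · exact Or.inr (eq_neg_of_add_eq_zero_left h)

/-- the faithful characters: `χ(z) = -χ(1)` -/
def Lam (z : G) : Finset (G → ℂ) := (IC.Irr G).filter (fun χ => χ z = - χ 1)

lemma lam_mul {χ : G → ℂ} (hχ : IsIrr χ) {z : G} (hz : ∀ g, g * z = z * g)
    (h : χ z = - χ 1) (g : G) : χ (z * g) = - χ g := by
  have h1 := central_mul hχ hz g
  rw [h] at h1
  have h2 := hχ.one_ne
  have h3 : (χ (z * g) + χ g) * χ 1 = 0 := by rw [add_mul, h1]; ring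
  rcases mul_eq_zero.mp h3 with h4 | h4
  · exact eq_neg_of_add_eq_zero_left h4
  · exact absurd h4 h2

lemma nlam_mul {χ : G → ℂ} (hχ : IsIrr χ) {z : G} (hz : ∀ g, g * z = z * g) (h2 : z * z = 1)
    (h : χ z ≠ - χ 1) (g : G) : χ (z * g) = χ g := by
  have h1 := central_mul hχ hz g
  have h3 : χ z = χ 1 := (central_sq hχ hz h2).resolve_right h
  rw [h3, mul_comm] at h1
  exact mul_left_cancel₀ hχ.one_ne h1

section idem

variable (z c : G) (E : Subgroup G) (u2 u16 u5 ζ : R)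

/-- `(1 - z)/2` -/
def Zm : MonoidAlgebra R G := MonoidAlgebra.single 1 u2 - MonoidAlgebra.single z u2

/-- `(1/16) ∑_{e ∈ E} e` -/
def PE : MonoidAlgebra R G := ∑ e : E, MonoidAlgebra.single (e : G) u16

/-- the idempotent `e_i` -/
def eI : MonoidAlgebra R G := Zm z u2 * PE E u16 * eig c 5 u5 ζ

lemma single_mul' (g h : G) (r s : R) : MonoidAlgebra.single g r * MonoidAlgebra.single h s =
    MonoidAlgebra.single (g * h) (r * s) := MonoidAlgebra.single_mul_single g h r s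

variable {z c E u2 u16 u5 ζ}

lemma Zm_idem (hz2 : z * z = 1) (hu : 2 * u2 = 1) : Zm z u2 * Zm z u2 = Zm z u2 := by
  simp only [Zm, mul_sub, sub_mul, single_mul', one_mul, mul_one, hz2]
  have h1 : MonoidAlgebra.single (1 : G) (u2 * u2) + MonoidAlgebra.single 1 (u2 * u2) =
      MonoidAlgebra.single 1 u2 := by
    rw [← MonoidAlgebra.single_add]
    congr 1
    linear_combination u2 * hu
  have h2 : MonoidAlgebra.single z (u2 * u2) + MonoidAlgebra.single z (u2 * u2) =
      MonoidAlgebra.single z u2 := by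
    rw [← MonoidAlgebra.single_add]
    congr 1
    linear_combination u2 * hu
  rw [← h1, ← h2]
  abel

lemma Zm_comm (hz : ∀ g, g * z = z * g) (x : MonoidAlgebra R G) : x * Zm z u2 = Zm z u2 * x := by
  induction x using MonoidAlgebra.induction_linear with
  | zero => simp
  | add x y hx hy => rw [add_mul, mul_add, hx, hy]
  | single g a => simp only [Zm, mul_sub, sub_mul, single_mul', one_mul, mul_one, hz, mul_comm a u2]

lemma single_mul_PE {e : G} (he : e ∈ E) :
    MonoidAlgebra.single e (1 : R) * PE E u16 = PE E u16 := by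
  rw [PE, Finset.mul_sum]
  refine Fintype.sum_equiv (Equiv.mulLeft (⟨e, he⟩ : E)) _ _ fun x => ?_
  rw [single_mul', one_mul]
  rfl

lemma PE_idem (hE : Nat.card E = 16) (hu : 16 * u16 = 1) : PE E u16 * PE E u16 = PE E u16 := by
  have h1 : ∀ e : E, MonoidAlgebra.single (e : G) u16 * PE E u16 = u16 • PE E u16 := by
    intro e
    have h2 : MonoidAlgebra.single (e : G) u16 = u16 • MonoidAlgebra.single (e : G) (1 : R) := by
      rw [MonoidAlgebra.smul_single, smul_eq_mul, mul_one]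
    rw [h2, smul_mul_assoc, single_mul_PE e.2]
  have h3 : PE E u16 * PE E u16 = ∑ e : E, MonoidAlgebra.single (e : G) u16 * PE E u16 := by
    rw [← Finset.sum_mul]
    rfl
  rw [h3, Finset.sum_congr rfl fun e _ => h1 e, Finset.sum_const, Finset.card_univ,
    ← Nat.card_eq_fintype_card, hE, ← Nat.cast_smul_eq_nsmul R, smul_smul]
  push_cast
  rw [hu, one_smul]

lemma single_comm_PE (hc : ∀ e ∈ E, c * e * c⁻¹ ∈ E) (r : R) :
    MonoidAlgebra.single c r * PE E u16 = PE E u16 * MonoidAlgebra.single c r := by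
  rw [PE, Finset.mul_sum, Finset.sum_mul]
  have hinj : Function.Injective (fun e : E => (⟨c * e * c⁻¹, hc e e.2⟩ : E)) := by
    intro a b hab
    have h1 : c * (a : G) * c⁻¹ = c * b * c⁻¹ := congrArg Subtype.val hab
    exact Subtype.ext (by simpa using h1)
  have hbij : Function.Bijective (fun e : E => (⟨c * e * c⁻¹, hc e e.2⟩ : E)) :=
    (Finite.injective_iff_bijective).mp hinj
  refine Fintype.sum_equiv (Equiv.ofBijective _ hbij) _ _ fun x => ?_
  rw [single_mul', single_mul', mul_comm r u16]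
  congr 1
  simp

lemma pow_comm_PE (hc : ∀ e ∈ E, c * e * c⁻¹ ∈ E) (l : ℕ) (r : R) :
    MonoidAlgebra.single (c ^ l) r * PE E u16 = PE E u16 * MonoidAlgebra.single (c ^ l) r := by
  apply single_comm_PE
  induction l with
  | zero => simp
  | succ l ih =>
    intro e he
    have h1 : c ^ (l + 1) * e * (c ^ (l + 1))⁻¹ = c ^ l * (c * e * c⁻¹) * (c ^ l)⁻¹ := by
      rw [pow_succ]; group
    rw [h1]
    exact ih _ (hc e he)

lemma eig_comm_PE (hc : ∀ e ∈ E, c * e * c⁻¹ ∈ E) :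
    eig c 5 u5 ζ * PE E u16 = PE E u16 * eig c 5 u5 ζ := by
  rw [eig, Finset.sum_mul, Finset.mul_sum]
  exact Finset.sum_congr rfl fun l _ => pow_comm_PE hc l _

lemma eI_idem (hz : ∀ g, g * z = z * g) (hz2 : z * z = 1) (hu2 : 2 * u2 = 1)
    (hE : Nat.card E = 16) (hu16 : 16 * u16 = 1) (hc : ∀ e ∈ E, c * e * c⁻¹ ∈ E)
    (hc5 : c ^ 5 = 1) (hζ : ζ ^ 5 = 1) (hu5 : u5 * 5 = 1) :
    eI z c E u2 u16 u5 ζ * eI z c E u2 u16 u5 ζ = eI z c E u2 u16 u5 ζ := by
  have h1 := Zm_idem (G := G) hz2 hu2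
  have h2 := PE_idem hE hu16
  have h3 : eig c 5 u5 ζ * eig c 5 u5 ζ = eig c 5 u5 ζ := eig_idem hc5 hζ (by exact_mod_cast hu5)
  have h4 := eig_comm_PE (u5 := u5) (u16 := u16) (ζ := ζ) hc
  have h5 := Zm_comm (u2 := u2) hz
  rw [eI]
  calc Zm z u2 * PE E u16 * eig c 5 u5 ζ * (Zm z u2 * PE E u16 * eig c 5 u5 ζ)
      = Zm z u2 * PE E u16 * (eig c 5 u5 ζ * Zm z u2) * PE E u16 * eig c 5 u5 ζ := by
        simp only [mul_assoc]
    _ = Zm z u2 * (PE E u16 * Zm z u2) * (eig c 5 u5 ζ * PE E u16) * eig c 5 u5 ζ := by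
        rw [h5]; simp only [mul_assoc]
    _ = (Zm z u2 * Zm z u2) * (PE E u16 * PE E u16) * (eig c 5 u5 ζ * eig c 5 u5 ζ) := by
        rw [h5, h4]; simp only [mul_assoc]
    _ = _ := by rw [h1, h2, h3]

/-- expansion -/
lemma eI_expand : eI z c E u2 u16 u5 ζ = ∑ e : E, ∑ l ∈ Finset.range 5,
    (MonoidAlgebra.single ((e : G) * c ^ l) (u2 * u16 * (u5 * ζ ^ (5 - l))) -
      MonoidAlgebra.single (z * ((e : G) * c ^ l)) (u2 * u16 * (u5 * ζ ^ (5 - l)))) := by
  rw [eI, PE, Finset.mul_sum, Finset.sum_mul]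
  refine Finset.sum_congr rfl fun e _ => ?_
  rw [eig, Finset.mul_sum]
  refine Finset.sum_congr rfl fun l _ => ?_
  simp only [Zm, sub_mul, single_mul', one_mul, mul_assoc]

lemma cvl_eI (ι : R →+* ℂ) (χ : G → ℂ) : cvl ι χ (eI z c E u2 u16 u5 ζ) =
    ι (u2 * u16 * u5) * ∑ l ∈ Finset.range 5, ι ζ ^ (5 - l) *
      ∑ e : E, (χ ((e : G) * c ^ l) - χ (z * ((e : G) * c ^ l))) := by
  rw [eI_expand, cvl_sum]
  simp only [cvl_sum, cvl_sub, cvl_single]
  rw [Finset.sum_comm, Finset.mul_sum]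
  refine Finset.sum_congr rfl fun l _ => ?_
  rw [Finset.mul_sum, Finset.mul_sum]
  refine Finset.sum_congr rfl fun e _ => ?_
  simp only [map_mul, map_pow]
  ring

end idem

end Pool.Agent.Y60
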