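import Pool.Agent.Y60.Ab1

/-!
# Data of the group `2.L₃(4)` and the sums over its faithful characters
-/

open scoped BigOperators Classical MonoidAlgebra
open Pool.Agent.H254R3.IN Pool.Agent.Helper884

noncomputable section

namespace Pool.Agent.Y60

/-- indicator function of `K` minus that of `zK` -/
def Jf {G : Type} [Group G] (z : G) (K : Subgroup G) (g : G) : ℤ :=
  if g ∈ K then 1 else if z * g ∈ K then -1 else 0

/-- the facts about `2.L₃(4)` used in the character-theoretic part -/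
structure GData (G : Type) [Group G] [Fintype G] (z v c : G) (E K : Subgroup G) (T : G → ℤ) :
    Prop where
  card : Nat.card G = 40320
  zc : ∀ g, g * z = z * g
  zz : z * z = 1
  zne : z ≠ 1
  zK : z ∉ K
  vv : v * v = 1
  c5 : c ^ 5 = 1
  cK : c ∈ K
  EK : E ≤ K
  cardE : Nat.card E = 16
  cardK : Nat.card K = 160
  cE : ∀ e ∈ E, c * e * c⁻¹ ∈ E
  ec : ∀ e ∈ E, ∀ l ∈ [1, 2, 3, 4], IsConj (e * c ^ l) (c ^ l)
  sumE : ∀ f : G → ℂ, (∀ g y, f (y * g * y⁻¹) = f g) →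
    ∑ᶠ e : E, f e = f 1 + 10 * f v + 5 * f (z * v)
  ccinv : IsConj c c⁻¹
  vzv : ¬ IsConj v (z * v)
  cc2 : ¬ IsConj c (c ^ 2)
  centv : Nat.card (Subgroup.centralizer ({v} : Set G)) = 128
  centc : Nat.card (Subgroup.centralizer ({c} : Set G)) = 10
  Tl : ∀ k ∈ K, ∀ g, T (k * g) = T g
  Tr : ∀ k ∈ K, ∀ g, T (g * k) = T g
  Tz : ∀ g, T (z * g) = - T g
  T1 : T 1 = 0
  Tconv : ∀ g, ∑ h : G, T h * T (h⁻¹ * g) = 160 * (160 * Jf z K g - 4 * T g)

section

variable {G : Type} [Group G] [Fintype G] {z v c : G} {E K : Subgroup G} {T : G → ℤ}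

/-- orthogonality restricted to the faithful characters -/
lemma lam_orth (hz : ∀ g, g * z = z * g) (h2 : z * z = 1) (g h : G) :
    ∑ χ ∈ Lam z, χ g * χ h⁻¹ = (1 / 2) *
      ((if IsConj h g then (Nat.card (Subgroup.centralizer ({h} : Set G)) : ℂ) else 0) -
        (if IsConj h (z * g) then (Nat.card (Subgroup.centralizer ({h} : Set G)) : ℂ) else 0)) := by
  rw [← col_orth g h, ← col_orth (z * g) h, ← Finset.sum_sub_distrib, Finset.mul_sum, Lam,
    Finset.sum_filter]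
  refine Finset.sum_congr rfl fun χ hχ => ?_
  have hχ' := irr_iff.mp hχ
  by_cases h1 : χ z = - χ 1
  · rw [if_pos h1, lam_mul hχ' hz h1]
    ring
  · rw [if_neg h1, nlam_mul hχ' hz h2 h1]
    ring

lemma mem_lam {χ : G → ℂ} : χ ∈ Lam z ↔ IsIrr χ ∧ χ z = - χ 1 := by
  rw [Lam, Finset.mem_filter, irr_iff]

variable (D : GData G z v c E K T)

include D

lemma card1 : Nat.card (Subgroup.centralizer ({(1 : G)} : Set G)) = 40320 := by
  have h : Subgroup.centralizer ({(1 : G)} : Set G) = ⊤ := by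
    rw [eq_top_iff]
    intro g _
    rw [Subgroup.mem_centralizer_iff]
    intro h hh
    rw [Set.mem_singleton_iff.mp hh]
    simp
  rw [h, Subgroup.card_top, D.card]

lemma cardz (g : G) : Nat.card (Subgroup.centralizer ({z * g} : Set G)) =
    Nat.card (Subgroup.centralizer ({g} : Set G)) := by
  have h : Subgroup.centralizer ({z * g} : Set G) = Subgroup.centralizer ({g} : Set G) := by
    ext x
    rw [Subgroup.mem_centralizer_iff, Subgroup.mem_centralizer_iff]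
    simp only [Set.mem_singleton_iff, forall_eq]
    rw [← mul_assoc x z g, D.zc x, mul_assoc, mul_assoc]
    exact mul_right_inj z
  rw [h]

lemma cardc2 : Nat.card (Subgroup.centralizer ({c ^ 2} : Set G)) = 10 := by
  have h : Subgroup.centralizer ({c ^ 2} : Set G) = Subgroup.centralizer ({c} : Set G) := by
    ext x
    rw [Subgroup.mem_centralizer_iff, Subgroup.mem_centralizer_iff]
    simp only [Set.mem_singleton_iff, forall_eq]
    constructor
    · intro h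
      have h1 : Commute (c ^ 2) x := h
      have h2 := h1.pow_left 3
      have h3 : (c ^ 2) ^ 3 = c := by
        rw [← pow_mul]
        calc c ^ (2 * 3) = c ^ 5 * c := by rw [← pow_succ]
          _ = c := by rw [D.c5, one_mul]
      rw [h3] at h2
      exact h2
    · intro h
      have h1 : Commute c x := h
      exact h1.pow_left 2
  rw [h, D.centc]

lemma ncj {h g : G} (hne : Nat.card (Subgroup.centralizer ({h} : Set G)) ≠
    Nat.card (Subgroup.centralizer ({g} : Set G))) : ¬ IsConj h g ∧ ¬ IsConj h (z * g) :=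
  ⟨fun hc => hne (card_centralizer_congr hc),
    fun hc => hne ((card_centralizer_congr hc).trans (cardz D g))⟩

lemma ncj5 {h g : G} (hh : h ^ 5 = 1) (hg : g ^ 5 = 1) : ¬ IsConj h (z * g) := by
  intro hc
  obtain ⟨x, hx⟩ := isConj_iff.mp hc
  have h1 : (x * h * x⁻¹) ^ 5 = 1 := by
    rw [conj_pow, hh, mul_one, mul_inv_cancel]
  rw [hx] at h1
  have hcm : Commute z g := (D.zc g).symm
  rw [hcm.mul_pow, hg, mul_one] at h1
  have h2 : z ^ 5 = z := by
    calc z ^ 5 = (z * z) * (z * z) * z := by simp only [pow_succ, pow_zero, one_mul, mul_assoc]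
      _ = z := by rw [D.zz]; simp
  rw [h2] at h1
  exact D.zne h1

lemma c25 : (c ^ 2) ^ 5 = 1 := by rw [← pow_mul, mul_comm, pow_mul, D.c5, one_pow]

/-- all elements used are real -/
lemma real1 {χ : G → ℂ} (hχ : IsIrr χ) : χ (c⁻¹) = χ c := (hχ.isConj D.ccinv).symm

lemma conj_c2 : IsConj (c ^ 2) (c ^ 2)⁻¹ := by
  obtain ⟨x, hx⟩ := isConj_iff.mp D.ccinv
  exact isConj_iff.mpr ⟨x, by rw [← inv_pow, ← hx, conj_pow]⟩

lemma real2 {χ : G → ℂ} (hχ : IsIrr χ) : χ (c ^ 2)⁻¹ = χ (c ^ 2) := (hχ.isConj (conj_c2 D)).symm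

lemma realv : v⁻¹ = v := inv_eq_of_mul_eq_one_left D.vv

lemma chi_c3 {χ : G → ℂ} (hχ : IsIrr χ) : χ (c ^ 3) = χ (c ^ 2) := by
  have h : c ^ 3 = (c ^ 2)⁻¹ := by
    apply eq_inv_of_mul_eq_one_left
    rw [← pow_add, D.c5]
  rw [h, real2 D hχ]

lemma chi_c4 {χ : G → ℂ} (hχ : IsIrr χ) : χ (c ^ 4) = χ c := by
  have h : c ^ 4 = c⁻¹ := by
    apply eq_inv_of_mul_eq_one_left
    rw [← pow_succ, D.c5]
  rw [h, real1 D hχ]

lemma S11 : ∑ χ ∈ Lam z, χ 1 * χ 1 = 20160 := by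
  have h := lam_orth D.zc D.zz 1 1
  rw [inv_one, if_pos (IsConj.refl 1), if_neg, card1 D] at h
  · rw [h]; norm_num
  · rw [mul_one, isConj_comm, isConj_one_left]
    exact D.zne

lemma S1v : ∑ χ ∈ Lam z, χ 1 * χ v = 0 := by
  have h := lam_orth D.zc D.zz 1 v
  have hn := ncj D (h := v) (g := 1) (by rw [D.centv, card1 D]; norm_num)
  rw [realv D, if_neg hn.1, if_neg hn.2] at h
  rw [h]; norm_num

lemma Svv : ∑ χ ∈ Lam z, χ v * χ v = 64 := by
  have h := lam_orth D.zc D.zz v v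
  rw [realv D, if_pos (IsConj.refl v), if_neg D.vzv, D.centv] at h
  rw [h]; norm_num

lemma S1c : ∑ χ ∈ Lam z, χ 1 * χ c = 0 := by
  have h := lam_orth D.zc D.zz 1 c
  have hn := ncj D (h := c) (g := 1) (by rw [D.centc, card1 D]; norm_num)
  rw [if_neg hn.1, if_neg hn.2] at h
  rw [Finset.sum_congr rfl (fun χ hχ => by rw [← real1 D (mem_lam.mp hχ).1]), h]; norm_num

lemma S1d : ∑ χ ∈ Lam z, χ 1 * χ (c ^ 2) = 0 := by
  have h := lam_orth D.zc D.zz 1 (c ^ 2)
  have hn := ncj D (h := c ^ 2) (g := 1) (by rw [cardc2 D, card1 D]; norm_num)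
  rw [if_neg hn.1, if_neg hn.2] at h
  rw [Finset.sum_congr rfl (fun χ hχ => by rw [← real2 D (mem_lam.mp hχ).1]), h]; norm_num

lemma Svc : ∑ χ ∈ Lam z, χ v * χ c = 0 := by
  have h := lam_orth D.zc D.zz v c
  have hn := ncj D (h := c) (g := v) (by rw [D.centc, D.centv]; norm_num)
  rw [if_neg hn.1, if_neg hn.2] at h
  rw [Finset.sum_congr rfl (fun χ hχ => by rw [← real1 D (mem_lam.mp hχ).1]), h]; norm_num

lemma Svd : ∑ χ ∈ Lam z, χ v * χ (c ^ 2) = 0 := by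
  have h := lam_orth D.zc D.zz v (c ^ 2)
  have hn := ncj D (h := c ^ 2) (g := v) (by rw [cardc2 D, D.centv]; norm_num)
  rw [if_neg hn.1, if_neg hn.2] at h
  rw [Finset.sum_congr rfl (fun χ hχ => by rw [← real2 D (mem_lam.mp hχ).1]), h]; norm_num

lemma Scc : ∑ χ ∈ Lam z, χ c * χ c = 5 := by
  have h := lam_orth D.zc D.zz c c
  rw [if_pos (IsConj.refl c), if_neg (ncj5 D D.c5 D.c5), D.centc] at h
  have h2 : ∑ χ ∈ Lam z, χ c * χ c = ∑ χ ∈ Lam z, χ c * χ c⁻¹ :=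
    Finset.sum_congr rfl (fun χ hχ => by rw [real1 D (mem_lam.mp hχ).1])
  rw [h2, h]; norm_num

lemma Scd : ∑ χ ∈ Lam z, χ c * χ (c ^ 2) = 0 := by
  have h := lam_orth D.zc D.zz c (c ^ 2)
  rw [if_neg (fun h => D.cc2 h.symm), if_neg (ncj5 D (c25 D) D.c5)] at h
  have h2 : ∑ χ ∈ Lam z, χ c * χ (c ^ 2) = ∑ χ ∈ Lam z, χ c * χ (c ^ 2)⁻¹ :=
    Finset.sum_congr rfl (fun χ hχ => by rw [real2 D (mem_lam.mp hχ).1])
  rw [h2, h]; norm_num

lemma Sdd : ∑ χ ∈ Lam z, χ (c ^ 2) * χ (c ^ 2) = 5 := by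
  have h := lam_orth D.zc D.zz (c ^ 2) (c ^ 2)
  rw [if_pos (IsConj.refl _), if_neg (ncj5 D (c25 D) (c25 D)), cardc2 D] at h
  have h2 : ∑ χ ∈ Lam z, χ (c ^ 2) * χ (c ^ 2) = ∑ χ ∈ Lam z, χ (c ^ 2) * χ (c ^ 2)⁻¹ :=
    Finset.sum_congr rfl (fun χ hχ => by rw [real2 D (mem_lam.mp hχ).1])
  rw [h2, h]; norm_num

/-- the value of the faithful character `χ` at the idempotent `e_i`, `w = ζ^i` -/
def MM (v c : G) (w : ℂ) (χ : G → ℂ) : ℂ :=
  (1 / 80) * (χ 1 + 5 * χ v + 16 * ((w ^ 4 + w) * χ c + (w ^ 3 + w ^ 2) * χ (c ^ 2)))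

lemma cvl_eI_lam {R : Type*} [CommRing R] (ι : R →+* ℂ) {u2 u16 u5 ζ : R} (h2 : 2 * u2 = 1)
    (h16 : 16 * u16 = 1) (h5 : u5 * 5 = 1) (hζ : ζ ^ 5 = 1) {χ : G → ℂ} (hχ : χ ∈ Lam z) :
    cvl ι χ (eI z c E u2 u16 u5 ζ) = MM v c (ι ζ) χ := by
  obtain ⟨hi, hl⟩ := mem_lam.mp hχ
  have hz := lam_mul hi D.zc hl
  have e2 : ι u2 = 1 / 2 := by
    have := congrArg ι h2
    rw [map_mul, map_ofNat, map_one] at this
    linear_combination (1 / 2) * this
  have e16 : ι u16 = 1 / 16 := by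
    have := congrArg ι h16
    rw [map_mul, map_ofNat, map_one] at this
    linear_combination (1 / 16) * this
  have e5 : ι u5 = 1 / 5 := by
    have := congrArg ι h5
    rw [map_mul, map_ofNat, map_one] at this
    linear_combination (1 / 5) * this
  have hs0 : ∑ e : E, (χ ((e : G) * c ^ 0) - χ (z * ((e : G) * c ^ 0))) =
      2 * (χ 1 + 5 * χ v) := by
    have h1 := D.sumE χ (fun g y => hi.conj g y)
    rw [finsum_eq_sum_of_fintype, hz] at h1
    have h3 : ∑ e : E, (χ ((e : G) * c ^ 0) - χ (z * ((e : G) * c ^ 0))) = 2 * ∑ e : E, χ (e : G) := by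
      rw [Finset.mul_sum]
      refine Finset.sum_congr rfl fun e _ => ?_
      rw [pow_zero, mul_one, hz]
      ring
    rw [h3, h1]
    ring
  have hsl : ∀ l ∈ [1, 2, 3, 4], ∑ e : E, (χ ((e : G) * c ^ l) - χ (z * ((e : G) * c ^ l))) =
      32 * χ (c ^ l) := by
    intro l hl'
    have h3 : ∀ e : E, χ ((e : G) * c ^ l) - χ (z * ((e : G) * c ^ l)) = 2 * χ (c ^ l) := by
      intro e
      rw [hz, hi.isConj (D.ec e e.2 l hl')]
      ring
    rw [Finset.sum_congr rfl fun e _ => h3 e, Finset.sum_const, Finset.card_univ,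
      ← Nat.card_eq_fintype_card, D.cardE, nsmul_eq_mul]
    push_cast
    ring
  have hw : ι ζ ^ 5 = 1 := by rw [← map_pow, hζ, map_one]
  rw [cvl_eI, Finset.sum_range_succ, Finset.sum_range_succ, Finset.sum_range_succ,
    Finset.sum_range_succ, Finset.sum_range_one, hs0, hsl 1 (by simp), hsl 2 (by simp),
    hsl 3 (by simp), hsl 4 (by simp), chi_c3 D hi, chi_c4 D hi, map_mul, map_mul, e2, e16, e5,
    MM, pow_one]
  norm_num
  rw [hw]
  ring

lemma cvl_eI_nlam {R : Type*} [CommRing R] (ι : R →+* ℂ) (u2 u16 u5 ζ : R) {χ : G → ℂ}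
    (hi : IsIrr χ) (hχ : χ ∉ Lam z) :
    cvl ι χ (eI z c E u2 u16 u5 ζ) = 0 := by
  have hl : χ z ≠ - χ 1 := fun h => hχ (mem_lam.mpr ⟨hi, h⟩)
  have hz := nlam_mul hi D.zc D.zz hl
  rw [cvl_eI]
  simp [hz]

end

end Pool.Agent.Y60
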