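import Pool.Agent.Y60.Ab2

/-!
# The idempotents of the stabilizer `K` and of the operator `T`
-/

open scoped BigOperators Classical MonoidAlgebra
open Pool.Agent.H254R3.IN Pool.Agent.Helper884

noncomputable section

namespace Pool.Agent.Y60

section

variable {G : Type} [Group G] [Fintype G]

/-- a function as an element of the group algebra -/
def mkA (f : G → ℂ) : MonoidAlgebra ℂ G := ∑ g : G, MonoidAlgebra.single g (f g)

lemma cvl_mkA (f χ : G → ℂ) : cvl (RingHom.id ℂ) χ (mkA f) = ∑ g, f g * χ g := by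
  rw [mkA, cvl_sum]
  refine Finset.sum_congr rfl fun g _ => ?_
  rw [cvl_single]
  rfl

lemma mkA_mul (f h : G → ℂ) : mkA f * mkA h = mkA (conv f h) := by
  rw [mkA, mkA, mkA, Finset.sum_mul]
  have h1 : ∀ x : G, MonoidAlgebra.single x (f x) * ∑ g : G, MonoidAlgebra.single g (h g) =
      ∑ g : G, MonoidAlgebra.single g (f x * h (x⁻¹ * g)) := by
    intro x
    rw [Finset.mul_sum]
    refine Fintype.sum_equiv (Equiv.mulLeft x) _ _ fun g => ?_
    rw [MonoidAlgebra.single_mul_single]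
    simp
  rw [Finset.sum_congr rfl fun x _ => h1 x, Finset.sum_comm]
  refine Finset.sum_congr rfl fun g _ => ?_
  rw [conv]
  exact (map_sum (MonoidAlgebra.singleAddHom (R := ℂ) g) _ _).symm

lemma single_mul_mkA (k : G) (r : ℂ) (f : G → ℂ) :
    MonoidAlgebra.single k r * mkA f = mkA (fun g => r * f (k⁻¹ * g)) := by
  rw [mkA, mkA, Finset.mul_sum]
  refine Fintype.sum_equiv (Equiv.mulLeft k) _ _ fun g => ?_
  rw [MonoidAlgebra.single_mul_single]
  simp

lemma mkA_mul_single (k : G) (r : ℂ) (f : G → ℂ) :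
    mkA f * MonoidAlgebra.single k r = mkA (fun g => f (g * k⁻¹) * r) := by
  rw [mkA, mkA, Finset.sum_mul]
  refine Fintype.sum_equiv (Equiv.mulRight k) _ _ fun g => ?_
  rw [MonoidAlgebra.single_mul_single]
  simp

lemma mkA_add (f h : G → ℂ) : mkA (fun g => f g + h g) = mkA f + mkA h := by
  rw [mkA, mkA, mkA, ← Finset.sum_add_distrib]
  exact Finset.sum_congr rfl fun g _ => MonoidAlgebra.single_add _ _ _

variable {z v c : G} {E K : Subgroup G} {T : G → ℤ} (D : GData G z v c E K T)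

include D

lemma Jf_z (g : G) : Jf z K (z * g) = - Jf z K g := by
  have h1 : z * (z * g) = g := by rw [← mul_assoc, D.zz, one_mul]
  unfold Jf
  rw [h1]
  by_cases h2 : g ∈ K
  · have h3 : z * g ∉ K := fun h => D.zK (by
      have := K.mul_mem h (K.inv_mem h2)
      simpa using this)
    rw [if_neg h3, if_pos h2, if_pos h2]
  · by_cases h3 : z * g ∈ K
    · rw [if_pos h3, if_neg h2, if_pos h3]
      norm_num
    · rw [if_neg h3, if_neg h2, if_neg h2, if_neg h3]
      norm_num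

lemma Jf_l (k : G) (hk : k ∈ K) (g : G) : Jf z K (k * g) = Jf z K g := by
  unfold Jf
  have h1 : z * (k * g) = k * (z * g) := by rw [← mul_assoc, ← D.zc k, mul_assoc]
  rw [h1, K.mul_mem_cancel_left hk, K.mul_mem_cancel_left hk]

lemma Jf_r (k : G) (hk : k ∈ K) (g : G) : Jf z K (g * k) = Jf z K g := by
  unfold Jf
  rw [← mul_assoc, K.mul_mem_cancel_right hk, K.mul_mem_cancel_right hk]

lemma sum_abs : ∑ x : G, ((if x ∈ K then 1 else 0) + (if z * x ∈ K then 1 else 0) : ℂ) = 320 := by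
  have h1 : ∑ x : G, (if x ∈ K then 1 else 0 : ℂ) = 160 := by
    rw [Finset.sum_boole, ← Fintype.card_subtype, ← Nat.card_eq_fintype_card]
    have := D.cardK
    rw [show Nat.card {x // x ∈ K} = 160 from this]
    norm_num
  rw [Finset.sum_add_distrib, h1]
  have h2 : ∑ x : G, (if z * x ∈ K then 1 else 0 : ℂ) = ∑ x : G, (if x ∈ K then 1 else 0 : ℂ) :=
    Fintype.sum_equiv (Equiv.mulLeft z) _ _ fun x => rfl
  rw [h2, h1]
  norm_num

lemma conv_Jf (F : G → ℤ) (hl : ∀ k ∈ K, ∀ g, F (k * g) = F g) (hz : ∀ g, F (z * g) = - F g)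
    (g : G) : conv (fun g => (Jf z K g : ℂ)) (fun g => (F g : ℂ)) g = 320 * F g := by
  rw [← sum_abs D, conv, Finset.sum_mul]
  refine Finset.sum_congr rfl fun x _ => ?_
  unfold Jf
  by_cases h1 : x ∈ K
  · have h3 : z * x ∉ K := fun h => D.zK (by
      have := K.mul_mem h (K.inv_mem h1)
      simpa using this)
    rw [if_pos h1, if_pos h1, if_neg h3, hl x⁻¹ (K.inv_mem h1)]
    push_cast
    ring
  · rw [if_neg h1, if_neg h1]
    by_cases h2 : z * x ∈ K
    · rw [if_pos h2, if_pos h2]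
      have h4 : x⁻¹ * g = z * ((z * x)⁻¹ * g) := by
        rw [mul_inv_rev, inv_eq_of_mul_eq_one_left D.zz, ← mul_assoc, ← mul_assoc, ← D.zc x⁻¹,
          mul_assoc x⁻¹ z z, D.zz, mul_one]
      rw [h4, hz, hl _ (K.inv_mem h2)]
      push_cast
      ring
    · rw [if_neg h2, if_neg h2]
      push_cast
      ring

lemma conv_Jf' (F : G → ℤ) (hr : ∀ k ∈ K, ∀ g, F (g * k) = F g) (hz : ∀ g, F (z * g) = - F g)
    (g : G) : conv (fun g => (F g : ℂ)) (fun g => (Jf z K g : ℂ)) g = 320 * F g := by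
  rw [← sum_abs D, conv, Finset.sum_mul]
  refine Fintype.sum_equiv ((Equiv.inv G).trans (Equiv.mulRight g)) _ _ fun x => ?_
  have e1 : ((Equiv.inv G).trans (Equiv.mulRight g)) x = x⁻¹ * g := rfl
  rw [e1]
  generalize hy : x⁻¹ * g = y
  have hx : x = g * y⁻¹ := by rw [← hy]; group
  unfold Jf
  by_cases h1 : y ∈ K
  · have h3 : z * y ∉ K := fun h => D.zK (by
      have := K.mul_mem h (K.inv_mem h1)
      simpa using this)
    rw [if_pos h1, if_pos h1, if_neg h3, hx, hr y⁻¹ (K.inv_mem h1)]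
    push_cast
    ring
  · rw [if_neg h1, if_neg h1]
    by_cases h2 : z * y ∈ K
    · rw [if_pos h2, if_pos h2]
      have h4 : x = z * (g * (z * y)⁻¹) := by
        rw [hx, mul_inv_rev, inv_eq_of_mul_eq_one_left D.zz, ← mul_assoc g, D.zc (g * y⁻¹),
          ← mul_assoc z z, D.zz, one_mul]
      rw [h4, hz, hr _ (K.inv_mem h2)]
      push_cast
      ring
    · rw [if_neg h2, if_neg h2]
      push_cast
      ring

omit D in
lemma conv_lin (a b a' b' : ℂ) (F F' H H' : G → ℂ) (g : G) :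
    conv (fun g => a * F g + b * F' g) (fun g => a' * H g + b' * H' g) g =
      a * a' * conv F H g + a * b' * conv F H' g + b * a' * conv F' H g +
        b * b' * conv F' H' g := by
  simp only [conv, Finset.mul_sum]
  rw [← Finset.sum_add_distrib, ← Finset.sum_add_distrib, ← Finset.sum_add_distrib]
  refine Finset.sum_congr rfl fun x _ => ?_
  ring

/-- the four products -/
lemma conv4 (a b a' b' : ℂ) (g : G) :
    conv (fun g => a * (Jf z K g : ℂ) + b * (T g : ℂ)) (fun g => a' * (Jf z K g : ℂ) + b' * (T g : ℂ)) g =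
      (320 * a * a' + 25600 * b * b') * Jf z K g +
        (320 * a * b' + 320 * b * a' - 640 * b * b') * T g := by
  rw [conv_lin, conv_Jf D _ (Jf_l D) (Jf_z D), conv_Jf D _ D.Tl D.Tz, conv_Jf' D _ D.Tr D.Tz]
  have h1 : conv (fun g => (T g : ℂ)) (fun g => (T g : ℂ)) g =
      160 * (160 * Jf z K g - 4 * T g) := by
    rw [conv]
    exact_mod_cast D.Tconv g
  rw [h1]
  ring

/-- first idempotent (rank of degree 56) -/
def fS (z : G) (K : Subgroup G) (T : G → ℤ) : MonoidAlgebra ℂ G :=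
  mkA (fun g => (8 / 5760) * (Jf z K g : ℂ) + (-1 / 5760) * (T g : ℂ))

/-- second idempotent (rank of degree 70) -/
def fT (z : G) (K : Subgroup G) (T : G → ℤ) : MonoidAlgebra ℂ G :=
  mkA (fun g => (10 / 5760) * (Jf z K g : ℂ) + (1 / 5760) * (T g : ℂ))

lemma fS_idem : fS z K T * fS z K T = fS z K T := by
  rw [fS, mkA_mul]
  congr 1
  funext g
  rw [conv4 D]
  ring

lemma fT_idem : fT z K T * fT z K T = fT z K T := by
  rw [fT, mkA_mul]
  congr 1
  funext g
  rw [conv4 D]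
  ring

omit D in
lemma fST_sum : fS z K T + fT z K T = mkA (fun g => (1 / 320) * (Jf z K g : ℂ)) := by
  rw [fS, fT, ← mkA_add]
  congr 1
  funext g
  ring

/-- sum over all faithful characters -/
lemma reg_sum (f : G → ℂ) (hf : ∀ g, f (z * g) = - f g) :
    ∑ χ ∈ Lam z, χ 1 * (∑ g, f g * χ g) = 40320 * f 1 := by
  have h1 : ∑ χ ∈ Lam z, χ 1 * (∑ g, f g * χ g) = ∑ χ ∈ IC.Irr G, χ 1 * (∑ g, f g * χ g) := by
    rw [Lam, Finset.sum_filter]
    refine Finset.sum_congr rfl fun χ hχ => ?_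
    by_cases h2 : χ z = - χ 1
    · rw [if_pos h2]
    · rw [if_neg h2]
      have hz := nlam_mul (irr_iff.mp hχ) D.zc D.zz h2
      have h3 : ∑ g, f g * χ g = - ∑ g, f g * χ g := by
        conv_lhs => rw [← Equiv.sum_comp (Equiv.mulLeft z)]
        simp only [Equiv.coe_mulLeft, hf, hz, neg_mul, Finset.sum_neg_distrib]
      have h4 : ∑ g, f g * χ g = 0 := self_eq_neg.mp h3
      rw [h4, mul_zero]
  rw [h1]
  simp only [Finset.mul_sum]
  rw [Finset.sum_comm]
  have h5 : ∀ g : G, ∑ χ ∈ IC.Irr G, χ 1 * (f g * χ g) = if g = 1 then 40320 * f 1 else 0 := by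
    intro g
    have h6 : ∑ χ ∈ IC.Irr G, χ 1 * (f g * χ g) = f g * ∑ χ ∈ IC.Irr G, χ g * χ (1 : G)⁻¹ := by
      rw [Finset.mul_sum]
      refine Finset.sum_congr rfl fun χ _ => ?_
      rw [inv_one]
      ring
    rw [h6, col_orth]
    by_cases h7 : g = 1
    · subst h7
      rw [if_pos (IsConj.refl _), if_pos rfl, card1 D]
      push_cast
      ring
    · rw [if_neg (fun h => h7 (isConj_one_right.mp h)), if_neg h7, mul_zero]
  rw [Finset.sum_congr rfl fun g _ => h5 g, Finset.sum_ite_eq' Finset.univ 1,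
    if_pos (Finset.mem_univ _)]

lemma Jf_one : Jf z K 1 = 1 := by rw [Jf, if_pos K.one_mem]

lemma sum_fS : ∑ χ ∈ Lam z, χ 1 * cvl (RingHom.id ℂ) χ (fS z K T) = 56 := by
  simp only [fS, cvl_mkA]
  rw [reg_sum D _ (fun g => by rw [Jf_z D, D.Tz]; push_cast; ring), Jf_one D, D.T1]
  norm_num

lemma sum_fT : ∑ χ ∈ Lam z, χ 1 * cvl (RingHom.id ℂ) χ (fT z K T) = 70 := by
  simp only [fT, cvl_mkA]
  rw [reg_sum D _ (fun g => by rw [Jf_z D, D.Tz]; push_cast; ring), Jf_one D, D.T1]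
  norm_num

/-- the idempotent `e_0` over `ℂ` -/
def e0 (z c : G) (E : Subgroup G) : MonoidAlgebra ℂ G := eI z c E (1 / 2) (1 / 16) (1 / 5) 1

lemma e0_idem : e0 z c E * e0 z c E = e0 z c E :=
  eI_idem D.zc D.zz (by norm_num) D.cardE (by norm_num) D.cE D.c5 (one_pow 5) (by norm_num)

lemma e0_mul : e0 z c E * mkA (fun g => (1 / 320) * (Jf z K g : ℂ)) =
    mkA (fun g => (1 / 320) * (Jf z K g : ℂ)) := by
  set f : G → ℂ := fun g => (1 / 320) * (Jf z K g : ℂ) with hf
  have hk : ∀ k ∈ K, ∀ r : ℂ, MonoidAlgebra.single k r * mkA f = mkA (fun g => r * f g) := by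
    intro k hk r
    rw [single_mul_mkA]
    congr 1
    funext g
    simp only [hf]
    rw [Jf_l D k⁻¹ (K.inv_mem hk)]
  have hzz : ∀ k ∈ K, ∀ r : ℂ, MonoidAlgebra.single (z * k) r * mkA f =
      - mkA (fun g => r * f g) := by
    intro k hk r
    rw [single_mul_mkA]
    have h1 : (fun g => r * f ((z * k)⁻¹ * g)) = fun g => - (r * f g) := by
      funext g
      simp only [hf]
      have h2 : (z * k)⁻¹ * g = z * (k⁻¹ * g) := by
        rw [mul_inv_rev, inv_eq_of_mul_eq_one_left D.zz, D.zc k⁻¹, mul_assoc]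
      rw [h2, Jf_z D, Jf_l D k⁻¹ (K.inv_mem hk)]
      push_cast
      ring
    rw [h1, mkA, mkA, ← Finset.sum_neg_distrib]
    exact Finset.sum_congr rfl fun g _ => MonoidAlgebra.single_neg _ _
  rw [e0, eI_expand, Finset.sum_mul]
  have h3 : ∀ e : E, (∑ l ∈ Finset.range 5,
      (MonoidAlgebra.single ((e : G) * c ^ l) ((1 / 2 : ℂ) * (1 / 16) * (1 / 5 * 1 ^ (5 - l))) -
      MonoidAlgebra.single (z * ((e : G) * c ^ l)) (1 / 2 * (1 / 16) * (1 / 5 * 1 ^ (5 - l))))) *
      mkA f = mkA (fun g => (1 / 16) * f g) := by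
    intro e
    rw [Finset.sum_mul]
    have h4 : ∀ l ∈ Finset.range 5,
      (MonoidAlgebra.single ((e : G) * c ^ l) ((1 / 2 : ℂ) * (1 / 16) * (1 / 5 * 1 ^ (5 - l))) -
      MonoidAlgebra.single (z * ((e : G) * c ^ l)) (1 / 2 * (1 / 16) * (1 / 5 * 1 ^ (5 - l)))) *
      mkA f = mkA (fun g => (1 / 80) * f g) := by
      intro l _
      have hm : (e : G) * c ^ l ∈ K := K.mul_mem (D.EK e.2) (K.pow_mem D.cK l)
      rw [sub_mul, hk _ hm, hzz _ hm, sub_neg_eq_add, ← mkA_add]
      congr 1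
      funext g
      simp only [one_pow]
      ring
    rw [Finset.sum_congr rfl h4, Finset.sum_const, Finset.card_range, mkA, mkA, Finset.smul_sum]
    refine Finset.sum_congr rfl fun g _ => ?_
    rw [MonoidAlgebra.smul_single, nsmul_eq_mul]
    congr 1
    push_cast
    ring
  rw [Finset.sum_congr rfl fun e _ => h3 e, Finset.sum_const, Finset.card_univ,
    ← Nat.card_eq_fintype_card, D.cardE, mkA, mkA, Finset.smul_sum]
  refine Finset.sum_congr rfl fun g _ => ?_
  rw [MonoidAlgebra.smul_single, nsmul_eq_mul]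
  congr 1
  push_cast
  ring

lemma mul_e0 : mkA (fun g => (1 / 320) * (Jf z K g : ℂ)) * e0 z c E =
    mkA (fun g => (1 / 320) * (Jf z K g : ℂ)) := by
  set f : G → ℂ := fun g => (1 / 320) * (Jf z K g : ℂ) with hf
  have hk : ∀ k ∈ K, ∀ r : ℂ, mkA f * MonoidAlgebra.single k r = mkA (fun g => r * f g) := by
    intro k hk r
    rw [mkA_mul_single]
    congr 1
    funext g
    simp only [hf]
    rw [Jf_r D k⁻¹ (K.inv_mem hk)]
    ring
  have hzz : ∀ k ∈ K, ∀ r : ℂ, mkA f * MonoidAlgebra.single (z * k) r =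
      - mkA (fun g => r * f g) := by
    intro k hk r
    rw [mkA_mul_single]
    have h1 : (fun g => f (g * (z * k)⁻¹) * r) = fun g => - (r * f g) := by
      funext g
      simp only [hf]
      have h2 : g * (z * k)⁻¹ = z * (g * k⁻¹) := by
        rw [mul_inv_rev, inv_eq_of_mul_eq_one_left D.zz, ← mul_assoc, D.zc (g * k⁻¹)]
      rw [h2, Jf_z D, Jf_r D k⁻¹ (K.inv_mem hk)]
      push_cast
      ring
    rw [h1, mkA, mkA, ← Finset.sum_neg_distrib]
    exact Finset.sum_congr rfl fun g _ => MonoidAlgebra.single_neg _ _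
  rw [e0, eI_expand, Finset.mul_sum]
  have h3 : ∀ e : E, mkA f * (∑ l ∈ Finset.range 5,
      (MonoidAlgebra.single ((e : G) * c ^ l) ((1 / 2 : ℂ) * (1 / 16) * (1 / 5 * 1 ^ (5 - l))) -
      MonoidAlgebra.single (z * ((e : G) * c ^ l)) (1 / 2 * (1 / 16) * (1 / 5 * 1 ^ (5 - l))))) =
      mkA (fun g => (1 / 16) * f g) := by
    intro e
    rw [Finset.mul_sum]
    have h4 : ∀ l ∈ Finset.range 5, mkA f *
      (MonoidAlgebra.single ((e : G) * c ^ l) ((1 / 2 : ℂ) * (1 / 16) * (1 / 5 * 1 ^ (5 - l))) -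
      MonoidAlgebra.single (z * ((e : G) * c ^ l)) (1 / 2 * (1 / 16) * (1 / 5 * 1 ^ (5 - l)))) =
      mkA (fun g => (1 / 80) * f g) := by
      intro l _
      have hm : (e : G) * c ^ l ∈ K := K.mul_mem (D.EK e.2) (K.pow_mem D.cK l)
      rw [mul_sub, hk _ hm, hzz _ hm, sub_neg_eq_add, ← mkA_add]
      congr 1
      funext g
      simp only [one_pow]
      ring
    rw [Finset.sum_congr rfl h4, Finset.sum_const, Finset.card_range, mkA, mkA, Finset.smul_sum]
    refine Finset.sum_congr rfl fun g _ => ?_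
    rw [MonoidAlgebra.smul_single, nsmul_eq_mul]
    congr 1
    push_cast
    ring
  rw [Finset.sum_congr rfl fun e _ => h3 e, Finset.sum_const, Finset.card_univ,
    ← Nat.card_eq_fintype_card, D.cardE, mkA, mkA, Finset.smul_sum]
  refine Finset.sum_congr rfl fun g _ => ?_
  rw [MonoidAlgebra.smul_single, nsmul_eq_mul]
  congr 1
  push_cast
  ring

/-- `m_0 - s - t` is a natural number -/
lemma m0_sub {χ : G → ℂ} (hχ : χ ∈ Lam z) : ∃ m : ℕ, MM v c 1 χ =
    cvl (RingHom.id ℂ) χ (fS z K T) + cvl (RingHom.id ℂ) χ (fT z K T) + m := by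
  set F : MonoidAlgebra ℂ G := mkA (fun g => (1 / 320) * (Jf z K g : ℂ)) with hF
  have hFF : F * F = F := by
    rw [hF, mkA_mul]
    congr 1
    funext g
    have h := conv4 D (1 / 320) 0 (1 / 320) 0 g
    simp only [zero_mul, add_zero] at h
    rw [h]
    ring
  have h1 : (e0 z c E - F) * (e0 z c E - F) = e0 z c E - F := by
    rw [mul_sub, sub_mul, sub_mul, e0_idem D, mul_e0 D, e0_mul D, hFF, sub_self, sub_zero]
  obtain ⟨m, hm⟩ := cvl_nat (RingHom.id ℂ) (mem_lam.mp hχ).1 h1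
  refine ⟨m, ?_⟩
  have h2 : cvl (RingHom.id ℂ) χ (e0 z c E) = MM v c 1 χ :=
    cvl_eI_lam D (RingHom.id ℂ) (by norm_num) (by norm_num) (by norm_num) (one_pow 5) hχ
  rw [← cvl_add, fST_sum, ← hF, ← h2, ← hm, cvl_sub]
  ring

end

end Pool.Agent.Y60
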