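import Pool.Agent.Y60.Ab3
import Pool.Agent.Y37.BR.T5
import Pool.Agent.Helper884.IC.Basic

/-!
# The faithful characters of `2.L₃(4)`: degrees and multiplicities
-/

open scoped BigOperators Classical MonoidAlgebra
open Pool.Agent.H254R3.IN Pool.Agent.Helper884

noncomputable section

namespace Pool.Agent.Y60

/-- a primitive fifth root of unity -/
def xi : ℂ := Complex.exp (2 * Real.pi * Complex.I / (5 : ℕ))

lemma xi_prim : IsPrimitiveRoot xi 5 := Complex.isPrimitiveRoot_exp 5 (by norm_num)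

lemma xi5 : xi ^ 5 = 1 := xi_prim.pow_eq_one

lemma xi_sum : xi ^ 4 = - 1 - xi - xi ^ 2 - xi ^ 3 := by
  have h := xi_prim.geom_sum_eq_zero (by norm_num)
  simp only [Finset.sum_range_succ, Finset.sum_range_zero, pow_zero, pow_one, zero_add] at h
  linear_combination h

lemma xi6 : xi ^ 6 = xi := by rw [pow_succ, xi5, one_mul]
lemma xi8 : xi ^ 8 = xi ^ 3 := by
  calc xi ^ 8 = xi ^ 5 * xi ^ 3 := by rw [← pow_add]
    _ = _ := by rw [xi5, one_mul]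

/-- the natural number equal to `x` (if any) -/
def toN (x : ℂ) : ℕ := if h : ∃ m : ℕ, x = m then h.choose else 0

lemma toN_eq {x : ℂ} (h : ∃ m : ℕ, x = m) : (toN x : ℂ) = x := by
  rw [toN, dif_pos h]
  exact h.choose_spec.symm

section

variable {G : Type} [Group G] [Fintype G] {z v c : G} {E K : Subgroup G} {T : G → ℤ}
  (D : GData G z v c E K T)

include D

lemma sum4 (a1 a2 a3 a4 b1 b2 b3 b4 : ℂ) :
    ∑ χ ∈ Lam z, (a1 * χ 1 + a2 * χ v + a3 * χ c + a4 * χ (c ^ 2)) *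
      (b1 * χ 1 + b2 * χ v + b3 * χ c + b4 * χ (c ^ 2)) =
      20160 * (a1 * b1) + 64 * (a2 * b2) + 5 * (a3 * b3) + 5 * (a4 * b4) := by
  have h1 : ∀ χ ∈ Lam z, (a1 * χ 1 + a2 * χ v + a3 * χ c + a4 * χ (c ^ 2)) *
      (b1 * χ 1 + b2 * χ v + b3 * χ c + b4 * χ (c ^ 2)) =
      (a1 * b1) * (χ 1 * χ 1) + (a1 * b2 + a2 * b1) * (χ 1 * χ v) +
      (a1 * b3 + a3 * b1) * (χ 1 * χ c) + (a1 * b4 + a4 * b1) * (χ 1 * χ (c ^ 2)) +
      (a2 * b2) * (χ v * χ v) + (a2 * b3 + a3 * b2) * (χ v * χ c) +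
      (a2 * b4 + a4 * b2) * (χ v * χ (c ^ 2)) + (a3 * b3) * (χ c * χ c) +
      (a3 * b4 + a4 * b3) * (χ c * χ (c ^ 2)) + (a4 * b4) * (χ (c ^ 2) * χ (c ^ 2)) := by
    intro χ _
    ring
  rw [Finset.sum_congr rfl h1]
  simp only [Finset.sum_add_distrib, ← Finset.mul_sum]
  rw [S11 D, S1v D, S1c D, S1d D, Svv D, Svc D, Svd D, Scc D, Scd D, Sdd D]
  ring

lemma sum1 (a1 a2 a3 a4 : ℂ) :
    ∑ χ ∈ Lam z, (a1 * χ 1 + a2 * χ v + a3 * χ c + a4 * χ (c ^ 2)) * χ 1 = 20160 * a1 := by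
  have h := sum4 D a1 a2 a3 a4 1 0 0 0
  simp only [one_mul, zero_mul, add_zero, mul_one, mul_zero] at h
  exact h

omit D in
lemma MM0 (χ : G → ℂ) : MM v c 1 χ =
    1 / 80 * χ 1 + 5 / 80 * χ v + 32 / 80 * χ c + 32 / 80 * χ (c ^ 2) := by
  rw [MM]; ring

omit D in
lemma MM1 (χ : G → ℂ) : MM v c xi χ =
    1 / 80 * χ 1 + 5 / 80 * χ v + (16 / 80 * (xi ^ 4 + xi)) * χ c +
      (16 / 80 * (xi ^ 3 + xi ^ 2)) * χ (c ^ 2) := by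
  rw [MM]; ring

omit D in
lemma MM2 (χ : G → ℂ) : MM v c (xi ^ 2) χ =
    1 / 80 * χ 1 + 5 / 80 * χ v + (16 / 80 * (xi ^ 3 + xi ^ 2)) * χ c +
      (16 / 80 * (xi ^ 4 + xi)) * χ (c ^ 2) := by
  rw [MM]
  have h1 : (xi ^ 2) ^ 4 = xi ^ 3 := by rw [← pow_mul, xi8]
  have h2 : (xi ^ 2) ^ 3 = xi := by rw [← pow_mul, xi6]
  have h3 : (xi ^ 2) ^ 2 = xi ^ 4 := by rw [← pow_mul]
  rw [h1, h2, h3]
  ring

omit D in
lemma tau_sum : (xi ^ 4 + xi) + (xi ^ 3 + xi ^ 2) = -1 := by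
  rw [xi_sum]; ring

omit D in
lemma tau_mul : (xi ^ 4 + xi) * (xi ^ 3 + xi ^ 2) = -1 := by
  have h : (xi ^ 4 + xi) * (xi ^ 3 + xi ^ 2) = xi ^ 5 * xi ^ 2 + xi ^ 5 * xi + xi ^ 4 + xi ^ 3 := by
    ring
  rw [h, xi5, xi_sum]; ring

lemma nat_deg {χ : G → ℂ} (hχ : χ ∈ Lam z) : ∃ m : ℕ, χ 1 = m := by
  obtain ⟨n, _, hn⟩ := (mem_lam.mp hχ).1.deg
  exact ⟨n, hn.symm⟩

lemma nat_MM {w : ℂ} (hw : w ^ 5 = 1) {χ : G → ℂ} (hχ : χ ∈ Lam z) : ∃ m : ℕ, MM v c w χ = m := by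
  have h1 : eI z c E (1 / 2) (1 / 16) (1 / 5) w * eI z c E (1 / 2) (1 / 16) (1 / 5) w =
      eI z c E (1 / 2) (1 / 16) (1 / 5) w :=
    eI_idem D.zc D.zz (by norm_num) D.cardE (by norm_num) D.cE D.c5 hw (by norm_num)
  obtain ⟨m, hm⟩ := cvl_nat (RingHom.id ℂ) (mem_lam.mp hχ).1 h1
  refine ⟨m, ?_⟩
  rw [← hm, cvl_eI_lam D (RingHom.id ℂ) (by norm_num) (by norm_num) (by norm_num) hw hχ]
  rfl

omit D in
lemma xi2_5 : (xi ^ 2) ^ 5 = 1 := by rw [← pow_mul, mul_comm, pow_mul, xi5, one_pow]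

/-- the weighted sum -/
lemma a_eq (χ : G → ℂ) : MM v c 1 χ + 2 * MM v c xi χ + 2 * MM v c (xi ^ 2) χ =
    (1 / 16) * (χ 1 + 5 * χ v) := by
  rw [MM0, MM1, MM2]
  linear_combination (2 / 5 * (χ c + χ (c ^ 2))) * tau_sum

lemma int_v {χ : G → ℂ} (hχ : χ ∈ Lam z) : ∃ r : ℕ, χ v + χ 1 = 2 * r := by
  have h1 : eig (R := ℂ) v 2 (1 / 2) 1 * eig v 2 (1 / 2) 1 = eig v 2 (1 / 2) 1 :=
    eig_idem (by rw [pow_two, D.vv]) (one_pow 2) (by norm_num)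
  obtain ⟨m, hm⟩ := cvl_nat (RingHom.id ℂ) (mem_lam.mp hχ).1 h1
  refine ⟨m, ?_⟩
  rw [← hm, eig, cvl_sum, Finset.sum_range_succ, Finset.sum_range_one, cvl_single, cvl_single]
  simp
  ring

/-- the numbers of `T5` -/
theorem classify : ∃ a b c' d e f : G → ℂ, [a, b, c', d, e, f].Nodup ∧
      (∀ χ ∈ [a, b, c', d, e, f], χ ∈ Lam z) ∧
      (a 1 = 28 ∧ MM v c 1 a = 1 ∧ MM v c xi a = 1 ∧ MM v c (xi ^ 2) a = 0) ∧
      (b 1 = 28 ∧ MM v c 1 b = 1 ∧ MM v c xi b = 0 ∧ MM v c (xi ^ 2) b = 1) ∧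
      (c' 1 = 64 ∧ MM v c 1 c' = 0 ∧ MM v c xi c' = 1 ∧ MM v c (xi ^ 2) c' = 1) ∧
      (d 1 = 70 ∧ MM v c 1 d = 1 ∧ MM v c xi d = 1 ∧ MM v c (xi ^ 2) d = 1) ∧
      (e 1 = 90 ∧ MM v c 1 e = 1 ∧ MM v c xi e = 1 ∧ MM v c (xi ^ 2) e = 1) ∧
      (f 1 = 36 ∧ MM v c 1 f = 1 ∧ MM v c xi f = 0 ∧ MM v c (xi ^ 2) f = 0) ∧
      ∀ χ ∈ Lam z, χ ∉ [a, b, c', d, e, f] →
        MM v c 1 χ = 0 ∧ MM v c xi χ = 0 ∧ MM v c (xi ^ 2) χ = 0 := by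
  set nF : (G → ℂ) → ℕ := fun χ => toN (χ 1) with hnF
  set m0 : (G → ℂ) → ℕ := fun χ => toN (MM v c 1 χ) with hm0
  set m1 : (G → ℂ) → ℕ := fun χ => toN (MM v c xi χ) with hm1
  set m2 : (G → ℂ) → ℕ := fun χ => toN (MM v c (xi ^ 2) χ) with hm2
  set s : (G → ℂ) → ℕ := fun χ => toN (cvl (RingHom.id ℂ) χ (fS z K T)) with hs
  set t : (G → ℂ) → ℕ := fun χ => toN (cvl (RingHom.id ℂ) χ (fT z K T)) with ht
  have eN : ∀ χ ∈ Lam z, (nF χ : ℂ) = χ 1 := fun χ hχ => toN_eq (nat_deg D hχ)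
  have e0 : ∀ χ ∈ Lam z, (m0 χ : ℂ) = MM v c 1 χ := fun χ hχ => toN_eq (nat_MM D (one_pow 5) hχ)
  have e1 : ∀ χ ∈ Lam z, (m1 χ : ℂ) = MM v c xi χ := fun χ hχ => toN_eq (nat_MM D xi5 hχ)
  have e2 : ∀ χ ∈ Lam z, (m2 χ : ℂ) = MM v c (xi ^ 2) χ := fun χ hχ => toN_eq (nat_MM D xi2_5 hχ)
  have es : ∀ χ ∈ Lam z, (s χ : ℂ) = cvl (RingHom.id ℂ) χ (fS z K T) := fun χ hχ =>
    toN_eq (cvl_nat _ (mem_lam.mp hχ).1 (fS_idem D))
  have et : ∀ χ ∈ Lam z, (t χ : ℂ) = cvl (RingHom.id ℂ) χ (fT z K T) := fun χ hχ =>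
    toN_eq (cvl_nat _ (mem_lam.mp hχ).1 (fT_idem D))
  have inj : ∀ {x y : ℕ}, (x : ℂ) = (y : ℂ) → x = y := fun h => by exact_mod_cast h
  have g1 : ∑ χ ∈ Lam z, nF χ ^ 2 = 20160 := by
    apply inj
    push_cast
    rw [Finset.sum_congr rfl (g := fun χ => χ 1 * χ 1) (fun χ hχ => by rw [eN χ hχ, pow_two]), S11 D]
  have tt := tau_sum
  have tm := tau_mul
  have g00 : ∑ χ ∈ Lam z, m0 χ ^ 2 = 5 := by
    apply inj
    push_cast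
    rw [Finset.sum_congr rfl (fun χ hχ => by rw [e0 χ hχ, pow_two, MM0]), sum4 D]
    norm_num
  have g11 : ∑ χ ∈ Lam z, m1 χ ^ 2 = 4 := by
    apply inj
    push_cast
    rw [Finset.sum_congr rfl (fun χ hχ => by rw [e1 χ hχ, pow_two, MM1]), sum4 D]
    linear_combination (1 / 5 * ((xi ^ 4 + xi) + (xi ^ 3 + xi ^ 2) - 1)) * tt - (2 / 5) * tm
  have g22 : ∑ χ ∈ Lam z, m2 χ ^ 2 = 4 := by
    apply inj
    push_cast
    rw [Finset.sum_congr rfl (fun χ hχ => by rw [e2 χ hχ, pow_two, MM2]), sum4 D]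
    linear_combination (1 / 5 * ((xi ^ 4 + xi) + (xi ^ 3 + xi ^ 2) - 1)) * tt - (2 / 5) * tm
  have g01 : ∑ χ ∈ Lam z, m0 χ * m1 χ = 3 := by
    apply inj
    push_cast
    rw [Finset.sum_congr rfl (fun χ hχ => by rw [e0 χ hχ, e1 χ hχ, MM0, MM1]), sum4 D]
    linear_combination (2 / 5) * tt
  have g02 : ∑ χ ∈ Lam z, m0 χ * m2 χ = 3 := by
    apply inj
    push_cast
    rw [Finset.sum_congr rfl (fun χ hχ => by rw [e0 χ hχ, e2 χ hχ, MM0, MM2]), sum4 D]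
    linear_combination (2 / 5) * tt
  have g12 : ∑ χ ∈ Lam z, m1 χ * m2 χ = 3 := by
    apply inj
    push_cast
    rw [Finset.sum_congr rfl (fun χ hχ => by rw [e1 χ hχ, e2 χ hχ, MM1, MM2]), sum4 D]
    linear_combination (2 / 5) * tm
  have d0 : ∑ χ ∈ Lam z, m0 χ * nF χ = 252 := by
    apply inj
    push_cast
    rw [Finset.sum_congr rfl (fun χ hχ => by rw [e0 χ hχ, eN χ hχ, MM0]), sum1 D]
    norm_num
  have d1 : ∑ χ ∈ Lam z, m1 χ * nF χ = 252 := by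
    apply inj
    push_cast
    rw [Finset.sum_congr rfl (fun χ hχ => by rw [e1 χ hχ, eN χ hχ, MM1]), sum1 D]
    norm_num
  have d2 : ∑ χ ∈ Lam z, m2 χ * nF χ = 252 := by
    apply inj
    push_cast
    rw [Finset.sum_congr rfl (fun χ hχ => by rw [e2 χ hχ, eN χ hχ, MM2]), sum1 D]
    norm_num
  have k1 : ∑ χ ∈ Lam z, s χ * nF χ = 56 := by
    apply inj
    push_cast
    rw [Finset.sum_congr rfl (fun χ hχ => by rw [es χ hχ, eN χ hχ, mul_comm]), sum_fS D]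
  have k2 : ∑ χ ∈ Lam z, t χ * nF χ = 70 := by
    apply inj
    push_cast
    rw [Finset.sum_congr rfl (fun χ hχ => by rw [et χ hχ, eN χ hχ, mul_comm]), sum_fT D]
  have k3 : ∀ χ ∈ Lam z, s χ + t χ ≤ m0 χ := by
    intro χ hχ
    obtain ⟨m, hm⟩ := m0_sub D hχ
    have h2 : m0 χ = s χ + t χ + m := by
      apply inj
      push_cast
      rw [e0 χ hχ, es χ hχ, et χ hχ, hm]
    omega
  have hA : ∀ χ ∈ Lam z, (16 : ℂ) * (m0 χ + 2 * m1 χ + 2 * m2 χ : ℕ) = nF χ + 5 * χ v := by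
    intro χ hχ
    push_cast
    rw [e0 χ hχ, e1 χ hχ, e2 χ hχ, a_eq D, eN χ hχ]
    ring
  have k4 : ∀ χ ∈ Lam z, nF χ % 5 = (m0 χ + 2 * m1 χ + 2 * m2 χ) % 5 := by
    intro χ hχ
    obtain ⟨r, hr⟩ := int_v D hχ
    have h3 : 16 * (m0 χ + 2 * m1 χ + 2 * m2 χ) + 4 * nF χ = 10 * r := by
      apply inj
      have h4 := hA χ hχ
      rw [← eN χ hχ] at hr
      push_cast at h4 ⊢
      linear_combination h4 + 5 * hr
    omega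
  have k5 : ∀ χ ∈ Lam z, nF χ ∣ 1008 * (m0 χ + 2 * m1 χ + 2 * m2 χ) := by
    intro χ hχ
    have hi := (mem_lam.mp hχ).1
    have h3 := hi.omega_isIntegral v
    have hK : Nat.card {y : G // IsConj v y} = 315 := by
      have h4 := card_class_mul v
      rw [D.centv, D.card] at h4
      omega
    have hn0 : (nF χ : ℂ) ≠ 0 := by rw [eN χ hχ]; exact hi.one_ne
    have h5 : ((1008 * (m0 χ + 2 * m1 χ + 2 * m2 χ) : ℕ) : ℂ) / (nF χ : ℂ) =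
        omega χ v + 63 := by
      rw [omega, hK, ← eN χ hχ]
      rw [div_add' _ _ _ hn0]
      congr 1
      have h4 := hA χ hχ
      push_cast at h4 ⊢
      linear_combination 63 * h4
    have h6 : IsIntegral ℤ (((1008 * (m0 χ + 2 * m1 χ + 2 * m2 χ) : ℕ) : ℂ) / (nF χ : ℂ)) := by
      rw [h5]
      exact h3.add (by exact_mod_cast isIntegral_algebraMap (R := ℤ) (A := ℂ) (x := 63))
    have h7 : ((nF χ : ℕ) : ℤ) ∣ ((1008 * (m0 χ + 2 * m1 χ + 2 * m2 χ) : ℕ) : ℤ) := by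
      apply IC.int_of_integral_rat
      · intro h
        apply hn0
        have : nF χ = 0 := by exact_mod_cast h
        rw [this]
        simp
      · exact_mod_cast h6
    exact_mod_cast h7
  obtain ⟨a, b, c', d, e, f, hnd, hmem, ha, hb, hc, hd, he, hf, hrest⟩ :=
    Pool.Agent.Y37.BR.jobT5 (G → ℂ) (Lam z) nF m0 m1 m2 s t g1 g00 g11 g22 g01 g02 g12 d0 d1 d2
      k1 k2 k3 k4 k5
  have tr : ∀ χ ∈ Lam z, ∀ q0 q1 q2 q3 : ℕ, (nF χ = q0 ∧ m0 χ = q1 ∧ m1 χ = q2 ∧ m2 χ = q3) →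
      (χ 1 = q0 ∧ MM v c 1 χ = q1 ∧ MM v c xi χ = q2 ∧ MM v c (xi ^ 2) χ = q3) := by
    intro χ hχ q0 q1 q2 q3 h
    rw [← eN χ hχ, ← e0 χ hχ, ← e1 χ hχ, ← e2 χ hχ, h.1, h.2.1, h.2.2.1, h.2.2.2]
    exact ⟨rfl, rfl, rfl, rfl⟩
  refine ⟨a, b, c', d, e, f, hnd, hmem, ?_, ?_, ?_, ?_, ?_, ?_, ?_⟩
  · exact_mod_cast tr a (hmem a (by simp)) 28 1 1 0 ha
  · exact_mod_cast tr b (hmem b (by simp)) 28 1 0 1 hb
  · exact_mod_cast tr c' (hmem c' (by simp)) 64 0 1 1 hc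
  · exact_mod_cast tr d (hmem d (by simp)) 70 1 1 1 hd
  · exact_mod_cast tr e (hmem e (by simp)) 90 1 1 1 he
  · exact_mod_cast tr f (hmem f (by simp)) 36 1 0 0 hf
  · intro χ hχ hn
    obtain ⟨h0, h1', h2⟩ := hrest χ hχ hn
    rw [← e0 χ hχ, ← e1 χ hχ, ← e2 χ hχ, h0, h1', h2]
    simp

end

end Pool.Agent.Y60
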