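import Pool.Agent.Y60.Ab4

/-!
# The decomposition matrix of `2.L₃(4)` modulo `3` is not unitriangular
-/

open scoped BigOperators Classical MonoidAlgebra
open Pool.Agent.H254R3.IN Pool.Agent.Helper884

noncomputable section

namespace Pool.Agent.Y60

variable {G : Type} [Group G] [Fintype G] {z v c : G} {E K : Subgroup G} {T : G → ℤ}
  (D : GData G z v c E K T)

/-- `ξ^i` -/
def xw (i : Fin 3) : ℂ := xi ^ (i : ℕ)

lemma xw5 (i : Fin 3) : xw i ^ 5 = 1 := by
  rw [xw, ← pow_mul, mul_comm, pow_mul, xi5, one_pow]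

/-- the idempotents over `O` -/
def EE3 (O : ValuationSubring ℂ) (z c : G) (E : Subgroup G) (i : Fin 3) : MonoidAlgebra O G :=
  eI z c E (toO O ((2 : ℕ) : ℂ)⁻¹) (toO O ((16 : ℕ) : ℂ)⁻¹) (toO O ((5 : ℕ) : ℂ)⁻¹) (toO O (xw i))

section

variable {O : ValuationSubring ℂ}

instance fact3 : Fact (Nat.Prime 3) := ⟨by norm_num⟩

lemma inv_nat (hp : ((3 : ℕ) : ℂ) ∈ O.nonunits) {n : ℕ} (hn : ¬ 3 ∣ n) :
    (n : O) * toO O ((n : ℕ) : ℂ)⁻¹ = 1 := by
  apply Subtype.ext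
  push_cast
  rw [toO_coe (nat_inv_mem hp hn)]
  have h : (n : ℂ) ≠ 0 := by
    intro h
    apply hn
    have : n = 0 := by exact_mod_cast h
    rw [this]
    exact dvd_zero 3
  rw [mul_inv_cancel₀ h]

include D

lemma EE3_idem (hp : ((3 : ℕ) : ℂ) ∈ O.nonunits) (i : Fin 3) :
    EE3 O z c E i * EE3 O z c E i = EE3 O z c E i := by
  have h2 := inv_nat hp (n := 2) (by norm_num)
  have h16 := inv_nat hp (n := 16) (by norm_num)
  have h5 := inv_nat hp (n := 5) (by norm_num)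
  push_cast at h2 h16 h5
  exact eI_idem D.zc D.zz (by exact_mod_cast h2) D.cardE (by exact_mod_cast h16) D.cE D.c5
    (toO_pow (by norm_num) (xw5 i)) (by rw [mul_comm]; exact_mod_cast h5)

lemma cv_lam (hp : ((3 : ℕ) : ℂ) ∈ O.nonunits) (i : Fin 3) {χ : G → ℂ} (hχ : χ ∈ Lam z) :
    cv O χ (EE3 O z c E i) = MM v c (xw i) χ := by
  have h2 := inv_nat hp (n := 2) (by norm_num)
  have h16 := inv_nat hp (n := 16) (by norm_num)
  have h5 := inv_nat hp (n := 5) (by norm_num)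
  push_cast at h2 h16 h5
  have h := cvl_eI_lam D O.subtype (u2 := toO O ((2 : ℕ) : ℂ)⁻¹) (u16 := toO O ((16 : ℕ) : ℂ)⁻¹)
    (u5 := toO O ((5 : ℕ) : ℂ)⁻¹) (ζ := toO O (xw i)) (by exact_mod_cast h2)
    (by exact_mod_cast h16) (by rw [mul_comm]; exact_mod_cast h5)
    (toO_pow (by norm_num) (xw5 i)) hχ
  have h3 : O.subtype (toO O (xw i)) = xw i := toO_coe (root_mem (by norm_num) (xw5 i))
  rw [h3] at h
  exact h

lemma cv_nlam (i : Fin 3) {χ : G → ℂ} (hi : IsIrr χ) (hχ : χ ∉ Lam z) :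
    cv O χ (EE3 O z c E i) = 0 :=
  cvl_eI_nlam D O.subtype _ _ _ _ hi hχ

/-- the value at `v` -/
lemma val_v {χ : G → ℂ} (x : ℂ) (h : MM v c 1 χ + 2 * MM v c xi χ + 2 * MM v c (xi ^ 2) χ = x) :
    χ v = (16 * x - χ 1) / 5 := by
  have h1 := a_eq D χ
  rw [h] at h1
  linear_combination (-16 / 5) * h1

lemma card_v : Nat.card {y : G // IsConj v y} = 315 := by
  have h4 := card_class_mul v
  rw [D.centv, D.card] at h4
  omega

theorem main_contra (hp : ((3 : ℕ) : ℂ) ∈ O.nonunits) :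
    ∃ B : Set (G → ℂ), IsBlock O B ∧
      ∀ dd : (G → ℂ) → (G → ℂ) → ℕ, IsDecomp 3 O dd → ¬ Unitriangular 3 O dd B := by
  obtain ⟨a, b, c', d, e, f, hnd, hmem, ha, hb, hc, hd, he, hf, hrest⟩ := classify D
  have hma := hmem a (by simp)
  have hmb := hmem b (by simp)
  have hmc := hmem c' (by simp)
  have hmd := hmem d (by simp)
  have hme := hmem e (by simp)
  have hmf := hmem f (by simp)
  have hia := (mem_lam.mp hma).1
  refine ⟨{χ | IsIrr χ ∧ ∀ x : G, omega χ x - omega a x ∈ O.nonunits}, ⟨a, hia, rfl⟩, ?_⟩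
  rintro dd hdd ⟨n, χs, φs, hχinj, hχB, hφinj, hrange, hdiag, htri⟩
  set B : Set (G → ℂ) := {χ | IsIrr χ ∧ ∀ x : G, omega χ x - omega a x ∈ O.nonunits} with hB
  have haB : a ∈ B := ⟨hia, fun x => by
    rw [sub_self]
    exact (red_eq_zero_iff O.zero_mem).mp red_zero⟩
  -- values at v
  have hoa : omega a v = 45 := by
    rw [omega, card_v D, val_v D (χ := a) 3 (by rw [ha.2.1, ha.2.2.1, ha.2.2.2]; norm_num), ha.1]
    norm_num
  have hoe : omega e v = -7 := by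
    rw [omega, card_v D, val_v D (χ := e) 5 (by rw [he.2.1, he.2.2.1, he.2.2.2]; norm_num), he.1]
    norm_num
  have hof : omega f v = -35 := by
    rw [omega, card_v D, val_v D (χ := f) 1 (by rw [hf.2.1, hf.2.2.1, hf.2.2.2]; norm_num), hf.1]
    norm_num
  have hnat : ∀ m : ℕ, ¬ 3 ∣ m → (-(m : ℂ)) ∉ O.nonunits := by
    intro m hm h
    have h1 := red_eq_zero h
    rw [red_neg (natCast_mem' m), neg_eq_zero] at h1
    exact hm ((red_nat_eq_zero_iff hp m).mp h1)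
  have heB : e ∉ B := by
    intro h
    have h1 := h.2 v
    rw [hoe, hoa] at h1
    apply hnat 52 (by norm_num)
    have h2 : (-((52 : ℕ) : ℂ)) = -7 - 45 := by norm_num
    rw [h2]
    exact h1
  have hfB : f ∉ B := by
    intro h
    have h1 := h.2 v
    rw [hof, hoa] at h1
    apply hnat 80 (by norm_num)
    have h2 : (-((80 : ℕ) : ℂ)) = -35 - 45 := by norm_num
    rw [h2]
    exact h1
  -- multiplicities
  obtain ⟨d0, hd0, hcv⟩ := exists_decomp (G := G) hp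
  set μ : Fin 3 → (G → ℂ) → ℕ := fun i φ => rI 3 O φ (EE3 O z c E i) with hμ
  have hM : ∀ i, ∀ χ : G → ℂ, IsIrr χ → cv O χ (EE3 O z c E i) =
      ((∑ φ ∈ IBrF (G := G) hp, dd χ φ * μ i φ : ℕ) : ℂ) := by
    intro i χ hχ
    rw [hcv χ hχ _ (EE3_idem D hp i)]
    push_cast
    refine Finset.sum_congr rfl fun φ hφ => ?_
    rw [decomp_unique hp hdd hd0 χ hχ φ ((mem_IBrF hp).mp hφ)]
  set Mn : Fin 3 → (G → ℂ) → ℕ := fun i χ => ∑ φ ∈ IBrF (G := G) hp, dd χ φ * μ i φ with hMn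
  have inj : ∀ {x y : ℕ}, (x : ℂ) = (y : ℂ) → x = y := fun h => by exact_mod_cast h
  have hlamM : ∀ i, ∀ χ ∈ Lam z, (Mn i χ : ℂ) = MM v c (xw i) χ := by
    intro i χ hχ
    rw [← cv_lam D hp i hχ, hM i χ (mem_lam.mp hχ).1]
  have hx0 : xw 0 = 1 := by rw [xw]; simp
  have hx1 : xw 1 = xi := by rw [xw]; simp
  have hx2 : xw 2 = xi ^ 2 := by rw [xw]; simp
  have hval : ∀ χ ∈ Lam z, ∀ q0 q1 q2 : ℕ, MM v c 1 χ = q0 → MM v c xi χ = q1 →
      MM v c (xi ^ 2) χ = q2 → Mn 0 χ = q0 ∧ Mn 1 χ = q1 ∧ Mn 2 χ = q2 := by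
    intro χ hχ q0 q1 q2 h0 h1 h2
    refine ⟨inj ?_, inj ?_, inj ?_⟩
    · rw [hlamM 0 χ hχ, hx0, h0]
    · rw [hlamM 1 χ hχ, hx1, h1]
    · rw [hlamM 2 χ hχ, hx2, h2]
  have va := hval a hma 1 1 0 (by rw [ha.2.1]; norm_num) (by rw [ha.2.2.1]; norm_num)
    (by rw [ha.2.2.2]; norm_num)
  have vb := hval b hmb 1 0 1 (by rw [hb.2.1]; norm_num) (by rw [hb.2.2.1]; norm_num)
    (by rw [hb.2.2.2]; norm_num)
  have vc := hval c' hmc 0 1 1 (by rw [hc.2.1]; norm_num) (by rw [hc.2.2.1]; norm_num)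
    (by rw [hc.2.2.2]; norm_num)
  have vd := hval d hmd 1 1 1 (by rw [hd.2.1]; norm_num) (by rw [hd.2.2.1]; norm_num)
    (by rw [hd.2.2.2]; norm_num)
  have ve := hval e hme 1 1 1 (by rw [he.2.1]; norm_num) (by rw [he.2.2.1]; norm_num)
    (by rw [he.2.2.2]; norm_num)
  have vf := hval f hmf 1 0 0 (by rw [hf.2.1]; norm_num) (by rw [hf.2.2.1]; norm_num)
    (by rw [hf.2.2.2]; norm_num)
  have vrest : ∀ χ : G → ℂ, IsIrr χ → χ ∉ [a, b, c', d, e, f] → ∀ i, Mn i χ = 0 := by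
    intro χ hχ hn i
    apply inj
    by_cases h : χ ∈ Lam z
    · obtain ⟨h0, h1, h2⟩ := hrest χ h hn
      rw [hlamM i χ h]
      fin_cases i
      · change MM v c (xw 0) χ = _
        rw [hx0, h0]; norm_num
      · change MM v c (xw 1) χ = _
        rw [hx1, h1]; norm_num
      · change MM v c (xw 2) χ = _
        rw [hx2, h2]; norm_num
    · rw [← hM i χ hχ, cv_nlam D i hχ h]
      norm_num
  -- a column with nonzero multiplicity vector
  have hblk : ∀ χ ∈ B, ∀ φ ∈ IBrF (G := G) hp, dd χ φ ≠ 0 → ∃ j, φs j = φ := by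
    intro χ hχ φ hφ hne
    have h1 : φ ∈ blockIBr 3 O dd B := ⟨(mem_IBrF hp).mp hφ, χ, hχ, hne⟩
    rw [← hrange] at h1
    exact h1
  have hex : ∃ j : Fin n, ∃ i, μ i (φs j) ≠ 0 := by
    have h1 : Mn 0 a ≠ 0 := by rw [va.1]; norm_num
    obtain ⟨φ, hφ, hne⟩ := Finset.exists_ne_zero_of_sum_ne_zero h1
    obtain ⟨j, hj⟩ := hblk a haB φ hφ (left_ne_zero_of_mul hne)
    exact ⟨j, 0, by rw [hj]; exact right_ne_zero_of_mul hne⟩
  obtain ⟨j, ⟨i0, hi0⟩, hjmin⟩ := WellFounded.has_min (wellFounded_lt (α := Fin n))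
    {j : Fin n | ∃ i, μ i (φs j) ≠ 0} hex
  have hjmin' : ∀ l < j, ∀ i, μ i (φs l) = 0 := by
    intro l hl i
    by_contra h
    exact hjmin l ⟨i, h⟩ hl
  have hIBr : ∀ l, φs l ∈ IBrF (G := G) hp := by
    intro l
    have h1 : φs l ∈ blockIBr 3 O dd B := by rw [← hrange]; exact ⟨l, rfl⟩
    exact (mem_IBrF hp).mpr h1.1
  have hMj : ∀ i, Mn i (χs j) = μ i (φs j) := by
    intro i
    change ∑ φ ∈ IBrF (G := G) hp, dd (χs j) φ * μ i φ = μ i (φs j)
    rw [Finset.sum_eq_single (φs j)]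
    · rw [hdiag j, one_mul]
    · intro φ hφ hne
      by_cases h0 : dd (χs j) φ = 0
      · rw [h0, zero_mul]
      · obtain ⟨l, hl⟩ := hblk _ (hχB j) φ hφ h0
        have hlj : l ≠ j := fun h => hne (by rw [← hl, h])
        rcases lt_or_gt_of_ne hlj with h | h
        · rw [← hl, hjmin' l h i, mul_zero]
        · exact absurd (by rw [← hl]; exact htri j l h) h0
    · intro h
      exact absurd (hIBr j) h
  have hle : ∀ i, ∀ χ : G → ℂ, dd χ (φs j) * μ i (φs j) ≤ Mn i χ := by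
    intro i χ
    exact Finset.single_le_sum (f := fun φ => dd χ φ * μ i φ) (fun _ _ => Nat.zero_le _) (hIBr j)
  -- the column vanishes outside of the six characters
  have hzero : ∀ χ : G → ℂ, IsIrr χ → χ ∉ [a, b, c', d, e, f] → dd χ (φs j) = 0 := by
    intro χ hχ hn
    have h1 := hle i0 χ
    rw [vrest χ hχ hn i0] at h1
    rcases Nat.mul_eq_zero.mp (Nat.le_zero.mp h1) with h | h
    · exact h
    · exact absurd h hi0
  -- divisibility
  have hdvd : 3 ∣ Nat.card G := by rw [D.card]; norm_num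
  obtain ⟨m, hm⟩ := proj_deg hp hdvd hdd ((mem_IBrF hp).mp (hIBr j))
  have hsum : ∑ χ ∈ IC.Irr G, (dd χ (φs j) : ℂ) * χ 1 =
      ∑ χ ∈ [a, b, c', d, e, f].toFinset, (dd χ (φs j) : ℂ) * χ 1 := by
    symm
    apply Finset.sum_subset
    · intro χ hχ
      rw [List.mem_toFinset] at hχ
      exact irr_iff.mpr (mem_lam.mp (hmem χ hχ)).1
    · intro χ hχ hn
      rw [List.mem_toFinset] at hn
      rw [hzero χ (irr_iff.mp hχ) hn]
      simp
  rw [hsum, List.sum_toFinset _ hnd] at hm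
  simp only [List.map_cons, List.map_nil, List.sum_cons, List.sum_nil, ha.1, hb.1, hc.1, hd.1,
    he.1, hf.1] at hm
  have hm' : dd a (φs j) * 28 + (dd b (φs j) * 28 + (dd c' (φs j) * 64 + (dd d (φs j) * 70 +
      (dd e (φs j) * 90 + (dd f (φs j) * 36 + 0))))) = 3 * m := by
    apply inj
    push_cast
    push_cast at hm
    exact hm
  -- the row
  have hjB := hχB j
  have hjmem : χs j ∈ [a, b, c', d, e, f] := by
    by_contra h
    have h1 := vrest (χs j) hjB.1 h i0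
    rw [hMj i0] at h1
    exact hi0 h1
  have hdj := hdiag j
  have la := fun i => hle i a
  have lb := fun i => hle i b
  have lc := fun i => hle i c'
  have ld := fun i => hle i d
  simp only [List.mem_cons, List.not_mem_nil, or_false] at hjmem
  rcases hjmem with h | h | h | h | h | h
  · rw [h] at hMj hdj
    have m0 := (hMj 0).symm.trans va.1
    have m1 := (hMj 1).symm.trans va.2.1
    have b1 := lb 1
    have c0 := lc 0
    have dd0 := ld 0
    rw [m1, vb.2.1] at b1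
    rw [m0, vc.1] at c0
    rw [m0, vd.1] at dd0
    omega
  · rw [h] at hMj hdj
    have m0 := (hMj 0).symm.trans vb.1
    have m2 := (hMj 2).symm.trans vb.2.2
    have b1 := la 2
    have c0 := lc 0
    have dd0 := ld 0
    rw [m2, va.2.2] at b1
    rw [m0, vc.1] at c0
    rw [m0, vd.1] at dd0
    omega
  · rw [h] at hMj hdj
    have m1 := (hMj 1).symm.trans vc.2.1
    have m2 := (hMj 2).symm.trans vc.2.2
    have b1 := la 2
    have c0 := lb 1
    have dd0 := ld 1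
    rw [m2, va.2.2] at b1
    rw [m1, vb.2.1] at c0
    rw [m1, vd.2.1] at dd0
    omega
  · rw [h] at hMj hdj
    have m0 := (hMj 0).symm.trans vd.1
    have m1 := (hMj 1).symm.trans vd.2.1
    have m2 := (hMj 2).symm.trans vd.2.2
    have b1 := la 2
    have c0 := lb 1
    have dd0 := lc 0
    rw [m2, va.2.2] at b1
    rw [m1, vb.2.1] at c0
    rw [m0, vc.1] at dd0
    omega
  · rw [h] at hjB
    exact heB hjB
  · rw [h] at hjB
    exact hfB hjB

end

end Pool.Agent.Y60
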