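import Pool.Agent.Y60.B3a
import Pool.Agent.Y60.Ab2

/-!
# The inner product operator on the norm-one vectors
-/

open scoped BigOperators

noncomputable section

namespace Pool.Agent.Y60

/-- the integral form -/
def PP (x y : V6) : ℤ := (dot x y).toInt

/-- the signed diagonal -/
def dl (x y : V6) : ℤ := if x = y then 1 else if x = -y then -1 else 0

/-- the inner product operator without its diagonal -/
def Mf (x y : V6) : ℤ := PP x y - dl x y

lemma toInt_neg (a : F3) : (-a).toInt = - a.toInt := by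
  cases a <;> rfl

lemma PP_neg (x y : V6) : PP x (-y) = - PP x y := by
  rw [PP, dot_neg, toInt_neg, PP]

lemma neg_PP (x y : V6) : PP (-x) y = - PP x y := by
  rw [PP, neg_dot, toInt_neg, PP]

lemma F3_neg {a : F3} (h : a = -a) : a = 0 := by
  cases a
  · rfl
  · exact absurd h (by decide)
  · exact absurd h (by decide)

lemma ne_neg {y : V6} (hy : dot y y = 1) : y ≠ -y := by
  intro h
  have h1 : dot y y = - dot y y := by
    rw [← dot_neg, ← h]
  have h2 := F3_neg h1
  rw [hy] at h2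
  exact absurd h2 (by decide)

lemma dl_neg {x y : V6} (hy : dot y y = 1) : dl x (-y) = - dl x y := by
  have h := ne_neg hy
  unfold dl
  rw [neg_neg]
  by_cases h1 : x = y
  · subst h1
    rw [if_neg h, if_pos rfl, if_pos rfl]
  · by_cases h2 : x = -y
    · rw [if_pos h2, if_neg h1, if_pos h2]
      norm_num
    · rw [if_neg h2, if_neg h1, if_neg h1, if_neg h2]
      norm_num

lemma tgt_eq (y : V6) : tgt y = 162 * dl (bas 5) y := by
  unfold dl
  by_cases h1 : bas 5 = y
  · rw [if_pos h1, ← h1]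
    rfl
  · by_cases h2 : bas 5 = -y
    · rw [if_neg h1, if_pos h2]
      have h3 : y = - bas 5 := by rw [h2, neg_neg]
      rw [h3]
      rfl
    · rw [if_neg h1, if_neg h2]
      obtain ⟨y0, y1, y2, y3, y4, y5⟩ := y
      cases y0 <;> cases y1 <;> cases y2 <;> cases y3 <;> cases y4 <;> cases y5 <;>
        first | rfl | (exact absurd rfl h1) | (exact absurd rfl h2)

lemma sum_XX (f : V6 → ℤ) : ∑ x : XX, f x = ∑ x : V6, if dot x x = 1 then f x else 0 := by
  rw [← Finset.sum_filter]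
  exact (Finset.sum_subtype _ (fun x => by simp) f).symm

lemma term_o (y : V6) (x0 x1 x2 x3 x4 : F3) : term y x0 x1 x2 x3 x4 .o =
    if isO (dot (x0, x1, x2, x3, x4, F3.o) (x0, x1, x2, x3, x4, F3.o)) then
      (dot (x0, x1, x2, x3, x4, F3.o) y).toInt else 0 := rfl

lemma term_t (y : V6) (x0 x1 x2 x3 x4 : F3) : term y x0 x1 x2 x3 x4 .t =
    if isO (dot (x0, x1, x2, x3, x4, F3.t) (x0, x1, x2, x3, x4, F3.t)) then
      - (dot (x0, x1, x2, x3, x4, F3.t) y).toInt else 0 := rfl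

lemma PP_PP (y : V6) (hy : dot y y = 1) :
    ∑ x : XX, PP (bas 5) x * PP x y = 162 * dl (bas 5) y := by
  rw [← tgt_eq, ← tot_eq y hy, sum_XX (fun x => PP (bas 5) x * PP x y)]
  simp only [Fintype.sum_prod_type, sF_eq, tot]
  have h : ∀ x0 x1 x2 x3 x4 x5 : F3,
      (if dot (x0, x1, x2, x3, x4, x5) (x0, x1, x2, x3, x4, x5) = 1 then
        PP (bas 5) (x0, x1, x2, x3, x4, x5) * PP (x0, x1, x2, x3, x4, x5) y else 0) =
      term y x0 x1 x2 x3 x4 x5 := by
    intro x0 x1 x2 x3 x4 x5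
    have h5 : dot (bas 5) (x0, x1, x2, x3, x4, x5) = x5 := by
      cases x0 <;> cases x1 <;> cases x2 <;> cases x3 <;> cases x4 <;> cases x5 <;> rfl
    cases x5
    · rw [PP, h5]
      simp [term, F3.toInt]
    · rw [PP, h5, PP]
      by_cases h6 : dot (x0, x1, x2, x3, x4, F3.o) (x0, x1, x2, x3, x4, F3.o) = 1
      · rw [if_pos h6]
        rw [term_o]
        rw [if_pos ((isO_iff _).mpr h6)]
        exact one_mul _
      · rw [if_neg h6]
        rw [term_o]
        rw [if_neg (fun h => h6 ((isO_iff _).mp h))]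
    · rw [PP, h5, PP]
      by_cases h6 : dot (x0, x1, x2, x3, x4, F3.t) (x0, x1, x2, x3, x4, F3.t) = 1
      · rw [if_pos h6]
        rw [term_t]
        rw [if_pos ((isO_iff _).mpr h6)]
        exact neg_one_mul _
      · rw [if_neg h6]
        rw [term_t]
        rw [if_neg (fun h => h6 ((isO_iff _).mp h))]
  simp only [h]

/-- a norm-one vector as an element of `XX` -/
def toX (y : V6) (hy : dot y y = 1) : XX := ⟨y, hy⟩

lemma sum_dl_right (f : V6 → ℤ) (hf : ∀ x, f (-x) = - f x) (y : V6) (hy : dot y y = 1) :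
    ∑ x : XX, f x * dl x y = 2 * f y := by
  classical
  have hy' : dot (-y) (-y) = 1 := by rw [dot_neg, neg_dot, neg_neg, hy]
  have hne : (⟨y, hy⟩ : XX) ≠ ⟨-y, hy'⟩ := by
    intro h
    exact ne_neg hy (congrArg Subtype.val h)
  rw [← Finset.sum_subset (Finset.subset_univ ({(⟨y, hy⟩ : XX), (⟨-y, hy'⟩ : XX)} : Finset XX)),
    Finset.sum_pair hne]
  · have h5 : dl y y = 1 := if_pos rfl
    have h6 : dl (-y) y = -1 := by
      rw [dl, if_neg (Ne.symm (ne_neg hy)), if_pos rfl]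
    change f y * dl y y + f (-y) * dl (-y) y = _
    rw [h5, h6, hf]
    ring
  · intro x _ hx
    rw [Finset.mem_insert, Finset.mem_singleton, not_or] at hx
    rw [dl, if_neg (fun h => hx.1 (Subtype.ext h)), if_neg (fun h => hx.2 (Subtype.ext h)),
      mul_zero]

lemma dl_comm (x y : V6) : dl x y = dl y x := by
  unfold dl
  by_cases h1 : x = y
  · rw [if_pos h1, if_pos h1.symm]
  · rw [if_neg h1, if_neg (Ne.symm h1)]
    by_cases h2 : x = -y
    · have h3 : y = -x := by rw [h2, neg_neg]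
      rw [if_pos h2, if_pos h3]
    · have h3 : ¬ y = -x := fun h => h2 (by rw [h, neg_neg])
      rw [if_neg h2, if_neg h3]

lemma PP_comm (x y : V6) : PP x y = PP y x := by
  rw [PP, dot_comm, PP]

lemma neg_dl {x y : V6} (hx : dot x x = 1) : dl (-x) y = - dl x y := by
  rw [dl_comm, dl_neg hx, dl_comm]

lemma b5n : dot (bas 5) (bas 5) = 1 := by decide

lemma Mf_Mf (y : V6) (hy : dot y y = 1) :
    ∑ x : XX, Mf (bas 5) x * Mf x y = 160 * dl (bas 5) y - 4 * Mf (bas 5) y := by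
  classical
  have h1 := PP_PP y hy
  have h2 : ∑ x : XX, PP (bas 5) x * dl x y = 2 * PP (bas 5) y :=
    sum_dl_right (fun x => PP (bas 5) x) (fun x => PP_neg _ _) y hy
  have h3 : ∑ x : XX, dl (bas 5) x * PP x y = 2 * PP (bas 5) y := by
    have h := sum_dl_right (fun x => PP x y) (fun x => neg_PP _ _) (bas 5) b5n
    rw [← h]
    refine Finset.sum_congr rfl fun x _ => ?_
    rw [dl_comm (bas 5) x, mul_comm]
  have h4 : ∑ x : XX, dl (bas 5) x * dl x y = 2 * dl (bas 5) y := by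
    have h : ∑ x : XX, dl x y * dl x (bas 5) = ∑ x : XX, dl (bas 5) x * dl x y := by
      refine Finset.sum_congr rfl fun x _ => ?_
      rw [dl_comm (bas 5) x, mul_comm]
    rw [← h]
    have hb : dot (-bas 5) (-bas 5) = 1 := by decide
    have hne : (⟨bas 5, b5n⟩ : XX) ≠ ⟨-bas 5, hb⟩ := by
      intro h
      exact ne_neg b5n (congrArg Subtype.val h)
    rw [← Finset.sum_subset (Finset.subset_univ
      ({(⟨bas 5, b5n⟩ : XX), (⟨-bas 5, hb⟩ : XX)} : Finset XX)), Finset.sum_pair hne]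
    · have h5 : dl (bas 5) (bas 5) = 1 := if_pos rfl
      change dl (bas 5) y * dl (bas 5) (bas 5) + dl (-bas 5) y * dl (-bas 5) (bas 5) = _
      rw [neg_dl b5n, neg_dl b5n, h5]
      ring
    · intro x _ hx
      rw [Finset.mem_insert, Finset.mem_singleton, not_or] at hx
      have : dl x (bas 5) = 0 := by
        rw [dl, if_neg (fun h => hx.1 (Subtype.ext h)), if_neg (fun h => hx.2 (Subtype.ext h))]
      rw [this, mul_zero]
  have h5 : ∀ x : XX, Mf (bas 5) x * Mf x y = PP (bas 5) x * PP x y - PP (bas 5) x * dl x y -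
      dl (bas 5) x * PP x y + dl (bas 5) x * dl x y := by
    intro x
    rw [Mf, Mf]
    ring
  simp only [h5, Finset.sum_add_distrib, Finset.sum_sub_distrib, h1, h2, h3, h4]
  rw [Mf]
  ring

/-- the function `T` on the group -/
def TT (g : GG) : ℤ := Mf (bas 5) (g.1 (bas 5))

lemma Mf_inv (g : GG) (x y : V6) : Mf (g.1 x) (g.1 y) = Mf x y := by
  unfold Mf PP dl
  rw [GG_dot, ← GG_neg]
  simp only [EmbeddingLike.apply_eq_iff_eq]

lemma mem_KK {k : GG} : k ∈ KK ↔ k.1 (bas 5) = bas 5 := by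
  rw [KK, MulAction.mem_stabilizer_iff]
  constructor
  · intro h
    exact congrArg Subtype.val h
  · intro h
    exact Subtype.ext h

lemma TT_l {k : GG} (hk : k ∈ KK) (g : GG) : TT (k * g) = TT g := by
  have h : (k * g).1 (bas 5) = k.1 (g.1 (bas 5)) := rfl
  have h2 := Mf_inv k (bas 5) (g.1 (bas 5))
  rw [mem_KK.mp hk] at h2
  rw [TT, h, h2, TT]

lemma TT_r {k : GG} (hk : k ∈ KK) (g : GG) : TT (g * k) = TT g := by
  have h : (g * k).1 (bas 5) = g.1 (k.1 (bas 5)) := rfl
  rw [TT, h, mem_KK.mp hk, TT]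

set_option maxRecDepth 10000 in
lemma app4_bas : ∀ i : Fin 6, app (mat 4) (bas i) = -bas i := by
  decide +kernel

lemma zz_apply (x : V6) : zz.1 x = -x :=
  hom_ext' (appHom (mat 4)) (negAddMonoidHom) (fun i => app4_bas i) x

lemma TT_z (g : GG) : TT (zz * g) = - TT g := by
  have h : (zz * g).1 (bas 5) = zz.1 (g.1 (bas 5)) := rfl
  have h1 : dot (g.1 (bas 5)) (g.1 (bas 5)) = 1 := by rw [GG_dot]; exact b5n
  rw [TT, h, zz_apply, Mf, PP_neg, dl_neg h1, TT, Mf]
  ring

lemma TT_one : TT 1 = 0 := by decide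

lemma Jf_eq (g : GG) : Jf zz KK g = dl (bas 5) (g.1 (bas 5)) := by
  unfold Jf dl
  have h : (zz * g).1 (bas 5) = - g.1 (bas 5) := zz_apply _
  rw [mem_KK, mem_KK, h]
  by_cases h1 : g.1 (bas 5) = bas 5
  · rw [if_pos h1, if_pos h1.symm]
  · rw [if_neg h1, if_neg (Ne.symm h1)]
    by_cases h2 : - g.1 (bas 5) = bas 5
    · rw [if_pos h2, if_pos h2.symm]
    · rw [if_neg h2, if_neg (Ne.symm h2)]

lemma sum_orbit (ht : MulAction.IsPretransitive GG XX) (hk : Nat.card KK = 160) (F : V6 → ℤ) :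
    ∑ h : GG, F (h.1 (bas 5)) = 160 * ∑ x : XX, F x := by
  classical
  have h1 : ∑ h : GG, F (h.1 (bas 5)) =
      ∑ x : XX, ∑ h ∈ Finset.univ.filter (fun h : GG => h • b5 = x), F (h.1 (bas 5)) := by
    exact (Finset.sum_fiberwise Finset.univ (fun h : GG => h • b5)
      (fun h : GG => F (h.1 (bas 5)))).symm
  rw [h1, Finset.mul_sum]
  refine Finset.sum_congr rfl fun x _ => ?_
  have h2 : ∀ h ∈ Finset.univ.filter (fun h : GG => h • b5 = x), F (h.1 (bas 5)) = F x := by
    intro h hh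
    rw [Finset.mem_filter] at hh
    rw [← hh.2]
    rfl
  rw [Finset.sum_congr rfl h2, Finset.sum_const, nsmul_eq_mul]
  congr 1
  obtain ⟨h0, hh0⟩ := ht.exists_smul_eq b5 x
  have h3 : (Finset.univ.filter (fun h : GG => h • b5 = x)).card = Nat.card KK := by
    rw [← Fintype.card_subtype, ← Nat.card_eq_fintype_card]
    refine (Nat.card_congr ?_).symm
    refine ⟨fun k => ⟨h0 * k.1, ?_⟩, fun h => ⟨h0⁻¹ * h.1, ?_⟩, ?_, ?_⟩
    · have h5 : k.1 • b5 = b5 := k.2
      rw [mul_smul, h5, hh0]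
    · change (h0⁻¹ * h.1) • b5 = b5
      rw [mul_smul, h.2, ← hh0, inv_smul_smul]
    · intro k
      apply Subtype.ext
      exact inv_mul_cancel_left _ _
    · intro h
      apply Subtype.ext
      exact mul_inv_cancel_left _ _
  rw [h3, hk]
  norm_num

/-- the convolution -/
lemma TT_conv (ht : MulAction.IsPretransitive GG XX) (hk : Nat.card KK = 160) (g : GG) :
    ∑ h : GG, TT h * TT (h⁻¹ * g) = 160 * (160 * Jf zz KK g - 4 * TT g) := by
  have h1 : dot (g.1 (bas 5)) (g.1 (bas 5)) = 1 := by rw [GG_dot]; exact b5n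
  have h : ∀ h : GG, TT h * TT (h⁻¹ * g) =
      Mf (bas 5) (h.1 (bas 5)) * Mf (h.1 (bas 5)) (g.1 (bas 5)) := by
    intro h
    have h3 := Mf_inv h (bas 5) ((h⁻¹ * g).1 (bas 5))
    have h4 : h.1 ((h⁻¹ * g).1 (bas 5)) = g.1 (bas 5) := by
      change (h * (h⁻¹ * g)).1 (bas 5) = _
      rw [mul_inv_cancel_left]
    rw [h4] at h3
    rw [TT, TT, h3]
  simp only [h]
  rw [sum_orbit ht hk (fun x => Mf (bas 5) x * Mf x (g.1 (bas 5))), Mf_Mf _ h1, Jf_eq, TT]

end Pool.Agent.Y60
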