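import Pool.Agent.Y60.Stm

/-!
# The inner product operator on the norm-one vectors: kernel check
-/

open scoped BigOperators

noncomputable section

namespace Pool.Agent.Y60

/-- addition on `F3` -/
def fa : F3 → F3 → F3 := F3.add'
/-- multiplication on `F3` -/
def fm : F3 → F3 → F3 := F3.mul'

/-- the form, for kernel computations -/
def dotF (x y : V6) : F3 :=
  match x, y with
  | (x0, x1, x2, x3, x4, x5), (y0, y1, y2, y3, y4, y5) =>
    F3.add' (F3.mul' x0 y0) (F3.add' (F3.mul' x1 y1) (F3.add' (F3.mul' x2 y2)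
      (F3.add' (F3.mul' x3 y3) (F3.add' (F3.mul' x4 y4) (F3.mul' x5 y5)))))

lemma dotF_eq (x y : V6) : dotF x y = dot x y := rfl

/-- is it one? -/
def isO : F3 → Bool
  | .o => true
  | _ => false

lemma isO_iff (a : F3) : isO a = true ↔ a = 1 := by
  cases a <;> decide

/-- sum over `F3` -/
def sF (g : F3 → ℤ) : ℤ := g .z + g .o + g .t

lemma sF_eq (g : F3 → ℤ) : ∑ a : F3, g a = sF g := by
  have h : (Finset.univ : Finset F3) = {F3.z, F3.o, F3.t} := by decide
  rw [h, Finset.sum_insert (by decide), Finset.sum_insert (by decide), Finset.sum_singleton, sF,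
    add_assoc]

/-- conjunction over `F3` -/
def aF (g : F3 → Bool) : Bool := g .z && g .o && g .t

lemma aF_eq {g : F3 → Bool} (h : aF g = true) (a : F3) : g a = true := by
  unfold aF at h
  simp only [Bool.and_eq_true] at h
  cases a
  · exact h.1.1
  · exact h.1.2
  · exact h.2

/-- the summand -/
def term (y : V6) (x0 x1 x2 x3 x4 : F3) : F3 → ℤ
  | .z => 0
  | .o => if isO (dotF (x0, x1, x2, x3, x4, .o) (x0, x1, x2, x3, x4, .o)) then
      (dotF (x0, x1, x2, x3, x4, .o) y).toInt else 0
  | .t => if isO (dotF (x0, x1, x2, x3, x4, .t) (x0, x1, x2, x3, x4, .t)) then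
      - (dotF (x0, x1, x2, x3, x4, .t) y).toInt else 0

/-- the sum -/
def tot (y : V6) : ℤ :=
  sF fun x0 => sF fun x1 => sF fun x2 => sF fun x3 => sF fun x4 => sF fun x5 =>
    term y x0 x1 x2 x3 x4 x5

/-- the value -/
def tgt : V6 → ℤ
  | (.z, .z, .z, .z, .z, .o) => 162
  | (.z, .z, .z, .z, .z, .t) => -162
  | _ => 0

/-- the check with given first coordinate -/
def chk (y0 : F3) : Bool :=
  aF fun y1 => aF fun y2 => aF fun y3 => aF fun y4 => aF fun y5 =>
    !(isO (dotF (y0, y1, y2, y3, y4, y5) (y0, y1, y2, y3, y4, y5))) ||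
      decide (tot (y0, y1, y2, y3, y4, y5) = tgt (y0, y1, y2, y3, y4, y5))

set_option maxRecDepth 100000 in
lemma chk_z : chk .z = true := by decide +kernel

set_option maxRecDepth 100000 in
lemma chk_o : chk .o = true := by decide +kernel

set_option maxRecDepth 100000 in
lemma chk_t : chk .t = true := by decide +kernel

lemma chk_all (y0 : F3) : chk y0 = true := by
  cases y0
  · exact chk_z
  · exact chk_o
  · exact chk_t

lemma tot_eq (y : V6) (hy : dot y y = 1) : tot y = tgt y := by
  obtain ⟨y0, y1, y2, y3, y4, y5⟩ := y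
  have h := aF_eq (aF_eq (aF_eq (aF_eq (aF_eq (chk_all y0) y1) y2) y3) y4) y5
  rw [dotF_eq, (isO_iff _).mpr hy] at h
  simpa using h


end Pool.Agent.Y60
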