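import Pool.Agent.H254R3.IN.Idem

/-!
# Brauer characters, decomposition numbers, unitriangularity

`p` is a prime, `O` a valuation subring of `ℂ` with `p` in its maximal ideal, `RF O` its residue
field, `red O` the reduction map (extended by zero outside `O`).
-/

open scoped BigOperators Classical
open Pool.Agent.H254R3.IN

noncomputable section

namespace Pool.Agent.Y60

variable {G : Type} [Group G]

/-- The Brauer character of a representation `ρ` over the residue field of `O`: at a `p`-regular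
element `g` it is `∑ ζ`, the sum over the complex roots of unity `ζ` of order dividing that of `g`,
each counted as often as its reduction is an eigenvalue of `ρ g`; it is extended by zero to the
`p`-singular elements. -/
def brauerChar (p : ℕ) (O : ValuationSubring ℂ) {V : Type} [AddCommGroup V] [Module (RF O) V]
    (ρ : Representation (RF O) G V) (g : G) : ℂ :=
  if p ∣ orderOf g then 0 else
    ∑ ζ ∈ Polynomial.nthRootsFinset (orderOf g) (1 : ℂ),
      (Module.finrank (RF O) (Module.End.eigenspace (ρ g) (red O ζ)) : ℂ) * ζ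

/-- `φ` is an irreducible Brauer character. -/
def IsIBr (p : ℕ) (O : ValuationSubring ℂ) (φ : G → ℂ) : Prop :=
  ∃ (V : Type) (_ : AddCommGroup V) (_ : Module (RF O) V) (_ : FiniteDimensional (RF O) V)
    (ρ : Representation (RF O) G V), ρ.IsIrreducible ∧ φ = brauerChar p O ρ

/-- The restriction of `χ` to the `p`-regular elements, extended by zero. -/
def regPart (p : ℕ) (χ : G → ℂ) (g : G) : ℂ := if p ∣ orderOf g then 0 else χ g

/-- `d` is the function of decomposition numbers: `χ⁰ = ∑ d_{χφ} φ` for all `χ ∈ Irr(G)`. -/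
def IsDecomp (p : ℕ) (O : ValuationSubring ℂ) (d : (G → ℂ) → (G → ℂ) → ℕ) : Prop :=
  ∀ χ : G → ℂ, IsIrr χ → regPart p χ = ∑ᶠ φ ∈ {φ : G → ℂ | IsIBr p O φ}, (d χ φ : ℂ) • φ

/-- `IBr(B)`. -/
def blockIBr (p : ℕ) (O : ValuationSubring ℂ) (d : (G → ℂ) → (G → ℂ) → ℕ) (B : Set (G → ℂ)) :
    Set (G → ℂ) := {φ | IsIBr p O φ ∧ ∃ χ ∈ B, d χ φ ≠ 0}

/-- The decomposition matrix of `B` is unitriangular. -/
def Unitriangular (p : ℕ) (O : ValuationSubring ℂ) (d : (G → ℂ) → (G → ℂ) → ℕ)
    (B : Set (G → ℂ)) : Prop :=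
  ∃ (n : ℕ) (χ φ : Fin n → (G → ℂ)), Function.Injective χ ∧ (∀ i, χ i ∈ B) ∧
    Function.Injective φ ∧ Set.range φ = blockIBr p O d B ∧
    (∀ i, d (χ i) (φ i) = 1) ∧ ∀ i j, i < j → d (χ i) (φ j) = 0

end Pool.Agent.Y60
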