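import Pool.Agent.Y60.Ab5
import Pool.Agent.Y60.B3
import Pool.Agent.Y903.LT34.Main
import Pool.Agent.Y815.B2.Main

/-!
# The data of the group `2.L₃(4)`
-/

noncomputable section

namespace Pool.Agent.Y60

theorem gdata : GData GG zz vv cc EE KK TT := by
  obtain ⟨_, _, hcard⟩ := Pool.Agent.Y903.LT34.job
  obtain ⟨ht, hK, h1, h2, h3, h4, h5, h6, _, h8, h9, h10, h11, h12, h13, h14, h15, h16, h17,
    h18⟩ := Pool.Agent.Y815.B2.job hcard
  exact
    { card := hcard
      zc := h1
      zz := h2
      zne := h3
      zK := h4
      vv := h5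
      c5 := h6
      cK := h8
      EK := h9
      cardE := h10
      cardK := hK
      cE := h11
      ec := h12
      sumE := h13
      ccinv := h14
      vzv := h15
      cc2 := h16
      centv := h17
      centc := h18
      Tl := fun k hk g => TT_l hk g
      Tr := fun k hk g => TT_r hk g
      Tz := TT_z
      T1 := TT_one
      Tconv := TT_conv ht hK }

end Pool.Agent.Y60
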