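import Mathlib

/-!
# The group `2.L₃(4)` as a group of additive automorphisms of `F_3^6`

`V6` is the space `F_3^6` with the form `dot`; its `252` vectors of norm one fall into `21` frames
(sets of twelve vectors `± v`), and the frame of a norm-one vector `x` is recorded by `idx x < 21`
(`31` for all other vectors).  The frames are labelled by the points `pt i` of the projective plane
over the field `F4` with four elements.
-/

namespace Pool.Agent.Y60

/-- the field with four elements `0, 1, w, v = w + 1` -/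
inductive F4 | z | o | w | v
  deriving DecidableEq

namespace F4

def add' : F4 → F4 → F4
  | z, x => x
  | x, z => x
  | o, o => z
  | o, w => v
  | o, v => w
  | w, o => v
  | w, w => z
  | w, v => o
  | v, o => w
  | v, w => o
  | v, v => z

def mul' : F4 → F4 → F4
  | z, _ => z
  | _, z => z
  | o, x => x
  | x, o => x
  | w, w => v
  | w, v => o
  | v, w => o
  | v, v => w

def inv' : F4 → F4
  | z => z
  | o => o
  | w => v
  | v => w

instance : Zero F4 := ⟨z⟩
instance : One F4 := ⟨o⟩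
instance : Add F4 := ⟨add'⟩
instance : Mul F4 := ⟨mul'⟩
instance : Neg F4 := ⟨id⟩
instance : Inv F4 := ⟨inv'⟩
instance : Fintype F4 := ⟨⟨[z, o, w, v], by decide⟩, fun x => by cases x <;> decide⟩

instance : CommRing F4 where
  add_assoc := by decide
  zero_add := by decide
  add_zero := by decide
  add_comm := by decide
  mul_assoc := by decide
  one_mul := by decide
  mul_one := by decide
  left_distrib := by decide
  right_distrib := by decide
  zero_mul := by decide
  mul_zero := by decide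
  mul_comm := by decide
  neg_add_cancel := by decide
  nsmul := nsmulRec
  zsmul := zsmulRec

instance : Field F4 where
  exists_pair_ne := ⟨z, o, by decide⟩
  mul_inv_cancel := by decide
  inv_zero := by decide
  nnqsmul := _
  nnqsmul_def := fun _ _ => rfl
  qsmul := _
  qsmul_def := fun _ _ => rfl

lemma card : Fintype.card F4 = 4 := by decide

end F4

/-- the field with three elements `0, 1, t = -1` -/
inductive F3 | z | o | t
  deriving DecidableEq

namespace F3

def add' : F3 → F3 → F3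
  | z, x => x
  | o, z => o
  | o, o => t
  | o, t => z
  | t, z => t
  | t, o => z
  | t, t => o

def mul' : F3 → F3 → F3
  | z, _ => z
  | o, x => x
  | t, z => z
  | t, o => t
  | t, t => o

def neg' : F3 → F3
  | z => z
  | o => t
  | t => o

instance : Zero F3 := ⟨z⟩
instance : One F3 := ⟨o⟩
instance : Add F3 := ⟨add'⟩
instance : Mul F3 := ⟨mul'⟩
instance : Neg F3 := ⟨neg'⟩
instance : Fintype F3 := ⟨⟨[z, o, t], by decide⟩, fun x => by cases x <;> decide⟩

instance : CommRing F3 where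
  add_assoc := by decide
  zero_add := by decide
  add_zero := by decide
  add_comm := by decide
  mul_assoc := by decide
  one_mul := by decide
  mul_one := by decide
  left_distrib := by decide
  right_distrib := by decide
  zero_mul := by decide
  mul_zero := by decide
  mul_comm := by decide
  neg_add_cancel := by decide
  nsmul := nsmulRec
  zsmul := zsmulRec

/-- the representative in `{0, 1, 2}` -/
def val : F3 → ℕ
  | z => 0
  | o => 1
  | t => 2

/-- the representative in `{0, 1, -1}` -/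
def toInt : F3 → ℤ
  | z => 0
  | o => 1
  | t => -1

end F3

/-- the space `F_3^6` -/
abbrev V6 := F3 × F3 × F3 × F3 × F3 × F3

/-- the form -/
def dot (x y : V6) : F3 :=
  (x.1 * y.1) + ((x.2.1 * y.2.1) + ((x.2.2.1 * y.2.2.1) + ((x.2.2.2.1 * y.2.2.2.1) +
    ((x.2.2.2.2.1 * y.2.2.2.2.1) + (x.2.2.2.2.2 * y.2.2.2.2.2)))))

/-- `6 x 6` matrices given by their rows -/
abbrev M6 := V6 × V6 × V6 × V6 × V6 × V6

/-- matrix times vector -/
def app (M : M6) (x : V6) : V6 :=
  (dot M.1 x, dot M.2.1 x, dot M.2.2.1 x, dot M.2.2.2.1 x, dot M.2.2.2.2.1 x, dot M.2.2.2.2.2 x)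

/-- transposed matrix -/
def trM (M : M6) : M6 :=
  ((M.1.1, M.2.1.1, M.2.2.1.1, M.2.2.2.1.1, M.2.2.2.2.1.1, M.2.2.2.2.2.1),
   (M.1.2.1, M.2.1.2.1, M.2.2.1.2.1, M.2.2.2.1.2.1, M.2.2.2.2.1.2.1, M.2.2.2.2.2.2.1),
   (M.1.2.2.1, M.2.1.2.2.1, M.2.2.1.2.2.1, M.2.2.2.1.2.2.1, M.2.2.2.2.1.2.2.1,
      M.2.2.2.2.2.2.2.1),
   (M.1.2.2.2.1, M.2.1.2.2.2.1, M.2.2.1.2.2.2.1, M.2.2.2.1.2.2.2.1, M.2.2.2.2.1.2.2.2.1,
      M.2.2.2.2.2.2.2.2.1),
   (M.1.2.2.2.2.1, M.2.1.2.2.2.2.1, M.2.2.1.2.2.2.2.1, M.2.2.2.1.2.2.2.2.1,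
      M.2.2.2.2.1.2.2.2.2.1, M.2.2.2.2.2.2.2.2.2.1),
   (M.1.2.2.2.2.2, M.2.1.2.2.2.2.2, M.2.2.1.2.2.2.2.2, M.2.2.2.1.2.2.2.2.2,
      M.2.2.2.2.1.2.2.2.2.2, M.2.2.2.2.2.2.2.2.2.2))

/-- the number with ternary digits `x` -/
def code (x : V6) : ℕ :=
  x.1.val + 3 * x.2.1.val + 9 * x.2.2.1.val + 27 * x.2.2.2.1.val + 81 * x.2.2.2.2.1.val +
    243 * x.2.2.2.2.2.val

/-- table of the frame numbers -/
def LAB : ℕ := 17961152290427270507392348056994102119532853951661383820848945260305496636265971369465776674878880575364632775034631613396359622238027039294468134989030915887751463013566914566215065860338222893595677763458246657133388865932978786687306801798975595888918232135349409430371459954001824402062238950875176684075711957018924766675374513366575132637323525169484784111998033162267352255878051497787391179560334641829919303951309066213122256239343175165543393493937174785115346984081419003802814558008844150087042649146577044489309678930043652365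0139322723561665898377522517914809477073854545402315775647404094714595654543360087234125259054073201347472214152246577557628735338901129082900662940011882759642925575068267189046501793594090249372959741230386967556370152564226476801693271231233755167693956194682463153571288083380291969169342907639125068370068711157223082116596958123076388270147219095237123204628990171164479279774311444200984063634849056887517806522966763152292992220246114748316211895634683386393846880663061653589125646407845620680280438138024488157072007132560553586482637423364329701407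

/-- the number of the frame containing the norm-one vector `x` -/
def idx (x : V6) : ℕ := (LAB >>> (5 * code x)) % 32

/-- the generating matrices -/
def mat : Fin 9 → M6
  | 0 => ((.t, 0, 0, 0, 0, 0), (0, .t, 0, 0, 0, 0), (0, 0, 1, 0, 0, 0), (0, 0, 0, 1, 0, 0), (0, 0, 0, 0, 1, 0), (0, 0, 0, 0, 0, 1))
  | 1 => ((0, 0, 0, 0, 1, 0), (1, 0, 0, 0, 0, 0), (0, 1, 0, 0, 0, 0), (0, 0, 1, 0, 0, 0), (0, 0, 0, 1, 0, 0), (0, 0, 0, 0, 0, 1))
  | 2 => ((0, 0, 0, 0, 0, 1), (0, 0, 0, 0, 1, 0), (0, 0, 1, 0, 0, 0), (0, 0, 0, 1, 0, 0), (0, 1, 0, 0, 0, 0), (1, 0, 0, 0, 0, 0))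
  | 3 => ((1, 0, 0, 0, 0, 0), (0, 0, 0, 0, 1, 0), (0, 0, 0, 1, 0, 0), (0, 0, 1, 0, 0, 0), (0, 1, 0, 0, 0, 0), (0, 0, 0, 0, 0, 1))
  | 4 => ((.t, 0, 0, 0, 0, 0), (0, .t, 0, 0, 0, 0), (0, 0, .t, 0, 0, 0), (0, 0, 0, .t, 0, 0), (0, 0, 0, 0, .t, 0), (0, 0, 0, 0, 0, .t))
  | 5 => ((.t, 0, 0, 0, 0, 0), (0, 1, 0, 0, 0, 0), (0, 0, .t, 0, 0, 0), (0, 0, 0, .t, 0, 0), (0, 0, 0, 0, .t, 0), (0, 0, 0, 0, 0, 1))
  | 6 => ((1, .t, 1, 0, .t, 0), (.t, 1, 1, 0, .t, 0), (1, 1, 0, .t, 0, 1), (0, 0, .t, 1, .t, 1), (.t, .t, 0, .t, 0, 1), (0, 0, 1, 1, 1, 1))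
  | 7 => ((.t, .t, 1, 0, 0, 1), (1, .t, .t, 0, 0, 1), (.t, 0, .t, 1, .t, 0), (0, 1, 0, .t, .t, 1), (1, 0, 1, 1, .t, 0), (0, .t, 0, .t, .t, .t))
  | 8 => ((0, 0, 0, 0, 0, 1), (0, 0, 0, 1, 0, 0), (0, .t, 0, 0, 0, 0), (0, 0, 1, 0, 0, 0), (1, 0, 0, 0, 0, 0), (0, 0, 0, 0, .t, 0))

/-- their images in `SL(3, F4)` (matrices given by rows) -/
def smat : Fin 9 → Matrix (Fin 3) (Fin 3) F4
  | 0 => !![1, 0, .v; 0, 1, 0; 0, 0, 1]
  | 1 => !![1, .v, .w; 0, 1, .v; 0, 1, .w]
  | 2 => !![1, 0, 0; 0, .v, 1; 0, .v, .v]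
  | 3 => !![1, .v, .w; 0, .w, .w; 0, 1, .w]
  | 4 => !![1, 0, 0; 0, 1, 0; 0, 0, 1]
  | 5 => !![1, 1, 0; 0, 1, 0; 0, 0, 1]
  | 6 => !![0, 1, 0; 1, 0, 0; 0, 0, 1]
  | 7 => !![0, 0, 1; 1, 0, 0; 0, 1, 0]
  | 8 => !![1, 0, 0; 0, .w, 0; 0, 0, .v]

/-- the points of the projective plane over `F4` -/
def pt : ℕ → Fin 3 → F4
  | 0 => ![1, 0, 0]
  | 1 => ![0, 1, 0]
  | 2 => ![1, 1, 0]
  | 3 => ![1, .w, 0]
  | 4 => ![1, .v, 0]
  | 5 => ![0, 0, 1]
  | 6 => ![1, 0, .w]
  | 7 => ![1, 0, 1]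
  | 8 => ![1, 0, .v]
  | 9 => ![1, 1, 1]
  | 10 => ![1, .w, .w]
  | 11 => ![1, .v, .w]
  | 12 => ![1, 1, .v]
  | 13 => ![1, .w, .v]
  | 14 => ![1, .v, 1]
  | 15 => ![0, 1, .v]
  | 16 => ![1, .w, 1]
  | 17 => ![0, 1, .w]
  | 18 => ![1, 1, .w]
  | 19 => ![1, .v, .v]
  | 20 => ![0, 1, 1]
  | _ => 0

end Pool.Agent.Y60
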