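import Pool.Agent.Y60.Grp

/-!
# The group `GG = 2.L₃(4)`: first properties of the generators
-/

namespace Pool.Agent.Y60

lemma dot_comm (x y : V6) : dot x y = dot y x := by
  simp only [dot]; ring

lemma dot_add (x y y' : V6) : dot x (y + y') = dot x y + dot x y' := by
  simp only [dot, Prod.fst_add, Prod.snd_add]; ring

lemma add_dot (x x' y : V6) : dot (x + x') y = dot x y + dot x' y := by
  rw [dot_comm, dot_add, dot_comm y x, dot_comm y x']

lemma dot_neg (x y : V6) : dot x (-y) = - dot x y := by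
  simp only [dot, Prod.fst_neg, Prod.snd_neg]; ring

lemma neg_dot (x y : V6) : dot (-x) y = - dot x y := by
  rw [dot_comm, dot_neg, dot_comm]

lemma app_add (M : M6) (x y : V6) : app M (x + y) = app M x + app M y := by
  simp only [app, dot_add]; rfl

lemma app_neg (M : M6) (x : V6) : app M (-x) = - app M x := by
  simp only [app, dot_neg]; rfl

lemma app_zero (M : M6) : app M 0 = 0 := by
  have h := app_add M 0 0
  rw [add_zero] at h
  exact (left_eq_add.mp h)

/-- scalar multiplication -/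
def sc : F3 → V6 → V6
  | .z, _ => 0
  | .o, x => x
  | .t, x => -x

lemma app_sc (M : M6) (a : F3) (x : V6) : app M (sc a x) = sc a (app M x) := by
  cases a
  · exact app_zero M
  · rfl
  · exact app_neg M x

lemma adjoint (M : M6) (x y : V6) : dot (app M x) y = dot x (app (trM M) y) := by
  obtain ⟨x0, x1, x2, x3, x4, x5⟩ := x
  obtain ⟨y0, y1, y2, y3, y4, y5⟩ := y
  simp only [app, trM, dot]
  ring

/-- the standard basis -/
def bas : Fin 6 → V6
  | 0 => (1, 0, 0, 0, 0, 0)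
  | 1 => (0, 1, 0, 0, 0, 0)
  | 2 => (0, 0, 1, 0, 0, 0)
  | 3 => (0, 0, 0, 1, 0, 0)
  | 4 => (0, 0, 0, 0, 1, 0)
  | 5 => (0, 0, 0, 0, 0, 1)

lemma eq_sum_bas (x : V6) : x = sc x.1 (bas 0) + sc x.2.1 (bas 1) + sc x.2.2.1 (bas 2) +
    sc x.2.2.2.1 (bas 3) + sc x.2.2.2.2.1 (bas 4) + sc x.2.2.2.2.2 (bas 5) := by
  obtain ⟨x0, x1, x2, x3, x4, x5⟩ := x
  cases x0 <;> cases x1 <;> cases x2 <;> cases x3 <;> cases x4 <;> cases x5 <;> rfl

lemma sc_hom (f : V6 →+ V6) (a : F3) (x : V6) : f (sc a x) = sc a (f x) := by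
  cases a
  · exact map_zero f
  · rfl
  · exact map_neg f x

lemma hom_ext' (f g : V6 →+ V6) (h : ∀ i, f (bas i) = g (bas i)) (x : V6) : f x = g x := by
  rw [eq_sum_bas x]
  simp only [map_add, sc_hom, h]

/-- `app M` as an additive map -/
def appHom (M : M6) : V6 →+ V6 where
  toFun := app M
  map_zero' := app_zero M
  map_add' := app_add M

set_option maxRecDepth 10000 in
lemma tr_app_bas : ∀ (k : Fin 9) (i : Fin 6), app (trM (mat k)) (app (mat k) (bas i)) = bas i := by
  decide +kernel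

set_option maxRecDepth 10000 in
lemma app_tr_bas : ∀ (k : Fin 9) (i : Fin 6), app (mat k) (app (trM (mat k)) (bas i)) = bas i := by
  decide +kernel

lemma tr_app (k : Fin 9) (x : V6) : app (trM (mat k)) (app (mat k) x) = x :=
  hom_ext' ((appHom (trM (mat k))).comp (appHom (mat k))) (AddMonoidHom.id V6)
    (fun i => tr_app_bas k i) x

lemma app_tr (k : Fin 9) (x : V6) : app (mat k) (app (trM (mat k)) x) = x :=
  hom_ext' ((appHom (mat k)).comp (appHom (trM (mat k)))) (AddMonoidHom.id V6)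
    (fun i => app_tr_bas k i) x

/-- the generators -/
def gen (k : Fin 9) : Equiv.Perm V6 where
  toFun := app (mat k)
  invFun := app (trM (mat k))
  left_inv := tr_app k
  right_inv := app_tr k

lemma gen_apply (k : Fin 9) (x : V6) : gen k x = app (mat k) x := rfl

/-- the group `2.L₃(4)` -/
def GG : Subgroup (Equiv.Perm V6) := Subgroup.closure (Set.range gen)

/-- the generators as elements of `GG` -/
def ge (k : Fin 9) : GG := ⟨gen k, Subgroup.subset_closure ⟨k, rfl⟩⟩

noncomputable instance : Fintype GG := Fintype.ofFinite _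

lemma gen_dot (k : Fin 9) (x y : V6) : dot (gen k x) (gen k y) = dot x y := by
  rw [gen_apply, gen_apply, adjoint, tr_app]

lemma perm_apply_inv (a : Equiv.Perm V6) (x : V6) : a (a⁻¹ x) = x := a.apply_symm_apply x

/-- induction over the group -/
lemma GG_ind {P : Equiv.Perm V6 → Prop} (hg : ∀ k, P (gen k)) (h1 : P 1)
    (hm : ∀ a b, P a → P b → P (a * b)) (hi : ∀ a, P a → P a⁻¹) (g : GG) : P g.1 := by
  obtain ⟨g, hg'⟩ := g
  induction hg' using Subgroup.closure_induction with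
  | mem x hx => obtain ⟨k, rfl⟩ := hx; exact hg k
  | one => exact h1
  | mul a b _ _ ha hb => exact hm a b ha hb
  | inv a _ ha => exact hi a ha

/-- `GG` is orthogonal -/
lemma GG_dot (g : GG) (x y : V6) : dot (g.1 x) (g.1 y) = dot x y := by
  have h : ∀ x y, dot (g.1 x) (g.1 y) = dot x y := by
    refine GG_ind (P := fun g => ∀ x y, dot (g x) (g y) = dot x y) gen_dot (fun _ _ => rfl) ?_ ?_ g
    · intro a b ha hb x y
      rw [Equiv.Perm.mul_apply, Equiv.Perm.mul_apply, ha, hb]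
    · intro a ha x y
      rw [← ha, perm_apply_inv, perm_apply_inv]
  exact h x y

/-- `GG` is additive -/
lemma GG_add (g : GG) (x y : V6) : g.1 (x + y) = g.1 x + g.1 y := by
  have h : ∀ x y, g.1 (x + y) = g.1 x + g.1 y := by
    refine GG_ind (P := fun g => ∀ x y, g (x + y) = g x + g y) (fun k x y => app_add _ x y)
      (fun _ _ => rfl) ?_ ?_ g
    · intro a b ha hb x y
      rw [Equiv.Perm.mul_apply, Equiv.Perm.mul_apply, Equiv.Perm.mul_apply, hb, ha]
    · intro a ha x y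
      apply a.injective
      rw [ha, perm_apply_inv, perm_apply_inv, perm_apply_inv]
  exact h x y

lemma GG_zero (g : GG) : g.1 0 = 0 := by
  have h := GG_add g 0 0
  rw [add_zero] at h
  exact (left_eq_add.mp h)

lemma GG_neg (g : GG) (x : V6) : g.1 (-x) = - g.1 x := by
  have h := GG_add g x (-x)
  rw [add_neg_cancel, GG_zero] at h
  exact (neg_eq_of_add_eq_zero_right h.symm).symm

/-- the norm-one vectors -/
abbrev XX := {x : V6 // dot x x = 1}

/-- the action of `GG` on norm-one vectors -/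
instance : MulAction GG XX where
  smul g x := ⟨g.1 x.1, by rw [GG_dot]; exact x.2⟩
  one_smul x := rfl
  mul_smul g h x := rfl

lemma smul_val (g : GG) (x : XX) : (g • x).1 = g.1 x.1 := rfl

/-- table: the permutation of the `21` frames induced by the generators -/
def permTab : Fin 9 → List ℕ
  | 0 => [0, 1, 2, 3, 4, 6, 5, 8, 7, 19, 20, 15, 16, 14, 13, 11, 12, 18, 17, 9, 10]
  | 1 => [0, 10, 19, 20, 9, 16, 11, 12, 15, 17, 18, 1, 2, 8, 7, 3, 4, 5, 6, 14, 13]
  | 2 => [0, 20, 19, 9, 10, 15, 16, 12, 11, 3, 4, 8, 7, 13, 14, 5, 6, 17, 18, 2, 1]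
  | 3 => [0, 11, 12, 15, 16, 9, 10, 19, 20, 5, 6, 1, 2, 13, 14, 3, 4, 17, 18, 7, 8]
  | 4 => [0, 1, 2, 3, 4, 5, 6, 7, 8, 9, 10, 11, 12, 13, 14, 15, 16, 17, 18, 19, 20]
  | 5 => [0, 2, 1, 4, 3, 5, 6, 7, 8, 20, 19, 16, 15, 14, 13, 12, 11, 18, 17, 10, 9]
  | 6 => [1, 0, 2, 4, 3, 5, 17, 20, 15, 9, 14, 13, 12, 11, 10, 8, 19, 6, 18, 16, 7]
  | 7 => [1, 5, 20, 17, 15, 0, 4, 2, 3, 9, 14, 11, 10, 13, 12, 6, 18, 8, 19, 16, 7]
  | 8 => [0, 1, 3, 4, 2, 5, 7, 8, 6, 13, 14, 9, 10, 11, 12, 20, 19, 15, 16, 18, 17]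

/-- the frame labels -/
def lab (x : V6) : Fin 3 → F4 := pt (idx x)

/-- the base point -/
def b5 : XX := ⟨bas 5, by decide⟩

end Pool.Agent.Y60
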