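import Pool.Agent.Y60.Def

/-!
# Unipotent Brauer characters of the centralisers in `SL(2, F)`

`F` is a finite field of odd order `q`, `𝐆` is the group `PGL₂` (adjoint, with trivial, hence
connected centre), with dual group `SL₂`, and `ℓ = 2`.
-/

open scoped BigOperators Classical MatrixGroups LinearAlgebra.Projectivization
open Pool.Agent.H254R3.IN

noncomputable section

namespace Pool.Agent.Y60

variable {F : Type} [Field F]

/-- `s ∈ SL(2, q)` is a semisimple element of odd order. -/
def IsSemisimpleOdd (s : SL(2, F)) : Prop :=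
  Module.End.IsSemisimple (Matrix.toLin' s.1) ∧ Odd (orderOf s)

/-- The permutation character of `SL(2, q)` on the projective line. -/
def lineChar (h : SL(2, F)) : ℂ := Nat.card (MulAction.fixedBy (ℙ F (Fin 2 → F)) h)

/-- `χ` is a unipotent character of `C(s)`, for a semisimple element `s` of `SL(2, q)`.  If `s` is
central then `C(s) = SL(2, q)` and the unipotent characters are the irreducible constituents of
`R_{T,1} = π` (`T` the split torus, `π` the permutation character on the projective line) and of
`R_{T',1} = 2 - π` (`T'` the non-split torus); if `s` is not central then `C(s)` is a maximal torus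
and the only unipotent character is the trivial one. -/
def IsUnipotentChar (s : SL(2, F)) (χ : Subgroup.centralizer {s} → ℂ) : Prop :=
  IsIrr χ ∧ if s ∈ Subgroup.center SL(2, F) then
    (∑ᶠ h : Subgroup.centralizer {s}, χ h * lineChar (h⁻¹ : SL(2, F)) ≠ 0 ∨
      ∑ᶠ h : Subgroup.centralizer {s}, χ h * (2 - lineChar (h⁻¹ : SL(2, F))) ≠ 0)
    else χ = 1

/-- `μ` is a unipotent `2`-modular Brauer character of `C(s)`: an irreducible Brauer character with
`d_{χμ} ≠ 0` for a unipotent character `χ`. -/
def IsUnipotentIBr (O : ValuationSubring ℂ) (s : SL(2, F))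
    (μ : Subgroup.centralizer {s} → ℂ) : Prop :=
  IsIBr 2 O μ ∧ ∃ (χ : Subgroup.centralizer {s} → ℂ)
    (d : (Subgroup.centralizer {s} → ℂ) → (Subgroup.centralizer {s} → ℂ) → ℕ),
    IsUnipotentChar s χ ∧ IsDecomp 2 O d ∧ d χ μ ≠ 0

end Pool.Agent.Y60
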