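import Pool.Agent.Y60.Def

/-!
# Group ring elements acting on representations; idempotents
-/

open scoped BigOperators Classical MonoidAlgebra
open Pool.Agent.H254R3.IN

noncomputable section

namespace Pool.Agent.Y60

section gen

variable {R F : Type*} [CommRing R] [Field F] (φ : R →+* F) {G : Type} [Group G]
  {V : Type*} [AddCommGroup V] [Module F V]

/-- the action of the group ring `R[G]` on a representation over `F` via `φ : R → F` -/
def ev (ρ : Representation F G V) : MonoidAlgebra R G →+* Module.End F V :=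
  (ρ.asAlgebraHom : MonoidAlgebra F G →+* Module.End F V).comp (MonoidAlgebra.mapRingHom G φ)

lemma ev_single (ρ : Representation F G V) (g : G) (r : R) :
    ev φ ρ (MonoidAlgebra.single g r) = φ r • ρ g := by
  simp [ev, MonoidAlgebra.mapRingHom]

lemma ev_smul (ρ : Representation F G V) (r : R) (x : MonoidAlgebra R G) :
    ev φ ρ (r • x) = φ r • ev φ ρ x := by
  induction x using MonoidAlgebra.induction_linear with
  | zero => simp
  | add x y hx hy => rw [smul_add, map_add, map_add, hx, hy, smul_add]
  | single g a => rw [MonoidAlgebra.smul_single, ev_single, ev_single, smul_eq_mul, map_mul, mul_smul]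

/-- rank of the action -/
def rk (ρ : Representation F G V) (e : MonoidAlgebra R G) : ℕ :=
  Module.finrank F (LinearMap.range (ev φ ρ e))

lemma ev_idem (ρ : Representation F G V) {e : MonoidAlgebra R G} (he : e * e = e) :
    ev φ ρ e * ev φ ρ e = ev φ ρ e := by rw [← map_mul, he]

lemma ev_mem (ρ : Representation F G V) (W : Subrepresentation ρ) (e : MonoidAlgebra R G)
    {v : V} (hv : v ∈ W.toSubmodule) : ev φ ρ e v ∈ W.toSubmodule := by
  induction e using MonoidAlgebra.induction_linear with
  | zero => simp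
  | add x y hx hy => rw [map_add]; exact W.toSubmodule.add_mem hx hy
  | single g a =>
    rw [ev_single]
    exact W.toSubmodule.smul_mem _ (W.apply_mem_toSubmodule g hv)

/-- the quotient representation -/
def quo (ρ : Representation F G V) (W : Subrepresentation ρ) :
    Representation F G (V ⧸ W.toSubmodule) where
  toFun g := W.toSubmodule.mapQ W.toSubmodule (ρ g) (fun _ hv => W.apply_mem_toSubmodule g hv)
  map_one' := by
    ext v
    simp
  map_mul' a b := by
    ext v
    simp

lemma quo_apply (ρ : Representation F G V) (W : Subrepresentation ρ) (g : G) (v : V) :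
    quo ρ W g (W.toSubmodule.mkQ v) = W.toSubmodule.mkQ (ρ g v) := rfl

lemma ev_quo (ρ : Representation F G V) (W : Subrepresentation ρ) (e : MonoidAlgebra R G) (v : V) :
    ev φ (quo ρ W) e (W.toSubmodule.mkQ v) = W.toSubmodule.mkQ (ev φ ρ e v) := by
  induction e using MonoidAlgebra.induction_linear with
  | zero => simp
  | add x y hx hy => rw [map_add, map_add, LinearMap.add_apply, LinearMap.add_apply, hx, hy, map_add]
  | single g a =>
    rw [ev_single, ev_single, LinearMap.smul_apply, LinearMap.smul_apply, quo_apply, map_smul]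

lemma ev_sub (ρ : Representation F G V) (W : Subrepresentation ρ) (e : MonoidAlgebra R G)
    (v : W.toSubmodule) :
    ((ev φ W.toRepresentation e v : W.toSubmodule) : V) = ev φ ρ e v := by
  induction e using MonoidAlgebra.induction_linear with
  | zero => simp
  | add x y hx hy =>
    rw [map_add, map_add, LinearMap.add_apply, LinearMap.add_apply, Submodule.coe_add, hx, hy]
  | single g a =>
    rw [ev_single, ev_single]
    rfl

/-- additivity of the rank of idempotents -/
lemma rk_add [FiniteDimensional F V] (ρ : Representation F G V) (W : Subrepresentation ρ)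
    {e : MonoidAlgebra R G} (he : e * e = e) :
    rk φ ρ e = rk φ W.toRepresentation e + rk φ (quo ρ W) e := by
  set P := ev φ ρ e with hP
  have hPP : ∀ v, P (P v) = P v := fun v => by
    have := congrArg (fun T : Module.End F V => T v) (ev_idem φ ρ he)
    exact this
  -- the map range P → range of the quotient operator
  let q : LinearMap.range P →ₗ[F] (V ⧸ W.toSubmodule) := W.toSubmodule.mkQ.comp (LinearMap.range P).subtype
  have hq : LinearMap.range q = LinearMap.range (ev φ (quo ρ W) e) := by
    ext x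
    constructor
    · rintro ⟨⟨_, ⟨v, rfl⟩⟩, rfl⟩
      exact ⟨W.toSubmodule.mkQ v, ev_quo φ ρ W e v⟩
    · rintro ⟨y, rfl⟩
      obtain ⟨v, rfl⟩ := W.toSubmodule.mkQ_surjective y
      exact ⟨⟨P v, ⟨v, rfl⟩⟩, (ev_quo φ ρ W e v).symm⟩
  have hk : Module.finrank F (LinearMap.ker q) =
      Module.finrank F (LinearMap.range (ev φ W.toRepresentation e)) := by
    have h1 : (LinearMap.ker q).map (LinearMap.range P).subtype =
        (LinearMap.range (ev φ W.toRepresentation e)).map W.toSubmodule.subtype := by
      ext x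
      constructor
      · rintro ⟨⟨_, ⟨v, rfl⟩⟩, hx, rfl⟩
        have hx' : P v ∈ W.toSubmodule := by
          have h0 : W.toSubmodule.mkQ (P v) = 0 := hx
          rwa [Submodule.mkQ_apply, Submodule.Quotient.mk_eq_zero] at h0
        refine ⟨ev φ W.toRepresentation e ⟨P v, hx'⟩, ⟨_, rfl⟩, ?_⟩
        change ((ev φ W.toRepresentation e ⟨P v, hx'⟩ : W.toSubmodule) : V) = P v
        rw [ev_sub]
        exact hPP v
      · rintro ⟨_, ⟨w, rfl⟩, rfl⟩
        refine ⟨⟨P w, ⟨w, rfl⟩⟩, ?_, ?_⟩
        · change W.toSubmodule.mkQ (P w) = 0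
          rw [Submodule.mkQ_apply, Submodule.Quotient.mk_eq_zero]
          exact ev_mem φ ρ W e w.2
        · change P w = ((ev φ W.toRepresentation e w : W.toSubmodule) : V)
          rw [ev_sub]
    have h2 := LinearEquiv.finrank_eq
      (Submodule.equivMapOfInjective (LinearMap.range P).subtype (Submodule.subtype_injective _)
        (LinearMap.ker q))
    have h3 := LinearEquiv.finrank_eq
      (Submodule.equivMapOfInjective W.toSubmodule.subtype (Submodule.subtype_injective _)
        (LinearMap.range (ev φ W.toRepresentation e)))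
    rw [h2, h1, ← h3]
  have h := LinearMap.finrank_range_add_finrank_ker q
  rw [hq, hk] at h
  rw [rk, rk, rk, ← h]
  exact add_comm _ _

/-- invariance under isomorphism -/
lemma rk_equiv {W : Type*} [AddCommGroup W] [Module F W] (ρ : Representation F G V)
    (σ : Representation F G W) (f : V ≃ₗ[F] W) (hf : ∀ g v, f (ρ g v) = σ g (f v))
    (e : MonoidAlgebra R G) : rk φ ρ e = rk φ σ e := by
  have h : ∀ v, f (ev φ ρ e v) = ev φ σ e (f v) := by
    intro v
    induction e using MonoidAlgebra.induction_linear with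
    | zero => simp
    | add x y hx hy =>
      rw [map_add, map_add, LinearMap.add_apply, LinearMap.add_apply, map_add, hx, hy]
    | single g a =>
      rw [ev_single, ev_single, LinearMap.smul_apply, LinearMap.smul_apply, map_smul, hf]
  have h1 : (LinearMap.range (ev φ ρ e)).map (f : V →ₗ[F] W) = LinearMap.range (ev φ σ e) := by
    ext x
    constructor
    · rintro ⟨_, ⟨v, rfl⟩, rfl⟩
      exact ⟨f v, (h v).symm⟩
    · rintro ⟨w, rfl⟩
      refine ⟨ev φ ρ e (f.symm w), ⟨_, rfl⟩, ?_⟩
      change f (ev φ ρ e (f.symm w)) = _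
      rw [h, f.apply_symm_apply]
  have h2 := LinearEquiv.finrank_eq
    (Submodule.equivMapOfInjective (f : V →ₗ[F] W) f.injective (LinearMap.range (ev φ ρ e)))
  rw [rk, rk, h2, h1]

/-- the idempotent of an eigenvalue: `u = 1/n`, `ζ ^ n = 1` -/
def eig (g : G) (n : ℕ) (u ζ : R) : MonoidAlgebra R G :=
  ∑ l ∈ Finset.range n, MonoidAlgebra.single (g ^ l) (u * ζ ^ (n - l))

lemma sum_range_shift {M : Type*} [AddCommGroup M] (n : ℕ) (f : ℕ → M) (h : f n = f 0) :
    ∑ l ∈ Finset.range n, f (l + 1) = ∑ l ∈ Finset.range n, f l := by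
  have h1 := Finset.sum_range_succ f n
  have h2 := Finset.sum_range_succ' f n
  rw [h2, h] at h1
  exact add_right_cancel h1

lemma single_mul_eig {g : G} {n : ℕ} {u ζ : R} (hg : g ^ n = 1) (hζ : ζ ^ n = 1) :
    MonoidAlgebra.single g (1 : R) * eig g n u ζ = ζ • eig g n u ζ := by
  rcases Nat.eq_zero_or_pos n with rfl | hn
  · simp [eig]
  rw [eig, Finset.mul_sum, Finset.smul_sum]
  have h := sum_range_shift n
    (fun l => MonoidAlgebra.single (g ^ l) (u * ζ ^ (n - l) * ζ) : ℕ → MonoidAlgebra R G) (by
      simp only [Nat.sub_self, pow_zero, Nat.sub_zero, hg, hζ])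
  simp only [MonoidAlgebra.smul_single, smul_eq_mul]
  have e1 : ∀ l ∈ Finset.range n, MonoidAlgebra.single (g ^ l) (ζ * (u * ζ ^ (n - l))) =
      MonoidAlgebra.single (g ^ l) (u * ζ ^ (n - l) * ζ) := fun l _ => by rw [mul_comm ζ]
  rw [Finset.sum_congr rfl e1, ← h]
  refine Finset.sum_congr rfl fun l hl => ?_
  rw [MonoidAlgebra.single_mul_single, ← pow_succ', one_mul]
  congr 1
  have h2 : n - l = n - (l + 1) + 1 := by
    have := Finset.mem_range.mp hl
    omega
  rw [h2, pow_succ]
  ring

lemma single_pow_mul_eig {g : G} {n : ℕ} {u ζ : R} (hg : g ^ n = 1) (hζ : ζ ^ n = 1) (l : ℕ) :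
    MonoidAlgebra.single (g ^ l) (1 : R) * eig g n u ζ = ζ ^ l • eig g n u ζ := by
  induction l with
  | zero =>
    rw [pow_zero, pow_zero, one_smul, ← MonoidAlgebra.one_def, one_mul]
  | succ l ih =>
    have h1 : MonoidAlgebra.single (g ^ (l + 1)) (1 : R) =
        MonoidAlgebra.single (g ^ l) (1 : R) * MonoidAlgebra.single g 1 := by
      rw [MonoidAlgebra.single_mul_single, one_mul, pow_succ]
    rw [h1, mul_assoc, single_mul_eig hg hζ, mul_smul_comm, ih, smul_smul, pow_succ, mul_comm]

lemma eig_idem {g : G} {n : ℕ} {u ζ : R} (hg : g ^ n = 1) (hζ : ζ ^ n = 1) (hu : u * n = 1) :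
    eig g n u ζ * eig g n u ζ = eig g n u ζ := by
  have h0 : eig g n u ζ * eig g n u ζ =
      ∑ l ∈ Finset.range n, MonoidAlgebra.single (g ^ l) (u * ζ ^ (n - l)) * eig g n u ζ := by
    rw [← Finset.sum_mul]
    rfl
  have h1 : ∀ l ∈ Finset.range n, MonoidAlgebra.single (g ^ l) (u * ζ ^ (n - l)) * eig g n u ζ =
      u • eig g n u ζ := by
    intro l hl
    have h2 : MonoidAlgebra.single (g ^ l) (u * ζ ^ (n - l)) =
        (u * ζ ^ (n - l)) • MonoidAlgebra.single (g ^ l) (1 : R) := by
      rw [MonoidAlgebra.smul_single, smul_eq_mul, mul_one]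
    rw [h2, smul_mul_assoc, single_pow_mul_eig hg hζ, smul_smul, mul_assoc, ← pow_add]
    have h3 : n - l + l = n := Nat.sub_add_cancel (Finset.mem_range.mp hl).le
    rw [h3, hζ, mul_one]
  rw [h0, Finset.sum_congr rfl h1, Finset.sum_const, Finset.card_range,
    ← Nat.cast_smul_eq_nsmul R, smul_smul, mul_comm (n : R), hu, one_smul]

lemma range_eig (ρ : Representation F G V) {g : G} {n : ℕ} {u ζ : R} (hg : g ^ n = 1)
    (hζ : ζ ^ n = 1) (hu : u * n = 1) :
    LinearMap.range (ev φ ρ (eig g n u ζ)) = Module.End.eigenspace (ρ g) (φ ζ) := by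
  ext v
  rw [Module.End.mem_eigenspace_iff]
  constructor
  · rintro ⟨w, rfl⟩
    have h1 : ρ g = ev φ ρ (MonoidAlgebra.single g (1 : R)) := by
      rw [ev_single, map_one, one_smul]
    rw [h1, ← Module.End.mul_apply, ← map_mul, single_mul_eig hg hζ, ev_smul]
    rfl
  · intro hv
    refine ⟨v, ?_⟩
    have hpow : ∀ l : ℕ, ρ (g ^ l) v = φ ζ ^ l • v := by
      intro l
      induction l with
      | zero => simp
      | succ l ih =>
        rw [pow_succ', map_mul, Module.End.mul_apply, ih, map_smul, hv, smul_smul, pow_succ]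
    rw [eig, map_sum, LinearMap.sum_apply]
    have h1 : ∀ l ∈ Finset.range n, (ev φ ρ (MonoidAlgebra.single (g ^ l) (u * ζ ^ (n - l)))) v =
        φ u • v := by
      intro l hl
      rw [ev_single, LinearMap.smul_apply, hpow, smul_smul, ← map_pow, ← map_mul, mul_assoc,
        ← pow_add, Nat.sub_add_cancel (Finset.mem_range.mp hl).le, hζ, mul_one]
    rw [Finset.sum_congr rfl h1, Finset.sum_const, Finset.card_range, ← Nat.cast_smul_eq_nsmul F,
      smul_smul, ← map_natCast φ, ← map_mul, mul_comm, hu, map_one, one_smul]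

lemma rk_eig (ρ : Representation F G V) {g : G} {n : ℕ} {u ζ : R} (hg : g ^ n = 1)
    (hζ : ζ ^ n = 1) (hu : u * n = 1) :
    rk φ ρ (eig g n u ζ) = Module.finrank F (Module.End.eigenspace (ρ g) (φ ζ)) := by
  rw [rk, range_eig φ ρ hg hζ hu]

end gen

end Pool.Agent.Y60
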