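import Pool.Agent.Y60.Mod1

/-!
# Lattices over a valuation subring of `ℂ` and reduction of representations
-/

open scoped BigOperators Classical MonoidAlgebra
open Pool.Agent.H254R3.IN

noncomputable section

namespace Pool.Agent.Y60

variable (O : ValuationSubring ℂ)

lemma exists_scale {ι : Type*} [Fintype ι] (c : ι → ℂ) (h : ∃ i, c i ≠ 0) :
    ∃ i0, c i0 ≠ 0 ∧ ∀ i, c i / c i0 ∈ O := by
  obtain ⟨j, hj⟩ := h
  obtain ⟨i0, _, hi0⟩ := Finset.exists_max_image (Finset.univ : Finset ι)
    (fun i => O.valuation (c i)) ⟨j, Finset.mem_univ j⟩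
  have h0 : c i0 ≠ 0 := by
    intro h
    have h1 := hi0 j (Finset.mem_univ j)
    rw [h, map_zero] at h1
    exact hj ((map_eq_zero O.valuation).mp (le_zero_iff.mp h1))
  refine ⟨i0, h0, fun i => ?_⟩
  rw [← ValuationSubring.valuation_le_one_iff, map_div₀]
  have h2 : O.valuation (c i0) ≠ 0 := (map_ne_zero O.valuation).mpr h0
  exact div_le_one_of_le₀ (hi0 i (Finset.mem_univ i)) zero_le'

lemma smul_coe {V : Type*} [AddCommGroup V] [Module ℂ V] (a : O) (v : V) :
    a • v = (a : ℂ) • v := rfl

/-- a finitely generated `O`-submodule of a complex vector space has a basis which is linearly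
independent over `ℂ` -/
lemma exists_lattice_basis {V : Type*} [AddCommGroup V] [Module ℂ V] {m : ℕ} (x : Fin m → V) :
    ∃ (n : ℕ) (y : Fin n → V), LinearIndependent ℂ y ∧
      Submodule.span O (Set.range y) = Submodule.span O (Set.range x) := by
  have hex : ∃ n : ℕ, ∃ y : Fin n → V,
      Submodule.span O (Set.range y) = Submodule.span O (Set.range x) := ⟨m, x, rfl⟩
  obtain ⟨y, hy⟩ := Nat.find_spec hex
  have hmin := fun k (hk : k < Nat.find hex) => Nat.find_min hex hk
  refine ⟨Nat.find hex, y, ?_, hy⟩
  revert y
  generalize Nat.find hex = n at hmin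
  intro y hy
  by_contra hli
  rw [Fintype.not_linearIndependent_iff] at hli
  obtain ⟨c, hc, i, hi⟩ := hli
  obtain ⟨i0, h0, hO⟩ := exists_scale O c ⟨i, hi⟩
  cases n with
  | zero => exact Fin.elim0 i0
  | succ n =>
    apply hmin n (Nat.lt_succ_self n)
    refine ⟨y ∘ i0.succAbove, ?_⟩
    rw [← hy]
    apply le_antisymm
    · apply Submodule.span_mono
      rintro _ ⟨j, rfl⟩
      exact ⟨_, rfl⟩
    · rw [Submodule.span_le]
      rintro _ ⟨j, rfl⟩
      by_cases hj : j = i0
      · subst hj
        have h1 : y j = - ∑ l, (⟨c (j.succAbove l) / c j, hO _⟩ : O) • y (j.succAbove l) := by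
          have h2 : ∑ l, (c l / c j) • y l = 0 := by
            have h3 : ∑ l, (c l / c j) • y l = (c j)⁻¹ • ∑ l, c l • y l := by
              rw [Finset.smul_sum]
              refine Finset.sum_congr rfl fun l _ => ?_
              rw [smul_smul]
              congr 1
              field_simp
            rw [h3, hc, smul_zero]
          rw [Fin.sum_univ_succAbove _ j, div_self h0, one_smul] at h2
          exact eq_neg_of_add_eq_zero_left h2
        rw [h1]
        apply Submodule.neg_mem
        apply Submodule.sum_mem
        intro l _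
        exact Submodule.smul_mem _ _ (Submodule.subset_span ⟨l, rfl⟩)
      · obtain ⟨l, rfl⟩ := Fin.exists_succAbove_eq hj
        exact Submodule.subset_span ⟨l, rfl⟩

/-- every complex representation of a finite group can be written over `O` -/
lemma exists_integral {G : Type} [Group G] [Finite G] {V : Type} [AddCommGroup V] [Module ℂ V]
    [FiniteDimensional ℂ V] (ρ : Representation ℂ G V) :
    ∃ (n : ℕ) (b : Module.Basis (Fin n) ℂ V) (T : G → Matrix (Fin n) (Fin n) O),
      ∀ g, (T g).map (O.subtype) = LinearMap.toMatrix b b (ρ g) := by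
  haveI := Fintype.ofFinite G
  let b0 := Module.finBasis ℂ V
  let e := Fintype.equivFin (G × Fin (Module.finrank ℂ V))
  let x : Fin (Fintype.card (G × Fin (Module.finrank ℂ V))) → V :=
    fun i => ρ (e.symm i).1 (b0 (e.symm i).2)
  obtain ⟨n, y, hli, hspan⟩ := exists_lattice_basis O x
  have hx : ∀ (g : G) j, ρ g (b0 j) ∈ Set.range x := fun g j => ⟨e (g, j), by simp [x]⟩
  have htop : ⊤ ≤ Submodule.span ℂ (Set.range y) := by
    rw [← b0.span_eq, Submodule.span_le]
    rintro _ ⟨j, rfl⟩
    have h1 : b0 j ∈ Submodule.span O (Set.range y) := by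
      rw [hspan]
      apply Submodule.subset_span
      have := hx 1 j
      simpa using this
    exact (Submodule.span_le_restrictScalars O ℂ (Set.range y)) h1
  let b := Module.Basis.mk hli htop
  have hb : ∀ i, b i = y i := fun i => Module.Basis.mk_apply hli htop i
  have hst : ∀ (g : G) (v : V), v ∈ Submodule.span O (Set.range x) →
      ρ g v ∈ Submodule.span O (Set.range x) := by
    intro g v hv
    induction hv using Submodule.span_induction with
    | mem v hv =>
      obtain ⟨i, rfl⟩ := hv
      apply Submodule.subset_span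
      have h1 : ρ g (x i) = ρ (g * (e.symm i).1) (b0 (e.symm i).2) := by
        simp only [x]
        rw [map_mul]
        rfl
      rw [h1]
      exact hx _ _
    | zero => rw [map_zero]; exact Submodule.zero_mem _
    | add v w _ _ hv hw => rw [map_add]; exact Submodule.add_mem _ hv hw
    | smul c v _ hv =>
      have h1 : ρ g (c • v) = c • ρ g v := by
        rw [smul_coe, map_smul]
        rfl
      rw [h1]
      exact Submodule.smul_mem _ c hv
  have hT : ∀ (g : G) (j : Fin n), ∃ r : Fin n → O, ∑ i, r i • y i = ρ g (y j) := by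
    intro g j
    have h1 : ρ g (y j) ∈ Submodule.span O (Set.range y) := by
      rw [hspan]
      apply hst
      rw [← hspan]
      exact Submodule.subset_span ⟨j, rfl⟩
    exact (Submodule.mem_span_range_iff_exists_fun O).mp h1
  choose r hr using hT
  refine ⟨n, b, fun g => Matrix.of fun i j => r g j i, fun g => ?_⟩
  ext i j
  rw [LinearMap.toMatrix_apply, hb, ← hr g j, map_sum, Finsupp.coe_finset_sum, Finset.sum_apply]
  simp only [Matrix.map_apply, Matrix.of_apply]
  rw [Finset.sum_eq_single i]
  · rw [smul_coe, map_smul, ← hb i, b.repr_self]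
    simp
  · intro l _ hl
    rw [smul_coe, map_smul, ← hb l, b.repr_self]
    simp [hl]
  · intro h
    exact absurd (Finset.mem_univ i) h

end Pool.Agent.Y60
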