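import Pool.Agent.Y60.Mod2

/-!
# Reduction modulo the maximal ideal: ranks of idempotents are preserved
-/

open scoped BigOperators Classical MonoidAlgebra
open Pool.Agent.H254R3.IN

noncomputable section

namespace Pool.Agent.Y60

variable {O : ValuationSubring ℂ}

lemma rank_le {n : ℕ} (A : Matrix (Fin n) (Fin n) O) :
    Module.finrank (RF O) (LinearMap.range (Matrix.toLin' (A.map (IsLocalRing.residue O)))) ≤
      Module.finrank ℂ (LinearMap.range (Matrix.toLin' (A.map O.subtype))) := by
  set L := LinearMap.range (Matrix.toLin' (A.map (IsLocalRing.residue O))) with hL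
  let w := Module.finBasis (RF O) L
  have h1 : ∀ i, ∃ u : Fin n → O, Matrix.toLin' (A.map (IsLocalRing.residue O))
      (fun j => IsLocalRing.residue O (u j)) = (w i : Fin n → RF O) := by
    intro i
    obtain ⟨v, hv⟩ := (w i).2
    choose u hu using fun j => IsLocalRing.residue_surjective (R := O) (v j)
    refine ⟨u, ?_⟩
    have : (fun j => IsLocalRing.residue O (u j)) = v := funext hu
    rw [this, hv]
  choose u hu using h1
  let W : Fin (Module.finrank (RF O) L) → (Fin n → O) := fun i => A.mulVec (u i)
  have hW1 : ∀ i j, IsLocalRing.residue O (W i j) = (w i : Fin n → RF O) j := by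
    intro i j
    rw [← hu i, Matrix.toLin'_apply]
    simp only [W, Matrix.mulVec, dotProduct, map_sum, map_mul, Matrix.map_apply]
  let x : Fin (Module.finrank (RF O) L) → LinearMap.range (Matrix.toLin' (A.map O.subtype)) :=
    fun i => ⟨Matrix.toLin' (A.map O.subtype) (fun j => (u i j : ℂ)), ⟨_, rfl⟩⟩
  have hx : ∀ i j, (x i : Fin n → ℂ) j = (W i j : ℂ) := by
    intro i j
    simp only [x, W, Matrix.toLin'_apply, Matrix.mulVec, dotProduct, Matrix.map_apply]
    push_cast
    rfl
  have hli : LinearIndependent ℂ x := by
    by_contra hli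
    rw [Fintype.not_linearIndependent_iff] at hli
    obtain ⟨c, hc, i, hi⟩ := hli
    obtain ⟨i0, h0, hO⟩ := exists_scale O c ⟨i, hi⟩
    have h2 : ∀ j, ∑ l, (⟨c l / c i0, hO l⟩ : O) * W l j = 0 := by
      intro j
      apply Subtype.ext
      have h3 : ((∑ l, (⟨c l / c i0, hO l⟩ : O) * W l j : O) : ℂ) =
          ∑ l, (c l / c i0) * (W l j : ℂ) := by
        push_cast
        rfl
      rw [h3]
      have h4 : ∑ l, (c l / c i0) * (W l j : ℂ) = (c i0)⁻¹ * ∑ l, c l * (W l j : ℂ) := by
        rw [Finset.mul_sum]
        refine Finset.sum_congr rfl fun l _ => ?_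
        field_simp
      rw [h4]
      have h5 := congrArg (fun z : LinearMap.range (Matrix.toLin' (A.map O.subtype)) =>
        (z : Fin n → ℂ) j) hc
      simp only [Submodule.coe_sum, Submodule.coe_smul, Finset.sum_apply, Pi.smul_apply,
        smul_eq_mul, Submodule.coe_zero, Pi.zero_apply, hx] at h5
      rw [h5, mul_zero]
      rfl
    have h6 : ∑ l, IsLocalRing.residue O (⟨c l / c i0, hO l⟩ : O) • w l = 0 := by
      apply Subtype.ext
      funext j
      have h7 := congrArg (IsLocalRing.residue O) (h2 j)
      rw [map_sum, map_zero] at h7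
      simp only [map_mul, hW1] at h7
      simp only [Submodule.coe_sum, Submodule.coe_smul, Finset.sum_apply, Pi.smul_apply,
        smul_eq_mul, Submodule.coe_zero, Pi.zero_apply]
      exact h7
    have h8 := (Fintype.linearIndependent_iff.mp w.linearIndependent) _ h6 i0
    have h9 : (⟨c i0 / c i0, hO i0⟩ : O) = 1 := Subtype.ext (div_self h0)
    rw [h9, map_one] at h8
    exact one_ne_zero h8
  have h10 := hli.fintype_card_le_finrank
  rwa [Fintype.card_fin] at h10

lemma finrank_idem {F : Type*} [Field F] {V : Type*} [AddCommGroup V] [Module F V]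
    [FiniteDimensional F V] (P : Module.End F V) (hP : P * P = P) :
    Module.finrank F (LinearMap.range P) + Module.finrank F (LinearMap.range (1 - P)) =
      Module.finrank F V := by
  have h1 : LinearMap.range (1 - P) = LinearMap.ker P := by
    ext v
    constructor
    · rintro ⟨w, rfl⟩
      rw [LinearMap.mem_ker, ← Module.End.mul_apply, mul_sub, mul_one, hP, sub_self]
      rfl
    · intro hv
      exact ⟨v, by rw [LinearMap.sub_apply, LinearMap.mem_ker.mp hv, sub_zero]; rfl⟩
  rw [h1]
  exact LinearMap.finrank_range_add_finrank_ker P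

lemma trace_idem {V : Type*} [AddCommGroup V] [Module ℂ V] [FiniteDimensional ℂ V]
    (P : Module.End ℂ V) (hP : P * P = P) :
    LinearMap.trace ℂ V P = Module.finrank ℂ (LinearMap.range P) := by
  have h : LinearMap.IsProj (LinearMap.range P) P :=
    (LinearMap.isProj_range_iff_isIdempotentElem P).mpr hP
  exact h.trace

/-- the rank of an idempotent matrix over `O` is preserved by reduction -/
lemma rank_idem {n : ℕ} (A : Matrix (Fin n) (Fin n) O) (hA : A * A = A) :
    (Module.finrank (RF O) (LinearMap.range
      (Matrix.toLin' (A.map (IsLocalRing.residue O)))) : ℂ) = O.subtype A.trace := by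
  have h1 : Module.finrank (RF O) (LinearMap.range
      (Matrix.toLin' (A.map (IsLocalRing.residue O)))) =
      Module.finrank ℂ (LinearMap.range (Matrix.toLin' (A.map O.subtype))) := by
    have a1 := rank_le A
    have a2 := rank_le (1 - A)
    have b1 : Module.finrank (RF O) (LinearMap.range
          (Matrix.toLin' (A.map (IsLocalRing.residue O)))) +
        Module.finrank (RF O) (LinearMap.range
          (1 - Matrix.toLin' (A.map (IsLocalRing.residue O)))) = n := by
      have := finrank_idem (Matrix.toLin' (A.map (IsLocalRing.residue O))) (by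
        have : (A.map (IsLocalRing.residue O)) * (A.map (IsLocalRing.residue O)) =
          A.map (IsLocalRing.residue O) := by rw [← Matrix.map_mul, hA]
        rw [Module.End.mul_eq_comp, ← Matrix.toLin'_mul, this])
      rw [Module.finrank_fintype_fun_eq_card, Fintype.card_fin] at this
      exact this
    have b2 : Module.finrank ℂ (LinearMap.range (Matrix.toLin' (A.map O.subtype))) +
        Module.finrank ℂ (LinearMap.range (1 - Matrix.toLin' (A.map O.subtype))) = n := by
      have := finrank_idem (Matrix.toLin' (A.map O.subtype)) (by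
        have : (A.map O.subtype) * (A.map O.subtype) = A.map O.subtype := by
          rw [← Matrix.map_mul, hA]
        rw [Module.End.mul_eq_comp, ← Matrix.toLin'_mul, this])
      rw [Module.finrank_fintype_fun_eq_card, Fintype.card_fin] at this
      exact this
    have c1 : Matrix.toLin' ((1 - A).map (IsLocalRing.residue O)) =
        1 - Matrix.toLin' (A.map (IsLocalRing.residue O)) := by
      rw [Matrix.map_sub _ (fun a b => map_sub _ a b), map_sub,
        Matrix.map_one _ (map_zero _) (map_one _), Matrix.toLin'_one]
      rfl
    have c2 : Matrix.toLin' ((1 - A).map O.subtype) = 1 - Matrix.toLin' (A.map O.subtype) := by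
      rw [Matrix.map_sub _ (fun a b => map_sub _ a b), map_sub,
        Matrix.map_one _ (map_zero _) (map_one _), Matrix.toLin'_one]
      rfl
    have a2' : Module.finrank (RF O) (LinearMap.range
          (1 - Matrix.toLin' (A.map (IsLocalRing.residue O)))) ≤
        Module.finrank ℂ (LinearMap.range (1 - Matrix.toLin' (A.map O.subtype))) := by
      rw [← c1, ← c2]
      exact a2
    omega
  rw [h1, ← trace_idem, Matrix.trace_toLin'_eq]
  · simp [Matrix.trace, map_sum]
  · have : (A.map O.subtype) * (A.map O.subtype) = A.map O.subtype := by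
      rw [← Matrix.map_mul, hA]
    rw [Module.End.mul_eq_comp, ← Matrix.toLin'_mul, this]

/-- reduction of a representation: a representation over the residue field such that the rank of
every idempotent of `O[G]` is the value of the character at the idempotent -/
theorem exists_reduction {G : Type} [Group G] [Finite G] {V : Type} [AddCommGroup V] [Module ℂ V]
    [FiniteDimensional ℂ V] (ρ : Representation ℂ G V) :
    ∃ (n : ℕ) (σ : Representation (RF O) G (Fin n → RF O)),
      ∀ e : MonoidAlgebra O G, e * e = e →
        LinearMap.trace ℂ V (ev O.subtype ρ e) = rk (IsLocalRing.residue O) σ e := by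
  obtain ⟨n, b, T, hT⟩ := exists_integral O ρ
  have hinj : Function.Injective (fun A : Matrix (Fin n) (Fin n) O => A.map O.subtype) :=
    Matrix.map_injective Subtype.val_injective
  have hmul : ∀ g h, T (g * h) = T g * T h := by
    intro g h
    apply hinj
    change (T (g * h)).map O.subtype = (T g * T h).map O.subtype
    rw [Matrix.map_mul, hT, hT, hT, map_mul, LinearMap.toMatrix_mul]
  have hone : T 1 = 1 := by
    apply hinj
    change (T 1).map O.subtype = (1 : Matrix (Fin n) (Fin n) O).map O.subtype
    rw [Matrix.map_one _ (map_zero _) (map_one _), hT, map_one, LinearMap.toMatrix_one]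
  let Tm : G →* Matrix (Fin n) (Fin n) O := ⟨⟨T, hone⟩, hmul⟩
  let S : MonoidAlgebra O G →ₐ[O] Matrix (Fin n) (Fin n) O := MonoidAlgebra.lift O _ G Tm
  let σ : Representation (RF O) G (Fin n → RF O) :=
    ((Matrix.toLinAlgEquiv' : Matrix (Fin n) (Fin n) (RF O) ≃ₐ[RF O] _) :
      Matrix (Fin n) (Fin n) (RF O) →* Module.End (RF O) (Fin n → RF O)).comp
      (((IsLocalRing.residue O).mapMatrix : Matrix (Fin n) (Fin n) O →+* _).toMonoidHom.comp Tm)
  have hσ : ∀ g, σ g = Matrix.toLin' ((T g).map (IsLocalRing.residue O)) := fun g => rfl
  refine ⟨n, σ, fun e he => ?_⟩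
  have h1 : ∀ e : MonoidAlgebra O G, ev (IsLocalRing.residue O) σ e =
      Matrix.toLin' ((S e).map (IsLocalRing.residue O)) := by
    intro e
    induction e using MonoidAlgebra.induction_linear with
    | zero => simp
    | add x y hx hy =>
      rw [map_add, map_add, hx, hy, Matrix.map_add _ (fun a b => map_add _ a b), map_add]
    | single g a =>
      have h3 : (a • T g).map (IsLocalRing.residue O) =
          IsLocalRing.residue O a • (T g).map (IsLocalRing.residue O) := by
        ext i j
        simp [Matrix.map_apply, Matrix.smul_apply]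
      rw [ev_single, hσ, MonoidAlgebra.lift_single, ← map_smul, ← h3]
      rfl
  have h2 : ∀ e : MonoidAlgebra O G, LinearMap.toMatrix b b (ev O.subtype ρ e) =
      (S e).map O.subtype := by
    intro e
    induction e using MonoidAlgebra.induction_linear with
    | zero => simp
    | add x y hx hy =>
      rw [map_add, map_add, hx, hy, map_add, Matrix.map_add _ (fun a b => map_add _ a b)]
    | single g a =>
      rw [ev_single, map_smul, ← hT, MonoidAlgebra.lift_single]
      rfl
  rw [rk, h1, rank_idem (S e) (by rw [← map_mul, he])]
  rw [LinearMap.trace_eq_matrix_trace ℂ b, h2]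
  simp [Matrix.trace, map_sum]

end Pool.Agent.Y60
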