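import Pool.Agent.H254R3.IN.Red

/-!
# The residue field is algebraically closed; traces of `p`-powers in characteristic `p`
-/

open scoped BigOperators
open Pool.Agent.H254R3.IN Polynomial

noncomputable section

namespace Pool.Agent.Y60

instance isAlgClosed_RF (O : ValuationSubring ℂ) : IsAlgClosed (RF O) := by
  apply IsAlgClosed.of_exists_root
  intro f hf hirr
  have hsurj : Function.Surjective (Polynomial.map (IsLocalRing.residue O)) :=
    Polynomial.map_surjective _ IsLocalRing.residue_surjective
  have hl : f ∈ Polynomial.lifts (IsLocalRing.residue O) := by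
    obtain ⟨g, hg⟩ := hsurj f
    exact (Polynomial.mem_lifts f).mpr ⟨g, hg⟩
  obtain ⟨F, hF, hdeg, hmon⟩ := Polynomial.lifts_and_degree_eq_and_monic hl hf
  have hd : (F.map (algebraMap O ℂ)).degree ≠ 0 := by
    rw [hmon.degree_map, hdeg]
    exact (Irreducible.degree_pos hirr).ne'
  obtain ⟨x, hx⟩ := IsAlgClosed.exists_root (F.map (algebraMap O ℂ)) hd
  have hx' : Polynomial.eval₂ (algebraMap O ℂ) x F = 0 := by
    rw [← Polynomial.eval_map]
    exact hx
  have hint : IsIntegral O x := ⟨F, hmon, hx'⟩
  have hxO : x ∈ O := mem_of_isIntegral' hint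
  refine ⟨IsLocalRing.residue O ⟨x, hxO⟩, ?_⟩
  have h1 : Polynomial.eval (⟨x, hxO⟩ : O) F = 0 := by
    apply Subtype.ext
    have h2 : algebraMap O ℂ (Polynomial.eval (⟨x, hxO⟩ : O) F) = 0 := by
      rw [← hx', ← Polynomial.eval₂_hom]
      rfl
    exact h2
  rw [← hF, Polynomial.eval_map, Polynomial.eval₂_hom, h1, map_zero]

section charp

variable {K : Type*} [Field K] (p : ℕ) [Fact p.Prime] [CharP K p] {n : Type*} [DecidableEq n]
  [Fintype n]

lemma expand_charpoly [Nonempty n] (M : Matrix n n K) :
    Polynomial.expand K p (M ^ p).charpoly = M.charpoly ^ p := by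
  unfold Matrix.charpoly
  rw [AlgHom.map_det, ← Matrix.coe_detMonoidHom,
    ← (Matrix.detMonoidHom : Matrix n n K[X] →* K[X]).map_pow]
  apply congr_arg Matrix.det
  refine matPolyEquiv.injective ?_
  rw [map_pow, Matrix.matPolyEquiv_charmatrix, sub_pow_char_of_commute, ← Polynomial.C_pow]
  · have := matPolyEquiv_eq_X_pow_sub_C p M
    exact (id this :)
  · exact Polynomial.commute_X (C M)

lemma charpoly_frob [Nonempty n] (M : Matrix n n K) :
    (M ^ p).charpoly = M.charpoly.map (frobenius K p) := by
  apply Polynomial.expand_injective (Fact.out : p.Prime).pos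
  rw [expand_charpoly, ← Polynomial.map_frobenius_expand, Polynomial.map_expand]

lemma trace_pow_p (M : Matrix n n K) : (M ^ p).trace = M.trace ^ p := by
  cases isEmpty_or_nonempty n
  · simp [Matrix.trace, (Fact.out : p.Prime).ne_zero]
  · rw [Matrix.trace_eq_neg_charpoly_coeff, Matrix.trace_eq_neg_charpoly_coeff, charpoly_frob p M,
      Polynomial.coeff_map, ← frobenius_def p, map_neg]

lemma trace_pow_pk (M : Matrix n n K) (k : ℕ) : (M ^ p ^ k).trace = M.trace ^ p ^ k := by
  induction k with
  | zero => simp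
  | succ k ih => rw [pow_succ, pow_mul, trace_pow_p, ih, ← pow_mul]

lemma lin_trace_pow {V : Type*} [AddCommGroup V] [Module K V] [FiniteDimensional K V]
    (f : Module.End K V) (k : ℕ) :
    LinearMap.trace K V (f ^ p ^ k) = LinearMap.trace K V f ^ p ^ k := by
  classical
  let b := Module.finBasis K V
  rw [LinearMap.trace_eq_matrix_trace K b, LinearMap.trace_eq_matrix_trace K b,
    ← LinearMap.toMatrix_pow, trace_pow_pk]

end charp

end Pool.Agent.Y60
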