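import Pool.Agent.Y60.Mod3
import Pool.Agent.Y60.Mod4

/-!
# Brauer characters through idempotents
-/

open scoped BigOperators Classical MonoidAlgebra
open Pool.Agent.H254R3.IN

noncomputable section

namespace Pool.Agent.Y60

/-- a complex number as an element of `O` (`0` if it is not in `O`) -/
def toO (O : ValuationSubring ℂ) (x : ℂ) : O := if h : x ∈ O then ⟨x, h⟩ else 0

variable {O : ValuationSubring ℂ}

lemma toO_coe {x : ℂ} (h : x ∈ O) : ((toO O x : O) : ℂ) = x := by rw [toO, dif_pos h]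

lemma toO_res (x : ℂ) : IsLocalRing.residue O (toO O x) = red O x := by
  rw [toO, red]
  split_ifs
  · rfl
  · exact map_zero _

lemma root_mem {n : ℕ} (hn : 0 < n) {ζ : ℂ} (h : ζ ^ n = 1) : ζ ∈ O := by
  apply mem_of_isIntegral
  exact IsIntegral.of_pow hn (by rw [h]; exact isIntegral_one)

lemma toO_pow {n : ℕ} (hn : 0 < n) {ζ : ℂ} (h : ζ ^ n = 1) : (toO O ζ) ^ n = 1 := by
  apply Subtype.ext
  push_cast
  rw [toO_coe (root_mem hn h), h]

/-- the idempotent of `O[G]` attached to an element and an eigenvalue -/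
def eO (O : ValuationSubring ℂ) {G : Type} [Group G] (g : G) (ζ : ℂ) : MonoidAlgebra O G :=
  eig g (orderOf g) (toO O ((orderOf g : ℂ)⁻¹)) (toO O ζ)

variable {G : Type} [Group G] [Finite G]

section p

variable {p : ℕ} [Fact p.Prime] (hp : (p : ℂ) ∈ O.nonunits)

include hp

lemma unit_order {g : G} (hg : ¬ p ∣ orderOf g) :
    toO O ((orderOf g : ℂ)⁻¹) * (orderOf g : ℕ) = 1 := by
  apply Subtype.ext
  push_cast
  rw [toO_coe (nat_inv_mem hp hg)]
  have h : (orderOf g : ℂ) ≠ 0 := by exact_mod_cast (orderOf_pos g).ne'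
  rw [inv_mul_cancel₀ h]

lemma eO_idem {g : G} (hg : ¬ p ∣ orderOf g) {ζ : ℂ} (hζ : ζ ^ orderOf g = 1) :
    eO O g ζ * eO O g ζ = eO O g ζ :=
  eig_idem (pow_orderOf_eq_one g) (toO_pow (orderOf_pos g) hζ) (unit_order hp hg)

lemma rk_eO {g : G} (hg : ¬ p ∣ orderOf g) {ζ : ℂ} (hζ : ζ ^ orderOf g = 1) {V : Type*}
    [AddCommGroup V] [Module (RF O) V] (σ : Representation (RF O) G V) :
    rk (IsLocalRing.residue O) σ (eO O g ζ) =
      Module.finrank (RF O) (Module.End.eigenspace (σ g) (red O ζ)) := by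
  rw [eO, rk_eig _ σ (pow_orderOf_eq_one g) (toO_pow (orderOf_pos g) hζ) (unit_order hp hg),
    toO_res]

lemma brauer_eq {g : G} (hg : ¬ p ∣ orderOf g) {V : Type} [AddCommGroup V] [Module (RF O) V]
    (σ : Representation (RF O) G V) :
    brauerChar p O σ g = ∑ ζ ∈ Polynomial.nthRootsFinset (orderOf g) (1 : ℂ),
      (rk (IsLocalRing.residue O) σ (eO O g ζ) : ℂ) * ζ := by
  rw [brauerChar, if_neg hg]
  refine Finset.sum_congr rfl fun ζ hζ => ?_
  rw [rk_eO hp hg ((Polynomial.mem_nthRootsFinset (orderOf_pos g) _).mp hζ)]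

lemma brauer_congr {V W : Type} [AddCommGroup V] [Module (RF O) V] [AddCommGroup W]
    [Module (RF O) W] (σ : Representation (RF O) G V) (τ : Representation (RF O) G W)
    (h : ∀ e : MonoidAlgebra O G, e * e = e →
      rk (IsLocalRing.residue O) σ e = rk (IsLocalRing.residue O) τ e) :
    brauerChar p O σ = brauerChar p O τ := by
  funext g
  by_cases hg : p ∣ orderOf g
  · rw [brauerChar, brauerChar, if_pos hg, if_pos hg]
  · rw [brauer_eq hp hg, brauer_eq hp hg]
    refine Finset.sum_congr rfl fun ζ hζ => ?_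
    rw [h _ (eO_idem hp hg ((Polynomial.mem_nthRootsFinset (orderOf_pos g) _).mp hζ))]

lemma brauer_add {V : Type} [AddCommGroup V] [Module (RF O) V] [FiniteDimensional (RF O) V]
    (σ : Representation (RF O) G V) (W : Subrepresentation σ) :
    brauerChar p O σ = brauerChar p O W.toRepresentation + brauerChar p O (quo σ W) := by
  funext g
  by_cases hg : p ∣ orderOf g
  · simp [brauerChar, if_pos hg]
  · rw [Pi.add_apply, brauer_eq hp hg, brauer_eq hp hg, brauer_eq hp hg, ← Finset.sum_add_distrib]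
    refine Finset.sum_congr rfl fun ζ hζ => ?_
    rw [rk_add _ σ W (eO_idem hp hg ((Polynomial.mem_nthRootsFinset (orderOf_pos g) _).mp hζ))]
    push_cast
    ring

end p

/-- orthogonality of roots of unity -/
lemma sum_roots {n : ℕ} (hn : 0 < n) {m : ℕ} (hm : ¬ n ∣ m) :
    ∑ ζ ∈ Polynomial.nthRootsFinset n (1 : ℂ), ζ ^ m = 0 := by
  have hprim := Complex.isPrimitiveRoot_exp n hn.ne'
  set ξ := Complex.exp (2 * Real.pi * Complex.I / n) with hξ
  have h1 : ∑ ζ ∈ Polynomial.nthRootsFinset n (1 : ℂ), ζ ^ m =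
      ∑ ζ ∈ Polynomial.nthRootsFinset n (1 : ℂ), (ξ * ζ) ^ m := by
    symm
    apply Finset.sum_bij' (fun ζ _ => ξ * ζ) (fun ζ _ => ξ⁻¹ * ζ)
    · intro ζ hζ
      rw [Polynomial.mem_nthRootsFinset hn] at hζ ⊢
      rw [mul_pow, hζ, hprim.pow_eq_one, one_mul]
    · intro ζ hζ
      rw [Polynomial.mem_nthRootsFinset hn] at hζ ⊢
      rw [mul_pow, hζ, inv_pow, hprim.pow_eq_one, inv_one, one_mul]
    · intro ζ _
      rw [inv_mul_cancel_left₀ (hprim.ne_zero hn.ne')]
    · intro ζ _
      rw [mul_inv_cancel_left₀ (hprim.ne_zero hn.ne')]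
    · intro ζ _
      rfl
  simp only [mul_pow] at h1
  rw [← Finset.mul_sum] at h1
  have h2 : (ξ ^ m - 1) * ∑ ζ ∈ Polynomial.nthRootsFinset n (1 : ℂ), ζ ^ m = 0 := by
    rw [sub_mul, one_mul, ← h1, sub_self]
  rcases mul_eq_zero.mp h2 with h | h
  · exact absurd ((hprim.pow_eq_one_iff_dvd m).mp (sub_eq_zero.mp h)) hm
  · exact h

lemma sum_roots' {n : ℕ} (hn : 0 < n) :
    ∑ ζ ∈ Polynomial.nthRootsFinset n (1 : ℂ), ζ ^ n = n := by
  have hprim := Complex.isPrimitiveRoot_exp n hn.ne'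
  rw [Finset.sum_congr rfl (g := fun _ => (1 : ℂ))
    (fun ζ hζ => (Polynomial.mem_nthRootsFinset hn _).mp hζ), Finset.sum_const,
    hprim.card_nthRootsFinset, nsmul_eq_mul, mul_one]

section p2

variable {p : ℕ} [Fact p.Prime] (hp : (p : ℂ) ∈ O.nonunits)

include hp

/-- the eigenvalue idempotents sum to one -/
lemma sum_eO {g : G} (hg : ¬ p ∣ orderOf g) :
    ∑ ζ ∈ Polynomial.nthRootsFinset (orderOf g) (1 : ℂ), eO O g ζ = 1 := by
  have hn := orderOf_pos g
  simp only [eO, eig]
  rw [Finset.sum_comm]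
  have h1 : ∀ l ∈ Finset.range (orderOf g), ∑ ζ ∈ Polynomial.nthRootsFinset (orderOf g) (1 : ℂ),
      MonoidAlgebra.single (g ^ l) (toO O ((orderOf g : ℂ)⁻¹) * toO O ζ ^ (orderOf g - l)) =
      if l = 0 then (1 : MonoidAlgebra O G) else 0 := by
    intro l hl
    have hl' := Finset.mem_range.mp hl
    have h2 : ∑ ζ ∈ Polynomial.nthRootsFinset (orderOf g) (1 : ℂ),
        MonoidAlgebra.single (g ^ l) (toO O ((orderOf g : ℂ)⁻¹) * toO O ζ ^ (orderOf g - l)) =
        MonoidAlgebra.single (g ^ l) (toO O ((orderOf g : ℂ)⁻¹) *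
          ∑ ζ ∈ Polynomial.nthRootsFinset (orderOf g) (1 : ℂ), toO O ζ ^ (orderOf g - l)) := by
      rw [Finset.mul_sum]
      exact (map_sum (MonoidAlgebra.singleAddHom (R := O) (g ^ l)) _ _).symm
    have h3 : ((∑ ζ ∈ Polynomial.nthRootsFinset (orderOf g) (1 : ℂ),
        toO O ζ ^ (orderOf g - l) : O) : ℂ) =
        ∑ ζ ∈ Polynomial.nthRootsFinset (orderOf g) (1 : ℂ), ζ ^ (orderOf g - l) := by
      push_cast
      refine Finset.sum_congr rfl fun ζ hζ => ?_
      rw [toO_coe (root_mem hn ((Polynomial.mem_nthRootsFinset hn _).mp hζ))]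
    rw [h2]
    by_cases h0 : l = 0
    · subst h0
      rw [if_pos rfl, pow_zero, MonoidAlgebra.one_def]
      congr 1
      have h4 : (∑ ζ ∈ Polynomial.nthRootsFinset (orderOf g) (1 : ℂ),
          toO O ζ ^ (orderOf g - 0) : O) = (orderOf g : ℕ) := by
        apply Subtype.ext
        rw [h3, Nat.sub_zero, sum_roots' hn]
        push_cast
        rfl
      rw [h4]
      exact unit_order hp hg
    · rw [if_neg h0]
      have h4 : (∑ ζ ∈ Polynomial.nthRootsFinset (orderOf g) (1 : ℂ),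
          toO O ζ ^ (orderOf g - l) : O) = 0 := by
        apply Subtype.ext
        rw [h3, sum_roots hn (fun h => by
          have := Nat.le_of_dvd (by omega) h
          omega)]
        rfl
      rw [h4, mul_zero, MonoidAlgebra.single_zero]
  rw [Finset.sum_congr rfl h1, Finset.sum_ite_eq' , if_pos (Finset.mem_range.mpr hn)]

lemma single_eq_sum {g : G} (hg : ¬ p ∣ orderOf g) :
    MonoidAlgebra.single g (1 : O) =
      ∑ ζ ∈ Polynomial.nthRootsFinset (orderOf g) (1 : ℂ), toO O ζ • eO O g ζ := by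
  have hn := orderOf_pos g
  calc MonoidAlgebra.single g (1 : O) = MonoidAlgebra.single g (1 : O) * 1 := (mul_one _).symm
    _ = ∑ ζ ∈ Polynomial.nthRootsFinset (orderOf g) (1 : ℂ),
        MonoidAlgebra.single g (1 : O) * eO O g ζ := by rw [← sum_eO hp hg, Finset.mul_sum]
    _ = _ := by
      refine Finset.sum_congr rfl fun ζ hζ => ?_
      exact single_mul_eig (pow_orderOf_eq_one g)
        (toO_pow hn ((Polynomial.mem_nthRootsFinset hn _).mp hζ))

/-- the Brauer character lifts the trace -/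
lemma red_brauer {g : G} (hg : ¬ p ∣ orderOf g) {V : Type} [AddCommGroup V] [Module (RF O) V]
    [FiniteDimensional (RF O) V] (σ : Representation (RF O) G V) :
    brauerChar p O σ g ∈ O ∧ red O (brauerChar p O σ g) = LinearMap.trace (RF O) V (σ g) := by
  have hn := orderOf_pos g
  have hmem : ∀ ζ ∈ Polynomial.nthRootsFinset (orderOf g) (1 : ℂ),
      (rk (IsLocalRing.residue O) σ (eO O g ζ) : ℂ) * ζ ∈ O := fun ζ hζ =>
    O.mul_mem _ _ (natCast_mem' _) (root_mem hn ((Polynomial.mem_nthRootsFinset hn _).mp hζ))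
  rw [brauer_eq hp hg]
  refine ⟨sum_mem' _ _ hmem, ?_⟩
  rw [red_sum _ _ hmem]
  have h1 : σ g = ev (IsLocalRing.residue O) σ (MonoidAlgebra.single g (1 : O)) := by
    rw [ev_single, map_one, one_smul]
  rw [h1, single_eq_sum hp hg, map_sum, map_sum]
  refine Finset.sum_congr rfl fun ζ hζ => ?_
  have hζ' := (Polynomial.mem_nthRootsFinset hn _).mp hζ
  rw [red_mul (natCast_mem' _) (root_mem hn hζ'), red_natCast, ev_smul, map_smul, toO_res,
    smul_eq_mul, mul_comm]
  congr 1
  have h2 : LinearMap.IsProj (LinearMap.range (ev (IsLocalRing.residue O) σ (eO O g ζ)))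
      (ev (IsLocalRing.residue O) σ (eO O g ζ)) :=
    (LinearMap.isProj_range_iff_isIdempotentElem _).mpr (ev_idem _ σ (eO_idem hp hg hζ'))
  rw [h2.trace, rk]

/-- a character restricted to `p`-regular elements is the Brauer character of its reduction -/
lemma regPart_eq {V : Type} [AddCommGroup V] [Module ℂ V]
    [FiniteDimensional ℂ V] (ρ : Representation ℂ G V) {n : ℕ}
    (σ : Representation (RF O) G (Fin n → RF O))
    (hσ : ∀ e : MonoidAlgebra O G, e * e = e →
        LinearMap.trace ℂ V (ev O.subtype ρ e) = rk (IsLocalRing.residue O) σ e) :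
    regPart p ρ.character = brauerChar p O σ := by
  funext g
  by_cases hg : p ∣ orderOf g
  · rw [regPart, brauerChar, if_pos hg, if_pos hg]
  · have hn := orderOf_pos g
    rw [brauer_eq hp hg, regPart, if_neg hg]
    have h1 : ρ g = ev O.subtype ρ (MonoidAlgebra.single g (1 : O)) := by
      rw [ev_single, map_one, one_smul]
    unfold Representation.character
    rw [h1, single_eq_sum hp hg, map_sum, map_sum]
    refine Finset.sum_congr rfl fun ζ hζ => ?_
    have hζ' := (Polynomial.mem_nthRootsFinset hn _).mp hζ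
    rw [ev_smul, map_smul, hσ _ (eO_idem hp hg hζ'), smul_eq_mul, mul_comm]
    congr 1
    exact toO_coe (root_mem hn hζ')

end p2

end Pool.Agent.Y60
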