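import Pool.Agent.Y60.Mod5
import Pool.Agent.Y37.BR.TR

/-!
# Linear independence of irreducible Brauer characters; decomposition numbers
-/

open scoped BigOperators Classical MonoidAlgebra
open Pool.Agent.H254R3.IN

noncomputable section

namespace Pool.Agent.Y60

variable {O : ValuationSubring ℂ} {G : Type} [Group G] [Finite G] {p : ℕ} [Fact p.Prime]
  (hp : (p : ℂ) ∈ O.nonunits)

/-- bundled finite-dimensional representations over the residue field -/
structure Md (O : ValuationSubring ℂ) (G : Type) [Group G] where
  /-- the space -/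
  V : Type
  [i1 : AddCommGroup V]
  [i2 : Module (RF O) V]
  [i3 : FiniteDimensional (RF O) V]
  /-- the action -/
  σ : Representation (RF O) G V

attribute [instance] Md.i1 Md.i2 Md.i3

omit [Finite G] in
lemma rk_equiv' {V W : Type} [AddCommGroup V] [Module (RF O) V] [AddCommGroup W]
    [Module (RF O) W] (σ : Representation (RF O) G V) (τ : Representation (RF O) G W)
    (f : Representation.Equiv σ τ) (e : MonoidAlgebra O G) :
    rk (IsLocalRing.residue O) σ e = rk (IsLocalRing.residue O) τ e := by
  refine rk_equiv _ σ τ f.toLinearEquiv (fun g v => ?_) e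
  have := LinearMap.congr_fun (f.toIntertwiningMap.isIntertwining' g) v
  exact this

omit [Fact p.Prime] in
lemma exists_power (hpp : p.Prime) : ∃ N : ℕ, ∀ g : G, ¬ p ∣ orderOf (g ^ p ^ N) := by
  refine ⟨Nat.card G, fun g hd => ?_⟩
  obtain ⟨a, m, hm, ho⟩ := Nat.exists_eq_pow_mul_and_not_dvd (orderOf_pos g).ne' p hpp.ne_one
  have ha : a ≤ Nat.card G := by
    have h1 : p ^ a ≤ Nat.card G :=
      (Nat.le_of_dvd (orderOf_pos g) (ho ▸ Dvd.intro m rfl)).trans
        (Nat.le_of_dvd Nat.card_pos (orderOf_dvd_natCard g))
    exact (Nat.lt_pow_self hpp.one_lt).le.trans h1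
  have h2 : (g ^ p ^ Nat.card G) ^ m = 1 := by
    rw [← pow_mul]
    apply orderOf_dvd_iff_pow_eq_one.mp
    rw [ho]
    exact Nat.mul_dvd_mul (pow_dvd_pow p ha) dvd_rfl
  exact hm (hd.trans (orderOf_dvd_of_pow_eq_one h2))

include hp

/-- Brauer characters of pairwise non-isomorphic irreducible representations are linearly
independent over `ℂ` -/
theorem brauer_li {ι : Type} [Fintype ι] (V : ι → Type) [∀ i, AddCommGroup (V i)]
    [∀ i, Module (RF O) (V i)] [∀ i, FiniteDimensional (RF O) (V i)]
    (σ : ∀ i, Representation (RF O) G (V i)) (hirr : ∀ i, (σ i).IsIrreducible)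
    (hne : ∀ i j, i ≠ j → IsEmpty (Representation.Equiv (σ i) (σ j))) :
    LinearIndependent ℂ (fun i => brauerChar p O (σ i)) := by
  by_contra hli
  rw [Fintype.not_linearIndependent_iff] at hli
  obtain ⟨c, hc, i, hi⟩ := hli
  obtain ⟨i0, h0, hO⟩ := exists_scale O c ⟨i, hi⟩
  haveI : CharP (RF O) p := charP_RF hp
  obtain ⟨N, hN⟩ := exists_power (G := G) (p := p) Fact.out
  have hq : 0 < p ^ N := pow_pos (Fact.out : p.Prime).pos N
  -- reduced relation on p-regular elements
  have h1 : ∀ g : G, ¬ p ∣ orderOf g →
      ∑ j, red O (c j / c i0) * LinearMap.trace (RF O) (V j) (σ j g) = 0 := by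
    intro g hg
    have h2 : ∑ j, (c j / c i0) * brauerChar p O (σ j) g = 0 := by
      have h3 := congrFun hc g
      simp only [Finset.sum_apply, Pi.smul_apply, smul_eq_mul, Pi.zero_apply] at h3
      have h4 : ∑ j, (c j / c i0) * brauerChar p O (σ j) g =
          (c i0)⁻¹ * ∑ j, c j * brauerChar p O (σ j) g := by
        rw [Finset.mul_sum]
        refine Finset.sum_congr rfl fun l _ => ?_
        field_simp
      rw [h4, h3, mul_zero]
    have h5 := congrArg (red O) h2
    rw [red_sum _ _ (fun j _ => O.mul_mem _ _ (hO j) (red_brauer hp hg (σ j)).1), red_zero] at h5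
    rw [← h5]
    refine Finset.sum_congr rfl fun j _ => ?_
    rw [red_mul (hO j) (red_brauer hp hg (σ j)).1, (red_brauer hp hg (σ j)).2]
  -- roots
  choose b hb using fun j => IsAlgClosed.exists_pow_nat_eq (red O (c j / c i0)) hq
  have h6 : ∀ g : G, ∑ j, b j * LinearMap.trace (RF O) (V j) (σ j g) = 0 := by
    intro g
    have h7 := h1 (g ^ p ^ N) (hN g)
    have h8 : (∑ j, b j * LinearMap.trace (RF O) (V j) (σ j g)) ^ p ^ N = 0 := by
      rw [sum_pow_char_pow, ← h7]
      refine Finset.sum_congr rfl fun j _ => ?_
      rw [mul_pow, hb, map_pow, lin_trace_pow p]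
    exact pow_eq_zero_iff hq.ne' |>.mp h8
  have h9 := Pool.Agent.Y37.BR.job (RF O) G ι V σ hirr hne b h6 i0
  have h10 := hb i0
  rw [h9, zero_pow hq.ne', div_self h0, red_one] at h10
  exact zero_ne_one h10

/-- irreducible representations with the same Brauer character are isomorphic -/
theorem iso_of_brauer (M N : Md O G) (hσ : M.σ.IsIrreducible)
    (hτ : N.σ.IsIrreducible) (h : brauerChar p O M.σ = brauerChar p O N.σ) :
    Nonempty (Representation.Equiv M.σ N.σ) := by
  by_contra hno
  rw [not_nonempty_iff] at hno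
  let X : Bool → Md O G := fun b => cond b M N
  have h1 := brauer_li hp (fun b => (X b).V) (fun b => (X b).σ) (by
    intro b
    cases b
    · exact hτ
    · exact hσ) (by
    intro b c hbc
    cases b <;> cases c
    · exact absurd rfl hbc
    · exact ⟨fun f => hno.false f.symm⟩
    · exact hno
    · exact absurd rfl hbc)
  have h2 : true = false := h1.injective (show brauerChar p O (X true).σ =
    brauerChar p O (X false).σ from h)
  exact Bool.noConfusion h2

omit hp [Fact p.Prime] [Finite G] in
/-- the rank of an idempotent on (a chosen representation affording) an irreducible Brauer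
character -/
def rI (p : ℕ) (O : ValuationSubring ℂ) (φ : G → ℂ) (e : MonoidAlgebra O G) : ℕ :=
  if h : ∃ M : Md O G, M.σ.IsIrreducible ∧ φ = brauerChar p O M.σ then
    rk (IsLocalRing.residue O) h.choose.σ e else 0

lemma rI_eq (M : Md O G) (hM : M.σ.IsIrreducible) (e : MonoidAlgebra O G) :
    rI p O (brauerChar p O M.σ) e = rk (IsLocalRing.residue O) M.σ e := by
  have h : ∃ N : Md O G, N.σ.IsIrreducible ∧ brauerChar p O M.σ = brauerChar p O N.σ :=
    ⟨M, hM, rfl⟩
  rw [rI, dif_pos h]
  obtain ⟨f⟩ := iso_of_brauer hp M h.choose hM h.choose_spec.1 h.choose_spec.2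
  exact (rk_equiv' _ _ f e).symm

omit hp [Finite G] [Fact p.Prime] in
lemma isIBr_iff (φ : G → ℂ) : IsIBr p O φ ↔ ∃ M : Md O G, M.σ.IsIrreducible ∧
    φ = brauerChar p O M.σ := by
  constructor
  · rintro ⟨V, i1, i2, i3, σ, h1, h2⟩
    exact ⟨⟨V, σ⟩, h1, h2⟩
  · rintro ⟨M, h1, h2⟩
    exact ⟨M.V, M.i1, M.i2, M.i3, M.σ, h1, h2⟩

/-- composition multiplicities -/
theorem exists_comp : ∀ (n : ℕ) (M : Md O G), Module.finrank (RF O) M.V = n →
    ∃ c : (G → ℂ) →₀ ℕ, (∀ φ ∈ c.support, IsIBr p O φ) ∧
      ∀ e : MonoidAlgebra O G, e * e = e →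
        rk (IsLocalRing.residue O) M.σ e = c.sum fun φ m => m * rI p O φ e := by
  intro n
  induction n using Nat.strong_induction_on with
  | _ n ih =>
    intro M hn
    rcases Nat.eq_zero_or_pos n with h0 | hpos
    · refine ⟨0, by simp, fun e _ => ?_⟩
      have h1 : rk (IsLocalRing.residue O) M.σ e ≤ Module.finrank (RF O) M.V :=
        Submodule.finrank_le _
      rw [Finsupp.sum_zero_index]
      omega
    · by_cases hirr : M.σ.IsIrreducible
      · refine ⟨Finsupp.single (brauerChar p O M.σ) 1, fun φ hφ => ?_, fun e he => ?_⟩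
        · have := Finsupp.support_single_subset hφ
          rw [Finset.mem_singleton] at this
          rw [this]
          exact (isIBr_iff _).mpr ⟨M, hirr, rfl⟩
        · rw [Finsupp.sum_single_index (by simp), one_mul, rI_eq hp M hirr]
      · -- a proper nonzero subrepresentation
        have hnt : Nontrivial M.V := Module.nontrivial_of_finrank_pos (R := RF O) (by omega)
        have hsub : ∃ W : Subrepresentation M.σ, W ≠ ⊥ ∧ W ≠ ⊤ := by
          by_contra hno
          push Not at hno
          apply hirr
          haveI : Nontrivial (Subrepresentation M.σ) := by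
            refine ⟨⟨⊥, ⊤, fun h => ?_⟩⟩
            obtain ⟨v, hv⟩ := exists_ne (0 : M.V)
            have h1 : v ∈ (⊤ : Subrepresentation M.σ) := trivial
            rw [← h] at h1
            exact hv h1
          exact ⟨fun W => by
            by_cases h : W = ⊥
            · exact Or.inl h
            · exact Or.inr (hno W h)⟩
        obtain ⟨W, hW0, hW1⟩ := hsub
        have hlt1 : Module.finrank (RF O) W.toSubmodule < n := by
          rw [← hn]
          apply Submodule.finrank_lt
          intro h
          apply hW1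
          exact Subrepresentation.toSubmodule_injective h
        have hadd := Submodule.finrank_quotient_add_finrank W.toSubmodule
        have hpos1 : 0 < Module.finrank (RF O) W.toSubmodule := by
          rw [Module.finrank_pos_iff]
          rw [Submodule.nontrivial_iff_ne_bot]
          intro h
          apply hW0
          exact Subrepresentation.toSubmodule_injective h
        let M1 : Md O G := ⟨W.toSubmodule, W.toRepresentation⟩
        let M2 : Md O G := ⟨M.V ⧸ W.toSubmodule, quo M.σ W⟩
        obtain ⟨c1, hc1, hd1⟩ := ih _ hlt1 M1 rfl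
        obtain ⟨c2, hc2, hd2⟩ := ih (Module.finrank (RF O) (M.V ⧸ W.toSubmodule))
          (by omega) M2 rfl
        refine ⟨c1 + c2, fun φ hφ => ?_, fun e he => ?_⟩
        · rcases Finset.mem_union.mp (Finsupp.support_add hφ) with h | h
          · exact hc1 φ h
          · exact hc2 φ h
        · rw [rk_add _ M.σ W he, Finsupp.sum_add_index' (by simp) (by intros; ring),
            ← hd1 e he, ← hd2 e he]

end Pool.Agent.Y60
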