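import Pool.Agent.Y60.Mod6

/-!
# Decomposition numbers: existence, uniqueness, idempotents, projective characters
-/

open scoped BigOperators Classical MonoidAlgebra
open Pool.Agent.H254R3.IN Pool.Agent.Helper884

noncomputable section

namespace Pool.Agent.Y60

variable {O : ValuationSubring ℂ} {G : Type} [Group G] [Fintype G] {p : ℕ} [Fact p.Prime]
  (hp : (p : ℂ) ∈ O.nonunits)

/-- the value of a function on `G` at an element of the group ring `O[G]` -/
def cv (O : ValuationSubring ℂ) (χ : G → ℂ) (e : MonoidAlgebra O G) : ℂ :=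
  ∑ g : G, (e.coeff g : ℂ) * χ g

lemma cv_trace {V : Type} [AddCommGroup V] [Module ℂ V] [FiniteDimensional ℂ V]
    (ρ : Representation ℂ G V) (e : MonoidAlgebra O G) :
    LinearMap.trace ℂ V (ev O.subtype ρ e) = cv O ρ.character e := by
  induction e using MonoidAlgebra.induction_linear with
  | zero => simp [cv]
  | add x y hx hy =>
    rw [map_add, map_add, hx, hy, cv, cv, cv, ← Finset.sum_add_distrib]
    refine Finset.sum_congr rfl fun g _ => ?_
    rw [MonoidAlgebra.coeff_add, Finsupp.add_apply]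
    push_cast
    ring
  | single g a =>
    rw [ev_single, map_smul, cv, Finset.sum_eq_single g]
    · rw [MonoidAlgebra.coeff_single, Finsupp.single_eq_same]
      rfl
    · intro h _ hne
      rw [MonoidAlgebra.coeff_single, Finsupp.single_eq_of_ne hne]
      simp
    · intro h
      exact absurd (Finset.mem_univ g) h

include hp

omit [Fintype G] in
/-- the irreducible Brauer characters are linearly independent -/
theorem ibr_li [Finite G] : LinearIndependent ℂ (fun φ : {φ : G → ℂ // IsIBr p O φ} => φ.1) := by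
  rw [linearIndependent_iff_finset_linearIndependent]
  intro s
  choose M hM1 hM2 using fun φ : s => (isIBr_iff (φ.1.1)).mp φ.1.2
  have h := brauer_li hp (fun φ : s => (M φ).V) (fun φ => (M φ).σ) hM1 (by
    intro φ ψ hne
    refine ⟨fun f => hne ?_⟩
    apply Subtype.ext
    apply Subtype.ext
    rw [hM2 φ, hM2 ψ]
    exact brauer_congr hp _ _ (fun e _ => rk_equiv' _ _ f e))
  have h2 : (fun φ : s => brauerChar p O (M φ).σ) =
      (fun φ : {φ : G → ℂ // IsIBr p O φ} => φ.1) ∘ Subtype.val := by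
    funext φ
    exact (hM2 φ).symm
  rw [← h2]
  exact h

omit [Fintype G] in
theorem ibr_finite [Finite G] : {φ : G → ℂ | IsIBr p O φ}.Finite := by
  haveI := Fintype.ofFinite G
  have h := ibr_li (G := G) hp
  exact h.setFinite

/-- the finite set `IBr(G)` -/
def IBrF : Finset (G → ℂ) := (ibr_finite (G := G) hp).toFinset

lemma mem_IBrF {φ : G → ℂ} : φ ∈ IBrF (G := G) hp ↔ IsIBr p O φ := by
  simp [IBrF]

lemma finsum_ibr {M : Type*} [AddCommMonoid M] (f : (G → ℂ) → M) :
    ∑ᶠ φ ∈ {φ : G → ℂ | IsIBr p O φ}, f φ = ∑ φ ∈ IBrF (G := G) hp, f φ := by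
  rw [finsum_mem_eq_finite_toFinset_sum f (ibr_finite (G := G) hp)]
  rfl

/-- coefficients are determined -/
lemma ibr_unique (a : (G → ℂ) → ℂ) (h : ∑ φ ∈ IBrF (G := G) hp, a φ • φ = 0) :
    ∀ φ, IsIBr p O φ → a φ = 0 := by
  intro φ hφ
  have h1 := ibr_li (G := G) hp
  have h2 : LinearIndependent ℂ (fun φ : IBrF (G := G) hp => (φ : G → ℂ)) := by
    have h3 := h1.comp (fun φ : IBrF (G := G) hp =>
      (⟨φ.1, (mem_IBrF hp).mp φ.2⟩ : {φ : G → ℂ // IsIBr p O φ})) (by
        intro a b hab
        exact Subtype.ext (congrArg (fun x : {φ : G → ℂ // IsIBr p O φ} => x.1) hab))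
    exact h3
  rw [Fintype.linearIndependent_iff] at h2
  have h4 := h2 (fun φ => a φ) (by
    rw [← h]
    exact Finset.sum_coe_sort (IBrF (G := G) hp) (fun φ => a φ • φ)) ⟨φ, (mem_IBrF hp).mpr hφ⟩
  exact h4

/-- existence of decomposition numbers, with the values of the characters at idempotents -/
theorem exists_decomp : ∃ d : (G → ℂ) → (G → ℂ) → ℕ, IsDecomp p O d ∧
    ∀ χ : G → ℂ, IsIrr χ → ∀ e : MonoidAlgebra O G, e * e = e →
      cv O χ e = ∑ φ ∈ IBrF (G := G) hp, (d χ φ : ℂ) * rI p O φ e := by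
  have key : ∀ χ : G → ℂ, ∃ c : (G → ℂ) → ℕ, IsIrr χ →
      (regPart p χ = ∑ φ ∈ IBrF (G := G) hp, (c φ : ℂ) • φ) ∧
      ∀ e : MonoidAlgebra O G, e * e = e →
        cv O χ e = ∑ φ ∈ IBrF (G := G) hp, (c φ : ℂ) * rI p O φ e := by
    intro χ
    by_cases hχ : IsIrr χ
    · obtain ⟨V, _, _, _, ρ, hρ, rfl⟩ := hχ
      obtain ⟨n, σ, hσ⟩ := exists_reduction (O := O) ρ
      let M : Md O G := ⟨Fin n → RF O, σ⟩
      obtain ⟨c, hc, hd⟩ := exists_comp hp _ M rfl
      have hsum : ∀ e : MonoidAlgebra O G, e * e = e →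
          (rk (IsLocalRing.residue O) σ e : ℂ) =
            ∑ φ ∈ IBrF (G := G) hp, (c φ : ℂ) * rI p O φ e := by
        intro e he
        have h1 := hd e he
        have h2 : (c.sum fun φ m => m * rI p O φ e) =
            ∑ φ ∈ IBrF (G := G) hp, c φ * rI p O φ e := by
          apply Finsupp.sum_of_support_subset
          · intro φ hφ
            exact (mem_IBrF hp).mpr (hc φ hφ)
          · intro φ _
            rw [zero_mul]
        have h3 : rk (IsLocalRing.residue O) σ e = ∑ φ ∈ IBrF (G := G) hp, c φ * rI p O φ e := by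
          rw [← h2, ← h1]
        rw [h3]
        push_cast
        rfl
      refine ⟨c, fun _ => ⟨?_, fun e he => ?_⟩⟩
      · rw [regPart_eq hp ρ σ hσ]
        funext g
        rw [Finset.sum_apply]
        by_cases hg : p ∣ orderOf g
        · rw [brauerChar, if_pos hg]
          symm
          apply Finset.sum_eq_zero
          intro φ hφ
          obtain ⟨N, hN1, hN2⟩ := (isIBr_iff φ).mp ((mem_IBrF hp).mp hφ)
          rw [Pi.smul_apply, hN2, brauerChar, if_pos hg, smul_zero]
        · rw [brauer_eq hp hg]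
          have h1 : ∀ ζ ∈ Polynomial.nthRootsFinset (orderOf g) (1 : ℂ),
              (rk (IsLocalRing.residue O) σ (eO O g ζ) : ℂ) * ζ =
                ∑ φ ∈ IBrF (G := G) hp, (c φ : ℂ) * rI p O φ (eO O g ζ) * ζ := by
            intro ζ hζ
            rw [hsum _ (eO_idem hp hg ((Polynomial.mem_nthRootsFinset (orderOf_pos g) _).mp hζ)),
              Finset.sum_mul]
          rw [Finset.sum_congr rfl h1, Finset.sum_comm]
          refine Finset.sum_congr rfl fun φ hφ => ?_
          obtain ⟨N, hN1, hN2⟩ := (isIBr_iff φ).mp ((mem_IBrF hp).mp hφ)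
          rw [Pi.smul_apply, smul_eq_mul]
          conv_rhs => rw [hN2, brauer_eq hp hg]
          rw [Finset.mul_sum]
          refine Finset.sum_congr rfl fun ζ hζ => ?_
          rw [hN2, rI_eq hp N hN1]
          ring
      · rw [← cv_trace, hσ e he]
        exact hsum e he
    · exact ⟨0, fun h => absurd h hχ⟩
  choose d hd using key
  refine ⟨d, fun χ hχ => ?_, fun χ hχ => (hd χ hχ).2⟩
  rw [finsum_ibr hp]
  exact (hd χ hχ).1

/-- uniqueness of decomposition numbers -/
theorem decomp_unique {d d' : (G → ℂ) → (G → ℂ) → ℕ} (h : IsDecomp p O d)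
    (h' : IsDecomp p O d') (χ : G → ℂ) (hχ : IsIrr χ) (φ : G → ℂ) (hφ : IsIBr p O φ) :
    d χ φ = d' χ φ := by
  have h1 := h χ hχ
  have h2 := h' χ hχ
  rw [finsum_ibr hp] at h1 h2
  have h3 := ibr_unique hp (fun φ => (d χ φ : ℂ) - d' χ φ) (by
    simp only [sub_smul, Finset.sum_sub_distrib]
    rw [← h1, ← h2, sub_self]) φ hφ
  have h4 : (d χ φ : ℂ) = d' χ φ := sub_eq_zero.mp h3
  exact_mod_cast h4

end Pool.Agent.Y60
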