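import Pool.Agent.Y60.Mod7

/-!
# Column orthogonality and projective characters
-/

open scoped BigOperators Classical MonoidAlgebra
open Pool.Agent.H254R3.IN Pool.Agent.Helper884

noncomputable section

namespace Pool.Agent.Y60

variable {G : Type} [Group G] [Fintype G]

lemma irr_iff {χ : G → ℂ} : χ ∈ IC.Irr G ↔ IsIrr χ := IC.mem_Irr

/-- second orthogonality relation -/
theorem col_orth (g h : G) : ∑ χ ∈ IC.Irr G, χ g * χ h⁻¹ =
    if IsConj h g then (Nat.card (Subgroup.centralizer ({h} : Set G)) : ℂ) else 0 := by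
  have h1 := congrFun (IC.expand (ind h) (ind_cl h)) g
  rw [Finset.sum_apply] at h1
  have hG : (Nat.card G : ℂ) ≠ 0 := by exact_mod_cast Nat.card_pos.ne'
  have hC : (Nat.card (Subgroup.centralizer ({h} : Set G)) : ℂ) ≠ 0 := by
    exact_mod_cast (card_centralizer_pos h).ne'
  have hK : (Nat.card {y : G // IsConj h y} : ℂ) *
      Nat.card (Subgroup.centralizer ({h} : Set G)) = Nat.card G := by
    exact_mod_cast card_class_mul h
  have h2 : ∀ χ ∈ IC.Irr G, (IC.B (ind h) χ • χ) g =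
      (Nat.card (Subgroup.centralizer ({h} : Set G)) : ℂ)⁻¹ * (χ g * χ h⁻¹) := by
    intro χ hχ
    have hχ' := irr_iff.mp hχ
    have h3 : ∑ x : G, ind h x * χ x⁻¹ = (Nat.card {y : G // IsConj h y} : ℂ) * χ h⁻¹ := by
      have h4 : ∀ x : G, ind h x * χ x⁻¹ = if IsConj h x then χ h⁻¹ else 0 := by
        intro x
        rw [ind]
        by_cases hx : IsConj h x
        · rw [if_pos hx, if_pos hx, one_mul]
          obtain ⟨c, rfl⟩ := isConj_iff.mp hx
          have h5 : (c * h * c⁻¹)⁻¹ = c * h⁻¹ * c⁻¹ := by group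
          rw [h5, hχ'.conj]
        · rw [if_neg hx, if_neg hx, zero_mul]
      rw [Finset.sum_congr rfl fun x _ => h4 x, ← Finset.sum_filter, Finset.sum_const,
        nsmul_eq_mul, Nat.card_eq_fintype_card, Fintype.card_subtype]
    rw [Pi.smul_apply, smul_eq_mul, IC.B, h3]
    rw [← hK]
    field_simp
  rw [Finset.sum_congr rfl h2, ← Finset.mul_sum] at h1
  have h6 : ∑ χ ∈ IC.Irr G, χ g * χ h⁻¹ =
      (Nat.card (Subgroup.centralizer ({h} : Set G)) : ℂ) * ind h g := by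
    rw [h1, mul_inv_cancel_left₀ hC]
  rw [h6, ind]
  split_ifs <;> simp

variable {O : ValuationSubring ℂ} {p : ℕ} [Fact p.Prime] (hp : (p : ℂ) ∈ O.nonunits)

include hp

omit [Fintype G] in
lemma ibr_sing {φ : G → ℂ} (hφ : IsIBr p O φ) {g : G} (hg : p ∣ orderOf g) : φ g = 0 := by
  obtain ⟨N, hN1, hN2⟩ := (isIBr_iff φ).mp hφ
  rw [hN2, brauerChar, if_pos hg]

/-- the projective characters vanish on `p`-singular elements -/
theorem proj_sing {d : (G → ℂ) → (G → ℂ) → ℕ} (hd : IsDecomp p O d) {φ : G → ℂ}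
    (hφ : IsIBr p O φ) {y : G} (hy : p ∣ orderOf y) :
    ∑ χ ∈ IC.Irr G, (d χ φ : ℂ) * χ y = 0 := by
  refine ibr_unique hp (fun φ => ∑ χ ∈ IC.Irr G, (d χ φ : ℂ) * χ y) ?_ φ hφ
  funext g
  rw [Finset.sum_apply, Pi.zero_apply]
  by_cases hg : p ∣ orderOf g
  · apply Finset.sum_eq_zero
    intro ψ hψ
    rw [Pi.smul_apply, ibr_sing hp ((mem_IBrF hp).mp hψ) hg, smul_zero]
  · have h1 : ∑ ψ ∈ IBrF (G := G) hp, ((∑ χ ∈ IC.Irr G, (d χ ψ : ℂ) * χ y) • ψ) g =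
        ∑ χ ∈ IC.Irr G, χ y * ∑ ψ ∈ IBrF (G := G) hp, (d χ ψ : ℂ) * ψ g := by
      simp only [Pi.smul_apply, smul_eq_mul, Finset.sum_mul, Finset.mul_sum]
      rw [Finset.sum_comm]
      refine Finset.sum_congr rfl fun χ _ => Finset.sum_congr rfl fun ψ _ => ?_
      ring
    rw [h1]
    have h2 : ∀ χ ∈ IC.Irr G, χ y * ∑ ψ ∈ IBrF (G := G) hp, (d χ ψ : ℂ) * ψ g = χ g * χ y⁻¹⁻¹ := by
      intro χ hχ
      have h3 := hd χ (irr_iff.mp hχ)
      rw [finsum_ibr hp] at h3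
      have h4 := congrFun h3 g
      rw [regPart, if_neg hg, Finset.sum_apply] at h4
      simp only [Pi.smul_apply, smul_eq_mul] at h4
      rw [← h4, inv_inv, mul_comm]
    rw [Finset.sum_congr rfl h2, col_orth, if_neg]
    intro hc
    obtain ⟨c, hc⟩ := isConj_iff.mp hc
    apply hg
    rw [← hc]
    have h5 : orderOf (c * y⁻¹ * c⁻¹) = orderOf y := by
      rw [← MulAut.conj_apply, MulEquiv.orderOf_eq, orderOf_inv]
    rw [h5]
    exact hy

omit hp [Fintype G] [Fact p.Prime] in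
lemma sum_pow_nat [Finite G] {χ : G → ℂ} (hχ : IsIrr χ) (h : G) (hh : orderOf h = p) (hp0 : 0 < p) :
    ∃ m : ℕ, ∑ i ∈ Finset.range p, χ (h ^ i) = p * m := by
  obtain ⟨V, _, _, _, ρ, hρ, rfl⟩ := hχ
  have hp1 : (p : ℂ) ≠ 0 := by exact_mod_cast hp0.ne'
  have he : eig (R := ℂ) h p (p : ℂ)⁻¹ 1 * eig h p (p : ℂ)⁻¹ 1 = eig h p (p : ℂ)⁻¹ 1 :=
    eig_idem (by rw [← hh]; exact pow_orderOf_eq_one h) (one_pow _) (inv_mul_cancel₀ hp1)
  have h1 := trace_idem (ev (RingHom.id ℂ) ρ (eig h p (p : ℂ)⁻¹ 1))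
    (ev_idem (RingHom.id ℂ) ρ he)
  refine ⟨Module.finrank ℂ (LinearMap.range (ev (RingHom.id ℂ) ρ (eig h p (p : ℂ)⁻¹ 1))), ?_⟩
  rw [← h1, eig, map_sum, map_sum, Finset.mul_sum]
  refine Finset.sum_congr rfl fun i _ => ?_
  rw [ev_single, map_smul, one_pow, mul_one, smul_eq_mul, RingHom.id_apply,
    mul_inv_cancel_left₀ hp1]
  rfl

/-- `p` divides the degrees of the projective characters -/
theorem proj_deg (hpG : p ∣ Nat.card G) {d : (G → ℂ) → (G → ℂ) → ℕ} (hd : IsDecomp p O d)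
    {φ : G → ℂ} (hφ : IsIBr p O φ) :
    ∃ m : ℕ, ∑ χ ∈ IC.Irr G, (d χ φ : ℂ) * χ 1 = p * m := by
  obtain ⟨h, hh⟩ := exists_prime_orderOf_dvd_card' (G := G) p hpG
  have hp0 : 0 < p := (Fact.out : p.Prime).pos
  have key : ∀ χ : G → ℂ, ∃ m : ℕ, IsIrr χ → ∑ i ∈ Finset.range p, χ (h ^ i) = p * m := by
    intro χ
    by_cases hχ : IsIrr χ
    · obtain ⟨m, hm⟩ := sum_pow_nat hχ h hh hp0
      exact ⟨m, fun _ => hm⟩
    · exact ⟨0, fun h => absurd h hχ⟩
  choose m hm using key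
  refine ⟨∑ χ ∈ IC.Irr G, d χ φ * m χ, ?_⟩
  have h1 : ∑ i ∈ Finset.range p, ∑ χ ∈ IC.Irr G, (d χ φ : ℂ) * χ (h ^ i) =
      ∑ χ ∈ IC.Irr G, (d χ φ : ℂ) * χ 1 := by
    rw [Finset.sum_eq_single 0]
    · rw [pow_zero]
    · intro i hi hi0
      apply proj_sing hp hd hφ
      have h2 : orderOf (h ^ i) = p := by
        rw [orderOf_pow' h hi0, hh, Nat.Coprime.gcd_eq_one, Nat.div_one]
        rw [Nat.Prime.coprime_iff_not_dvd Fact.out]
        intro h3
        exact absurd (Nat.le_of_dvd (Nat.pos_of_ne_zero hi0) h3)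
          (not_le.mpr (Finset.mem_range.mp hi))
      rw [h2]
    · intro h0
      exact absurd (Finset.mem_range.mpr hp0) h0
  rw [← h1, Finset.sum_comm]
  push_cast
  rw [Finset.mul_sum]
  refine Finset.sum_congr rfl fun χ hχ => ?_
  rw [← Finset.mul_sum, hm χ (irr_iff.mp hχ)]
  ring

end Pool.Agent.Y60
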