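import Pool.Agent.Y60.Mod8

/-!
# Multiplicities of Brauer characters in arbitrary complex representations
-/

open scoped BigOperators Classical MonoidAlgebra
open Pool.Agent.H254R3.IN Pool.Agent.Helper884

noncomputable section

namespace Pool.Agent.Y60

variable {O : ValuationSubring ℂ} {G : Type} [Group G] [Fintype G] {p : ℕ} [Fact p.Prime]
  (hp : (p : ℂ) ∈ O.nonunits)

include hp

/-- multiplicities of the irreducible Brauer characters in a complex representation -/
theorem exists_mult {V : Type} [AddCommGroup V] [Module ℂ V] [FiniteDimensional ℂ V]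
    (ρ : Representation ℂ G V) : ∃ c : (G → ℂ) → ℕ,
      (regPart p ρ.character = ∑ φ ∈ IBrF (G := G) hp, (c φ : ℂ) • φ) ∧
      ∀ e : MonoidAlgebra O G, e * e = e →
        cv O ρ.character e = ∑ φ ∈ IBrF (G := G) hp, (c φ : ℂ) * rI p O φ e := by
  obtain ⟨n, σ, hσ⟩ := exists_reduction (O := O) ρ
  let M : Md O G := ⟨Fin n → RF O, σ⟩
  obtain ⟨c, hc, hd⟩ := exists_comp hp _ M rfl
  have hsum : ∀ e : MonoidAlgebra O G, e * e = e →
      (rk (IsLocalRing.residue O) σ e : ℂ) =
        ∑ φ ∈ IBrF (G := G) hp, (c φ : ℂ) * rI p O φ e := by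
    intro e he
    have h1 := hd e he
    have h2 : (c.sum fun φ m => m * rI p O φ e) =
        ∑ φ ∈ IBrF (G := G) hp, c φ * rI p O φ e := by
      apply Finsupp.sum_of_support_subset
      · intro φ hφ
        exact (mem_IBrF hp).mpr (hc φ hφ)
      · intro φ _
        rw [zero_mul]
    have h3 : rk (IsLocalRing.residue O) σ e = ∑ φ ∈ IBrF (G := G) hp, c φ * rI p O φ e := by
      rw [← h2, ← h1]
    rw [h3]
    push_cast
    rfl
  refine ⟨c, ?_, fun e he => ?_⟩
  · rw [regPart_eq hp ρ σ hσ]
    funext g
    rw [Finset.sum_apply]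
    by_cases hg : p ∣ orderOf g
    · rw [brauerChar, if_pos hg]
      symm
      apply Finset.sum_eq_zero
      intro φ hφ
      obtain ⟨N, hN1, hN2⟩ := (isIBr_iff φ).mp ((mem_IBrF hp).mp hφ)
      rw [Pi.smul_apply, hN2, brauerChar, if_pos hg, smul_zero]
    · rw [brauer_eq hp hg]
      have h1 : ∀ ζ ∈ Polynomial.nthRootsFinset (orderOf g) (1 : ℂ),
          (rk (IsLocalRing.residue O) σ (eO O g ζ) : ℂ) * ζ =
            ∑ φ ∈ IBrF (G := G) hp, (c φ : ℂ) * rI p O φ (eO O g ζ) * ζ := by
        intro ζ hζ
        rw [hsum _ (eO_idem hp hg ((Polynomial.mem_nthRootsFinset (orderOf_pos g) _).mp hζ)),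
          Finset.sum_mul]
      rw [Finset.sum_congr rfl h1, Finset.sum_comm]
      refine Finset.sum_congr rfl fun φ hφ => ?_
      obtain ⟨N, hN1, hN2⟩ := (isIBr_iff φ).mp ((mem_IBrF hp).mp hφ)
      rw [Pi.smul_apply, smul_eq_mul]
      conv_rhs => rw [hN2, brauer_eq hp hg]
      rw [Finset.mul_sum]
      refine Finset.sum_congr rfl fun ζ hζ => ?_
      rw [hN2, rI_eq hp N hN1]
      ring
  · rw [← cv_trace, hσ e he]
    exact hsum e he

omit hp [Fintype G] [Fact p.Prime] in
/-- traces of idempotents are ranks -/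
lemma trace_rk {V : Type} [AddCommGroup V] [Module ℂ V] [FiniteDimensional ℂ V]
    (ρ : Representation ℂ G V) {e : MonoidAlgebra O G} (he : e * e = e) :
    LinearMap.trace ℂ V (ev O.subtype ρ e) = rk O.subtype ρ e := by
  have h2 : LinearMap.IsProj (LinearMap.range (ev O.subtype ρ e)) (ev O.subtype ρ e) :=
    (LinearMap.isProj_range_iff_isIdempotentElem _).mpr (ev_idem _ ρ he)
  rw [h2.trace, rk]

omit hp [Fact p.Prime] in
/-- additivity of the values at idempotents -/
lemma cv_add {V : Type} [AddCommGroup V] [Module ℂ V] [FiniteDimensional ℂ V]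
    (ρ : Representation ℂ G V) (W : Subrepresentation ρ) {e : MonoidAlgebra O G} (he : e * e = e) :
    cv O ρ.character e = cv O W.toRepresentation.character e + cv O (quo ρ W).character e := by
  rw [← cv_trace, ← cv_trace, ← cv_trace, trace_rk ρ he, trace_rk _ he, trace_rk _ he,
    rk_add _ ρ W he]
  push_cast
  rfl

/-- additivity of characters at `p`-regular elements -/
lemma char_add {V : Type} [AddCommGroup V] [Module ℂ V] [FiniteDimensional ℂ V]
    (ρ : Representation ℂ G V) (W : Subrepresentation ρ) :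
    regPart p ρ.character = regPart p W.toRepresentation.character +
      regPart p (quo ρ W).character := by
  funext g
  rw [Pi.add_apply, regPart, regPart, regPart]
  by_cases hg : p ∣ orderOf g
  · rw [if_pos hg, if_pos hg, if_pos hg, add_zero]
  · rw [if_neg hg, if_neg hg, if_neg hg]
    have hn := orderOf_pos g
    have key : ∀ {X : Type} [AddCommGroup X] [Module ℂ X] [FiniteDimensional ℂ X]
        (σ : Representation ℂ G X), σ.character g =
          ∑ ζ ∈ Polynomial.nthRootsFinset (orderOf g) (1 : ℂ), ζ * rk O.subtype σ (eO O g ζ) := by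
      intro X _ _ _ σ
      have h1 : σ g = ev O.subtype σ (MonoidAlgebra.single g (1 : O)) := by
        rw [ev_single, map_one, one_smul]
      unfold Representation.character
      rw [h1, single_eq_sum hp hg, map_sum, map_sum]
      refine Finset.sum_congr rfl fun ζ hζ => ?_
      have hζ' := (Polynomial.mem_nthRootsFinset hn _).mp hζ
      rw [ev_smul, map_smul, trace_rk _ (eO_idem hp hg hζ'), smul_eq_mul]
      congr 1
      exact toO_coe (root_mem hn hζ')
    rw [key, key, key, ← Finset.sum_add_distrib]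
    refine Finset.sum_congr rfl fun ζ hζ => ?_
    have hζ' := (Polynomial.mem_nthRootsFinset hn _).mp hζ
    rw [rk_add _ ρ W (eO_idem hp hg hζ')]
    push_cast
    ring

end Pool.Agent.Y60
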