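import Pool.Agent.Y60.Pg1

/-!
# Unipotent elements of `SL(2, F)` and the idempotents of their additive characters
-/

open scoped BigOperators Classical MonoidAlgebra MatrixGroups
open Pool.Agent.H254R3.IN Pool.Agent.Helper884

noncomputable section

namespace Pool.Agent.Y60

section sl

variable {F : Type} [Field F]

/-- upper unipotent matrices -/
def uu (b : F) : SL(2, F) := ⟨!![1, b; 0, 1], by simp [Matrix.det_fin_two]⟩

/-- lower unipotent matrices -/
def ll (c : F) : SL(2, F) := ⟨!![1, 0; c, 1], by simp [Matrix.det_fin_two]⟩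

lemma uu_mul (b c : F) : uu b * uu c = uu (b + c) := by
  apply Subtype.ext
  change !![1, b; 0, 1] * !![1, c; 0, 1] = !![1, b + c; 0, 1]
  ext i j
  fin_cases i <;> fin_cases j <;> simp [Matrix.mul_apply, Fin.sum_univ_two, add_comm]

lemma uu_zero : uu (0 : F) = 1 := by
  apply Subtype.ext
  ext i j
  fin_cases i <;> fin_cases j <;> simp [uu]

/-- the Weyl element -/
def ww : SL(2, F) := ⟨!![0, 1; -1, 0], by simp [Matrix.det_fin_two]⟩

lemma ll_eq (c : F) : ll c = ww * uu (-c) * ww⁻¹ := by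
  rw [eq_mul_inv_iff_mul_eq]
  apply Subtype.ext
  change !![1, 0; c, 1] * !![0, 1; -1, 0] = !![0, 1; -1, 0] * !![1, -c; 0, 1]
  ext i j
  fin_cases i <;> fin_cases j <;> simp [Matrix.mul_apply, Fin.sum_univ_two]

/-- a normal subgroup containing the upper unipotent matrices is everything -/
lemma normal_top (N : Subgroup SL(2, F)) [N.Normal] (h : ∀ b : F, uu b ∈ N) : N = ⊤ := by
  have hl : ∀ c : F, ll c ∈ N := fun c => by
    rw [ll_eq]
    exact ‹N.Normal›.conj_mem _ (h _) _
  have key : ∀ g : SL(2, F), g.1 1 0 ≠ 0 → g ∈ N := by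
    intro g hg
    have hdet : g.1 0 0 * g.1 1 1 - g.1 0 1 * g.1 1 0 = 1 := by
      rw [← Matrix.det_fin_two]
      exact g.2
    have h1 : g = uu ((g.1 0 0 - 1) / g.1 1 0) * ll (g.1 1 0) * uu ((g.1 1 1 - 1) / g.1 1 0) := by
      apply Subtype.ext
      change g.1 = !![1, (g.1 0 0 - 1) / g.1 1 0; 0, 1] * !![1, 0; g.1 1 0, 1] *
        !![1, (g.1 1 1 - 1) / g.1 1 0; 0, 1]
      ext i j
      fin_cases i <;> fin_cases j <;>
        simp only [Matrix.mul_apply, Fin.sum_univ_two, Matrix.of_apply, Matrix.cons_val',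
          Matrix.cons_val_zero, Matrix.cons_val_one, Matrix.cons_val_fin_one, Fin.isValue,
          Fin.zero_eta, Fin.mk_one]
      · field_simp
        ring
      · field_simp
        linear_combination (-1 : F) * hdet
      · ring
      · field_simp
        ring
    rw [h1]
    exact N.mul_mem (N.mul_mem (h _) (hl _)) (h _)
  rw [eq_top_iff]
  intro g _
  by_cases hg : g.1 1 0 = 0
  · have hdet : g.1 0 0 * g.1 1 1 - g.1 0 1 * g.1 1 0 = 1 := by
      rw [← Matrix.det_fin_two]
      exact g.2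
    rw [hg, mul_zero, sub_zero] at hdet
    have hne : g.1 1 1 ≠ 0 := fun h0 => by
      rw [h0, mul_zero] at hdet
      exact zero_ne_one hdet
    have h1 : (g * ll 1).1 1 0 = g.1 1 1 := by
      have h3 : (g * ll 1).1 = g.1 * !![1, 0; 1, 1] := rfl
      rw [h3]
      simp [Matrix.mul_apply, Fin.sum_univ_two, hg]
    have h2 : g * ll 1 ∈ N := key _ (by rw [h1]; exact hne)
    exact (Subgroup.mul_mem_cancel_right N (hl 1)).mp h2
  · exact key g hg

end sl

section ea

variable {F : Type} [Field F] [Fintype F] {H : Type} [Group H] [Fintype H] (ι : H ≃* SL(2, F))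
  (ψ : AddChar F ℂ)

/-- the upper unipotent elements of `H` -/
def uH (b : F) : H := ι.symm (uu b)

omit [Fintype F] [Fintype H] in
lemma uH_mul (b c : F) : uH ι b * uH ι c = uH ι (b + c) := by
  rw [uH, uH, uH, ← map_mul, uu_mul]

omit [Fintype F] [Fintype H] in
lemma uH_zero : uH ι (0 : F) = 1 := by
  rw [uH, uu_zero, map_one]

/-- the idempotent of an additive character -/
def eA (O : ValuationSubring ℂ) (a : F) : MonoidAlgebra O H :=
  ∑ b : F, MonoidAlgebra.single (uH ι b)
    (toO O ((Fintype.card F : ℂ)⁻¹) * toO O (ψ (-(a * b))))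

variable {O : ValuationSubring ℂ} (hp : ((2 : ℕ) : ℂ) ∈ O.nonunits) (hq : Odd (Fintype.card F))

omit [Fintype H] in
lemma psi_mem (x : F) : ψ x ∈ O := by
  have h : (ψ x) ^ (Fintype.card F) = 1 := by
    rw [← AddChar.map_nsmul_eq_pow, ← Nat.card_eq_fintype_card, card_nsmul_eq_zero', AddChar.map_zero_eq_one]
  exact root_mem Fintype.card_pos h

include hp hq

lemma qinv_mem : ((Fintype.card F : ℂ)⁻¹) ∈ O := by
  haveI : Fact (Nat.Prime 2) := ⟨Nat.prime_two⟩
  exact nat_inv_mem hp (by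
    intro h
    exact (Nat.not_even_iff_odd.mpr hq) (even_iff_two_dvd.mpr h))

lemma card_ne : (Fintype.card F : ℂ) ≠ 0 := by
  exact_mod_cast Fintype.card_ne_zero

/-- the action of the idempotent on a complex representation -/
lemma ev_eA {V : Type} [AddCommGroup V] [Module ℂ V] (ρ : Representation ℂ H V) (a : F) :
    ev O.subtype ρ (eA ι ψ O a) =
      (Fintype.card F : ℂ)⁻¹ • ∑ b : F, ψ (-(a * b)) • ρ (uH ι b) := by
  rw [eA, map_sum, Finset.smul_sum]
  refine Finset.sum_congr rfl fun b _ => ?_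
  rw [ev_single, map_mul, smul_smul]
  congr 2
  · exact toO_coe (qinv_mem hp hq)
  · exact toO_coe (psi_mem ψ _)

lemma eA_idem (hψ : ψ.IsPrimitive) (a : F) : eA ι ψ O a * eA ι ψ O a = eA ι ψ O a := by
  have h1 : ∀ b c : F, MonoidAlgebra.single (uH ι b)
      (toO O ((Fintype.card F : ℂ)⁻¹) * toO O (ψ (-(a * b)))) * MonoidAlgebra.single (uH ι c)
      (toO O ((Fintype.card F : ℂ)⁻¹) * toO O (ψ (-(a * c)))) =
      MonoidAlgebra.single (uH ι (b + c)) (toO O ((Fintype.card F : ℂ)⁻¹) *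
        (toO O ((Fintype.card F : ℂ)⁻¹) * toO O (ψ (-(a * (b + c)))))) := by
    intro b c
    rw [MonoidAlgebra.single_mul_single, uH_mul]
    congr 1
    apply Subtype.ext
    push_cast
    rw [toO_coe (qinv_mem hp hq), toO_coe (psi_mem ψ _), toO_coe (psi_mem ψ _),
      toO_coe (psi_mem ψ _)]
    have h2 : ψ (-(a * (b + c))) = ψ (-(a * b)) * ψ (-(a * c)) := by
      rw [← AddChar.map_add_eq_mul]
      congr 1
      ring
    rw [h2]
    ring
  rw [eA, Finset.sum_mul_sum]
  simp only [h1]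
  have h3 : ∀ b : F, ∑ c : F, MonoidAlgebra.single (uH ι (b + c))
      (toO O ((Fintype.card F : ℂ)⁻¹) *
        (toO O ((Fintype.card F : ℂ)⁻¹) * toO O (ψ (-(a * (b + c)))))) =
      ∑ c : F, MonoidAlgebra.single (uH ι c) (toO O ((Fintype.card F : ℂ)⁻¹) *
        (toO O ((Fintype.card F : ℂ)⁻¹) * toO O (ψ (-(a * c))))) := fun b =>
    Fintype.sum_equiv (Equiv.addLeft b) _ _ (fun c => rfl)
  simp only [h3]
  rw [Finset.sum_const, Finset.card_univ, Finset.smul_sum]
  refine Finset.sum_congr rfl fun c _ => ?_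
  have h4 : (Fintype.card F : O) * toO O ((Fintype.card F : ℂ)⁻¹) = 1 := by
    apply Subtype.ext
    push_cast
    rw [toO_coe (qinv_mem hp hq)]
    exact mul_inv_cancel₀ (card_ne hp hq)
  rw [← Nat.cast_smul_eq_nsmul O, MonoidAlgebra.smul_single, smul_eq_mul, ← mul_assoc, h4, one_mul]

/-- if all the idempotents of the non-trivial characters act as zero, the group acts trivially -/
lemma trivial_of_eA (hψ : ψ.IsPrimitive) {V : Type} [AddCommGroup V] [Module ℂ V]
    (ρ : Representation ℂ H V) (h : ∀ a : F, a ≠ 0 → ev O.subtype ρ (eA ι ψ O a) = 0) (g : H) :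
    ρ g = 1 := by
  have hq0 := card_ne hp hq
  have h1 : ∑ a : F, ev O.subtype ρ (eA ι ψ O a) = 1 := by
    simp only [ev_eA ι ψ hp hq ρ]
    rw [← Finset.smul_sum, Finset.sum_comm]
    have h2 : ∀ b : F, ∑ a : F, ψ (-(a * b)) • ρ (uH ι b) =
        if b = 0 then (Fintype.card F : ℂ) • (1 : Module.End ℂ V) else 0 := by
      intro b
      rw [← Finset.sum_smul]
      have h3 : ∑ a : F, ψ (-(a * b)) = ∑ a : F, ψ (a * (-b)) :=
        Finset.sum_congr rfl fun a _ => by rw [mul_neg]
      rw [h3, AddChar.sum_mulShift (-b) hψ]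
      by_cases hb : b = 0
      · rw [if_pos (by rw [hb, neg_zero]), if_pos hb, hb, uH_zero, map_one]
      · rw [if_neg (neg_ne_zero.mpr hb), if_neg hb]
        simp
    rw [Finset.sum_congr rfl fun b _ => h2 b, Finset.sum_ite_eq' , if_pos (Finset.mem_univ _),
      smul_smul, inv_mul_cancel₀ hq0, one_smul]
  rw [Finset.sum_eq_single (0 : F) (fun a _ ha => h a ha)
    (fun h0 => absurd (Finset.mem_univ _) h0)] at h1
  have h4 : ∀ c : F, ρ (uH ι c) = 1 := by
    intro c
    have h5 : ρ (uH ι c) * ev O.subtype ρ (eA ι ψ O 0) = ev O.subtype ρ (eA ι ψ O 0) := by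
      rw [ev_eA ι ψ hp hq ρ, mul_smul_comm, Finset.mul_sum]
      congr 1
      have h6 : ∀ b : F, ρ (uH ι c) * ψ (-(0 * b)) • ρ (uH ι b) =
          (fun b : F => ψ (-(0 * b)) • ρ (uH ι b)) (c + b) := by
        intro b
        simp only [zero_mul, neg_zero]
        rw [mul_smul_comm, ← map_mul, uH_mul]
      rw [Finset.sum_congr rfl fun b _ => h6 b]
      exact Fintype.sum_equiv (Equiv.addLeft c) _ _ (fun b => rfl)
    rw [h1, mul_one] at h5
    exact h5
  let N : Subgroup SL(2, F) := (MonoidHom.ker (ρ : H →* Module.End ℂ V)).map ι.toMonoidHom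
  haveI : N.Normal := Subgroup.Normal.map inferInstance _ ι.surjective
  have hN := normal_top N (fun b => ⟨uH ι b, h4 b, ι.apply_symm_apply _⟩)
  have h7 : ι g ∈ N := by rw [hN]; trivial
  obtain ⟨x, hx, hxg⟩ := h7
  have h8 : x = g := ι.injective hxg
  rw [← h8]
  exact hx

end ea

end Pool.Agent.Y60
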