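import Pool.Agent.Y60.Pg2

/-!
# The principal series representation of `SL(2, F)` of the quadratic character
-/

open scoped BigOperators Classical MonoidAlgebra MatrixGroups LinearAlgebra.Projectivization
open Pool.Agent.H254R3.IN Pool.Agent.Helper884

noncomputable section

namespace Pool.Agent.Y60

section ps

variable {F : Type} [Field F] [Fintype F]

/-- the quadratic character with complex values -/
def qc (c : F) : ℂ := ((quadraticChar F c : ℤ) : ℂ)

lemma qc_mul (a b : F) : qc (a * b) = qc a * qc b := by
  rw [qc, map_mul]
  push_cast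
  rfl

lemma qc_zero : qc (0 : F) = 0 := by
  rw [qc, quadraticChar_zero]
  norm_num

lemma qc_one : qc (1 : F) = 1 := by
  rw [qc, map_one]
  norm_num

lemma qc_sq {a : F} (ha : a ≠ 0) : qc a * qc a = 1 := by
  have h := quadraticChar_sq_one ha
  rw [qc, ← sq]
  exact_mod_cast h

lemma qc_odd {a : F} {m : ℕ} (hm : Odd m) (h : a ^ m = 1) : qc a = 1 := by
  have ha : a ≠ 0 := by
    intro h0
    rw [h0, zero_pow (by rintro rfl; exact absurd hm (by decide))] at h
    exact zero_ne_one h
  have h1 : (quadraticChar F a) ^ m = 1 := by rw [← map_pow, h, map_one]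
  rcases quadraticChar_dichotomy ha with h2 | h2
  · rw [qc, h2]
    norm_num
  · rw [h2, hm.neg_one_pow] at h1
    norm_num at h1

variable (F) in
/-- the space of the principal series representation -/
def PS : Submodule ℂ ((Fin 2 → F) → ℂ) where
  carrier := {f | ∀ (c : F) (v : Fin 2 → F), f (c • v) = qc c * f v}
  zero_mem' := by
    intro c v
    simp
  add_mem' := by
    intro f g hf hg c v
    rw [Pi.add_apply, hf, hg, Pi.add_apply]
    ring
  smul_mem' := by
    intro a f hf c v
    rw [Pi.smul_apply, hf, Pi.smul_apply, smul_eq_mul, smul_eq_mul]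
    ring

/-- representatives of the lines -/
def rr : Option F → Fin 2 → F
  | none => ![0, 1]
  | some t => ![1, t]

/-- the coordinates of the principal series -/
def th : PS F ≃ₗ[ℂ] (Option F → ℂ) where
  toFun f x := f.1 (rr x)
  map_add' _ _ := rfl
  map_smul' _ _ := rfl
  invFun g := ⟨fun v => if v 0 = 0 then qc (v 1) * g none else qc (v 0) * g (some (v 1 / v 0)), by
    intro c v
    by_cases hc : c = 0
    · subst hc
      simp [qc_zero]
    · by_cases h0 : v 0 = 0
      · simp only [Pi.smul_apply, smul_eq_mul, h0, mul_zero, if_true, qc_mul]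
        ring
      · have h1 : c * v 0 ≠ 0 := mul_ne_zero hc h0
        have h2 : c * v 1 / (c * v 0) = v 1 / v 0 := by field_simp
        simp only [Pi.smul_apply, smul_eq_mul, if_neg h0, if_neg h1, qc_mul, h2]
        ring⟩
  left_inv f := by
    apply Subtype.ext
    funext v
    by_cases h0 : v 0 = 0
    · simp only [h0, if_true]
      have h1 := f.2 (v 1) ![0, 1]
      rw [show rr (none : Option F) = ![0, 1] from rfl, ← h1]
      refine congrArg f.1 ?_
      ext i
      fin_cases i <;> simp [h0]
    · simp only [if_neg h0]
      have h1 := f.2 (v 0) ![1, v 1 / v 0]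
      rw [show rr (some (v 1 / v 0)) = ![1, v 1 / v 0] from rfl, ← h1]
      refine congrArg f.1 ?_
      ext i
      fin_cases i
      · simp
      · simp only [Pi.smul_apply, smul_eq_mul, Fin.mk_one, Matrix.cons_val_one,
          Matrix.cons_val_fin_one]
        field_simp
  right_inv g := by
    funext x
    cases x with
    | none => simp [rr, qc_one]
    | some t => simp [rr, qc_one]

lemma th_symm_apply (g : Option F → ℂ) (v : Fin 2 → F) : (th.symm g).1 v =
    if v 0 = 0 then qc (v 1) * g none else qc (v 0) * g (some (v 1 / v 0)) := rfl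

/-- values of the basis functions -/
lemma th_single (x : Option F) (v : Fin 2 → F) :
    (th.symm (Pi.single x 1)).1 v = ∑ c : F, if c ≠ 0 ∧ v = c • rr x then qc c else 0 := by
  rw [th_symm_apply]
  cases x with
  | none =>
    by_cases h0 : v 0 = 0
    · rw [if_pos h0, Pi.single_eq_same, mul_one]
      by_cases h1 : v 1 = 0
      · rw [h1, qc_zero]
        symm
        apply Finset.sum_eq_zero
        intro c _
        rw [if_neg]
        rintro ⟨hc, hv⟩
        apply hc
        have := congrFun hv 1
        simpa [rr, h1] using this.symm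
      · rw [Finset.sum_eq_single (v 1)]
        · rw [if_pos]
          refine ⟨h1, ?_⟩
          ext i
          fin_cases i <;> simp [rr, h0]
        · intro c _ hc
          rw [if_neg]
          rintro ⟨-, hv⟩
          apply hc
          have := congrFun hv 1
          simpa [rr] using this.symm
        · intro h
          exact absurd (Finset.mem_univ _) h
    · rw [if_neg h0, Pi.single_eq_of_ne (by simp), mul_zero]
      symm
      apply Finset.sum_eq_zero
      intro c _
      rw [if_neg]
      rintro ⟨-, hv⟩
      apply h0
      rw [hv]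
      simp [rr]
  | some t =>
    by_cases h0 : v 0 = 0
    · rw [if_pos h0, Pi.single_eq_of_ne (by simp), mul_zero]
      symm
      apply Finset.sum_eq_zero
      intro c _
      rw [if_neg]
      rintro ⟨hc, hv⟩
      apply hc
      have := congrFun hv 0
      simpa [rr, h0] using this.symm
    · rw [if_neg h0]
      by_cases h1 : v 1 / v 0 = t
      · rw [h1, Pi.single_eq_same, mul_one, Finset.sum_eq_single (v 0)]
        · rw [if_pos]
          refine ⟨h0, ?_⟩
          ext i
          fin_cases i
          · simp [rr]
          · simp only [rr, ← h1, Pi.smul_apply, smul_eq_mul, Fin.mk_one, Matrix.cons_val_one,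
              Matrix.cons_val_fin_one]
            field_simp
        · intro c _ hc
          rw [if_neg]
          rintro ⟨-, hv⟩
          apply hc
          have := congrFun hv 0
          simpa [rr] using this.symm
        · intro h
          exact absurd (Finset.mem_univ _) h
      · rw [Pi.single_eq_of_ne (fun h => h1 (Option.some.inj h)), mul_zero]
        symm
        apply Finset.sum_eq_zero
        intro c _
        rw [if_neg]
        rintro ⟨hc, hv⟩
        apply h1
        rw [hv]
        simp only [rr, Pi.smul_apply, smul_eq_mul, Matrix.cons_val_one,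
              Matrix.cons_val_fin_one, Matrix.cons_val_zero]
        field_simp

variable {H : Type} [Group H] (ι : H ≃* SL(2, F))

/-- the principal series representation -/
def rP : Representation ℂ H (PS F) where
  toFun h :=
    { toFun := fun f => ⟨fun v => f.1 ((ι h⁻¹).1.mulVec v), by
        intro c v
        change f.1 ((ι h⁻¹).1.mulVec (c • v)) = _
        rw [Matrix.mulVec_smul, f.2]⟩
      map_add' := fun f g => rfl
      map_smul' := fun a f => rfl }
  map_one' := by
    ext f v
    change f.1 ((ι (1 : H)⁻¹).1.mulVec v) = f.1 v
    rw [inv_one, map_one]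
    exact congrArg f.1 (Matrix.one_mulVec v)
  map_mul' g h := by
    ext f v
    change f.1 ((ι (g * h)⁻¹).1.mulVec v) = f.1 ((ι h⁻¹).1.mulVec ((ι g⁻¹).1.mulVec v))
    rw [mul_inv_rev, map_mul, Matrix.mulVec_mulVec]
    rfl

lemma rP_apply (h : H) (f : PS F) (v : Fin 2 → F) :
    (rP ι h f).1 v = f.1 ((ι h⁻¹).1.mulVec v) := rfl

instance : FiniteDimensional ℂ (PS F) := Module.Finite.equiv th.symm

/-- the trace as a sum -/
lemma rP_char (h : H) : (rP ι).character h =
    ∑ x : Option F, ∑ c : F, if c ≠ 0 ∧ (ι h⁻¹).1.mulVec (rr x) = c • rr x then qc c else 0 := by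
  unfold Representation.character
  rw [LinearMap.trace_eq_matrix_trace ℂ (Module.Basis.ofEquivFun th), Matrix.trace]
  refine Finset.sum_congr rfl fun x _ => ?_
  rw [Matrix.diag_apply, LinearMap.toMatrix_apply, ← th_single]
  rw [Module.Basis.ofEquivFun_repr_apply]
  have h1 : (Module.Basis.ofEquivFun (th (F := F))) x = th.symm (Pi.single x 1) := by
    rw [Module.Basis.coe_ofEquivFun]
  rw [h1]
  rfl

end ps

end Pool.Agent.Y60
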