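import Pool.Agent.Y60.Pg3
import Pool.Agent.Y60.Ab1

/-!
# The permutation character on the projective line and the principal series
-/

open scoped BigOperators Classical MonoidAlgebra MatrixGroups LinearAlgebra.Projectivization
open Pool.Agent.H254R3.IN Pool.Agent.Helper884

noncomputable section

namespace Pool.Agent.Y60

section pp

variable {F : Type} [Field F] [Fintype F]

/-- the number of fixed points on the projective line -/
def pp (g : SL(2, F)) : ℂ := Nat.card (MulAction.fixedBy (ℙ F (Fin 2 → F)) g)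

omit [Fintype F] in
lemma rr_ne (x : Option F) : rr x ≠ 0 := by
  intro h
  cases x with
  | none =>
    have := congrFun h 1
    simp [rr] at this
  | some t =>
    have := congrFun h 0
    simp [rr] at this

omit [Fintype F] in
lemma rr_inj {x y : Option F} {c : F} (h : c • rr x = rr y) : x = y := by
  cases x with
  | none =>
    cases y with
    | none => rfl
    | some t =>
      have := congrFun h 0
      simp [rr] at this
  | some s =>
    cases y with
    | none =>
      have h0 := congrFun h 0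
      have h1 := congrFun h 1
      simp [rr] at h0 h1
      rw [h0, zero_mul] at h1
      exact absurd h1 zero_ne_one
    | some t =>
      have h0 := congrFun h 0
      have h1 := congrFun h 1
      simp [rr] at h0 h1
      rw [h0, one_mul] at h1
      rw [h1]

omit [Fintype F] in
lemma rr_surj (v : Fin 2 → F) (hv : v ≠ 0) : ∃ (x : Option F) (c : F), c • rr x = v := by
  by_cases h0 : v 0 = 0
  · refine ⟨none, v 1, ?_⟩
    ext i
    fin_cases i <;> simp [rr, h0]
  · refine ⟨some (v 1 / v 0), v 0, ?_⟩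
    ext i
    fin_cases i
    · simp [rr]
    · simp only [rr, Pi.smul_apply, smul_eq_mul, Fin.mk_one, Matrix.cons_val_one,
        Matrix.cons_val_fin_one]
      field_simp

variable (F) in
omit [Fintype F] in
/-- the points of the projective line -/
def eP : Option F ≃ ℙ F (Fin 2 → F) :=
  Equiv.ofBijective (fun x => Projectivization.mk F (rr x) (rr_ne x)) (by
    constructor
    · intro x y h
      obtain ⟨a, ha⟩ := (Projectivization.mk_eq_mk_iff' F _ _ (rr_ne x) (rr_ne y)).mp h
      exact (rr_inj ha).symm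
    · intro z
      induction z using Projectivization.ind with
      | h v hv =>
        obtain ⟨x, c, hc⟩ := rr_surj v hv
        refine ⟨x, (Projectivization.mk_eq_mk_iff' F _ _ (rr_ne x) hv).mpr ?_⟩
        have hc0 : c ≠ 0 := by
          rintro rfl
          exact hv (by rw [← hc, zero_smul])
        exact ⟨c⁻¹, by rw [← hc, smul_smul, inv_mul_cancel₀ hc0, one_smul]⟩)

omit [Fintype F] in
lemma mulVec_ne (g : SL(2, F)) {v : Fin 2 → F} (hv : v ≠ 0) : g.1.mulVec v ≠ 0 := by
  intro h
  apply hv
  have h1 : (g⁻¹ : SL(2, F)) • (g • v) = v := inv_smul_smul g v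
  rw [← h1]
  change (g⁻¹ : SL(2, F)) • (g.1.mulVec v) = 0
  rw [h, smul_zero]

omit [Fintype F] in
lemma fix_iff (g : SL(2, F)) (x : Option F) :
    g • (eP F x) = eP F x ↔ ∃ c : F, c ≠ 0 ∧ g.1.mulVec (rr x) = c • rr x := by
  have h1 : g • (eP F x) = Projectivization.mk F (g.1.mulVec (rr x)) (mulVec_ne g (rr_ne x)) := rfl
  have h2 : eP F x = Projectivization.mk F (rr x) (rr_ne x) := rfl
  rw [h1, h2, Projectivization.mk_eq_mk_iff']
  constructor
  · rintro ⟨a, ha⟩
    refine ⟨a, ?_, ha.symm⟩
    rintro rfl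
    exact mulVec_ne g (rr_ne x) (by rw [← ha, zero_smul])
  · rintro ⟨c, -, hc⟩
    exact ⟨c, hc.symm⟩

lemma pp_eq (g : SL(2, F)) : pp g =
    ∑ x : Option F, if ∃ c : F, c ≠ 0 ∧ g.1.mulVec (rr x) = c • rr x then (1 : ℂ) else 0 := by
  have h1 : Nat.card (MulAction.fixedBy (ℙ F (Fin 2 → F)) g) =
      Nat.card {x : Option F // ∃ c : F, c ≠ 0 ∧ g.1.mulVec (rr x) = c • rr x} := by
    refine (Nat.card_congr ((eP F).subtypeEquiv fun x => ?_)).symm
    rw [MulAction.mem_fixedBy, fix_iff]
  rw [pp, h1, Nat.card_eq_fintype_card, Fintype.card_subtype, Finset.sum_boole]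

lemma pp_inv (g : SL(2, F)) : pp g⁻¹ = pp g := by
  rw [pp, pp, MulAction.fixedBy_inv]

lemma pp_conj (g y : SL(2, F)) : pp (y * g * y⁻¹) = pp g := by
  rw [pp, pp]
  congr 1
  refine Nat.card_congr ⟨fun z => ⟨y⁻¹ • z.1, ?_⟩, fun z => ⟨y • z.1, ?_⟩, ?_, ?_⟩
  · have h := z.2
    rw [MulAction.mem_fixedBy] at h ⊢
    conv_rhs => rw [← h]
    rw [mul_smul, mul_smul, inv_smul_smul]
  · have h := z.2
    rw [MulAction.mem_fixedBy] at h ⊢
    rw [mul_smul, inv_smul_smul, mul_smul, h]
  · intro z
    exact Subtype.ext (smul_inv_smul _ _)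
  · intro z
    exact Subtype.ext (inv_smul_smul _ _)

lemma pp_one : pp (1 : SL(2, F)) = Fintype.card F + 1 := by
  rw [pp_eq, Finset.sum_congr rfl (g := fun _ => (1 : ℂ))]
  · simp
  · intro x _
    rw [if_pos]
    exact ⟨1, one_ne_zero, by rw [one_smul]; exact Matrix.one_mulVec _⟩

lemma pp_uu {b : F} (hb : b ≠ 0) : pp (uu b) = 1 := by
  rw [pp_eq, Finset.sum_eq_single (some 0)]
  · rw [if_pos]
    refine ⟨1, one_ne_zero, ?_⟩
    ext i
    fin_cases i <;> simp [uu, rr, Matrix.mulVec, dotProduct, Fin.sum_univ_two]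
  · intro x _ hx
    rw [if_neg]
    rintro ⟨c, -, hc⟩
    cases x with
    | none =>
      have h0 := congrFun hc 0
      simp [uu, rr, Matrix.mulVec, dotProduct, Fin.sum_univ_two] at h0
      exact hb h0
    | some t =>
      have h0 := congrFun hc 0
      have h1 := congrFun hc 1
      simp [uu, rr, Matrix.mulVec, dotProduct, Fin.sum_univ_two] at h0 h1
      have h2 : b * t * t = 0 := by linear_combination t * h0 - h1
      have h3 : t = 0 := by
        rcases mul_eq_zero.mp h2 with h | h
        · rcases mul_eq_zero.mp h with h | h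
          · exact absurd h hb
          · exact h
        · exact h
      exact hx (by rw [h3])
  · intro h
    exact absurd (Finset.mem_univ _) h

variable {H : Type} [Group H] (ι : H ≃* SL(2, F))

/-- the characters agree at elements of odd order -/
lemma rP_char_odd {h : H} (ho : Odd (orderOf h)) : (rP ι).character h = pp (ι h) := by
  rw [rP_char, ← pp_inv, pp_eq, ← map_inv]
  refine Finset.sum_congr rfl fun x _ => ?_
  by_cases hx : ∃ c : F, c ≠ 0 ∧ (ι h⁻¹).1.mulVec (rr x) = c • rr x
  · rw [if_pos hx]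
    obtain ⟨c, hc, hcx⟩ := hx
    rw [Finset.sum_eq_single c]
    · rw [if_pos ⟨hc, hcx⟩]
      apply qc_odd ho
      have h1 : ∀ n : ℕ, ((ι h⁻¹) ^ n).1.mulVec (rr x) = c ^ n • rr x := by
        intro n
        induction n with
        | zero =>
          rw [pow_zero, pow_zero, one_smul]
          exact Matrix.one_mulVec _
        | succ n ih =>
          rw [pow_succ, pow_succ]
          change ((((ι h⁻¹) ^ n).1 * (ι h⁻¹).1)).mulVec (rr x) = _
          rw [← Matrix.mulVec_mulVec, hcx, Matrix.mulVec_smul, ih, smul_smul, mul_comm]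
      have h2 := h1 (orderOf h)
      rw [← map_pow, inv_pow, pow_orderOf_eq_one, inv_one, map_one] at h2
      have h3 : (c ^ orderOf h - 1) • rr x = 0 := by
        rw [sub_smul, ← h2, one_smul, sub_eq_zero]
        exact Matrix.one_mulVec _
      rcases smul_eq_zero.mp h3 with h4 | h4
      · exact sub_eq_zero.mp h4
      · exact absurd h4 (rr_ne x)
    · intro d _ hd
      rw [if_neg]
      rintro ⟨-, h2⟩
      apply hd
      rw [hcx] at h2
      have h3 : (c - d) • rr x = 0 := by rw [sub_smul, h2, sub_self]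
      rcases smul_eq_zero.mp h3 with h4 | h4
      · exact (sub_eq_zero.mp h4).symm
      · exact absurd h4 (rr_ne x)
    · intro h
      exact absurd (Finset.mem_univ _) h
  · rw [if_neg hx]
    apply Finset.sum_eq_zero
    intro c _
    rw [if_neg (fun h => hx ⟨c, h⟩)]

end pp

section cva

variable {F : Type} [Field F] [Fintype F] {H : Type} [Group H] [Fintype H] (ι : H ≃* SL(2, F))
  (ψ : AddChar F ℂ) {O : ValuationSubring ℂ} (hp : ((2 : ℕ) : ℂ) ∈ O.nonunits)
  (hq : Odd (Fintype.card F))

omit [Fintype H] in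
lemma uH_pow (b : F) (n : ℕ) : uH ι b ^ n = uH ι (n • b) := by
  induction n with
  | zero => rw [pow_zero, zero_smul, uH_zero]
  | succ n ih => rw [pow_succ, ih, uH_mul, add_smul, one_smul]

omit [Fintype H] in
include hq in
lemma uH_odd (b : F) : Odd (orderOf (uH ι b)) := by
  have h : orderOf (uH ι b) ∣ Fintype.card F := by
    apply orderOf_dvd_of_pow_eq_one
    rw [uH_pow, ← Nat.card_eq_fintype_card, card_nsmul_eq_zero', uH_zero]
  exact Odd.of_dvd_nat hq h

include hp hq

/-- value of a character at the idempotent -/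
lemma cv_eA (χ : H → ℂ) (a : F) : cv O χ (eA ι ψ O a) =
    (Fintype.card F : ℂ)⁻¹ * ∑ b : F, ψ (-(a * b)) * χ (uH ι b) := by
  have h1 : cv O χ (eA ι ψ O a) = cvl O.subtype χ (eA ι ψ O a) := rfl
  rw [h1, eA, cvl_sum, Finset.mul_sum]
  refine Finset.sum_congr rfl fun b _ => ?_
  rw [cvl_single, map_mul]
  have h2 : O.subtype (toO O ((Fintype.card F : ℂ)⁻¹)) = (Fintype.card F : ℂ)⁻¹ :=
    toO_coe (qinv_mem hp hq)
  have h3 : O.subtype (toO O (ψ (-(a * b)))) = ψ (-(a * b)) := toO_coe (psi_mem ψ _)
  rw [h2, h3, mul_assoc]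

/-- the multiplicity of a non-trivial character in the principal series is one -/
lemma cv_rP (hψ : ψ.IsPrimitive) {a : F} (ha : a ≠ 0) :
    cv O (rP ι).character (eA ι ψ O a) = 1 := by
  rw [cv_eA ι ψ hp hq]
  have h1 : ∀ b : F, ψ (-(a * b)) * (rP ι).character (uH ι b) =
      ψ (b * (-a)) + if b = 0 then (Fintype.card F : ℂ) else 0 := by
    intro b
    rw [rP_char_odd ι (uH_odd ι hq b)]
    have h2 : ι (uH ι b) = uu b := ι.apply_symm_apply _
    have h3 : ψ (-(a * b)) = ψ (b * (-a)) := by
      congr 1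
      ring
    rw [h2, h3]
    by_cases hb : b = 0
    · rw [if_pos hb, hb, uu_zero, pp_one, zero_mul, AddChar.map_zero_eq_one]
      ring
    · rw [if_neg hb, pp_uu hb, mul_one, add_zero]
  rw [Finset.sum_congr rfl fun b _ => h1 b, Finset.sum_add_distrib,
    AddChar.sum_mulShift (-a) hψ, if_neg (neg_ne_zero.mpr ha), Finset.sum_ite_eq',
    if_pos (Finset.mem_univ _)]
  simp only [Nat.cast_zero, zero_add]
  exact inv_mul_cancel₀ (card_ne hp hq)

/-- the trivial character does not contain the non-trivial characters -/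
lemma cv_one (hψ : ψ.IsPrimitive) {a : F} (ha : a ≠ 0) :
    cv O (1 : H → ℂ) (eA ι ψ O a) = 0 := by
  rw [cv_eA ι ψ hp hq]
  have h1 : ∀ b : F, ψ (-(a * b)) * (1 : H → ℂ) (uH ι b) = ψ (b * (-a)) := by
    intro b
    rw [Pi.one_apply, mul_one]
    congr 1
    ring
  rw [Finset.sum_congr rfl fun b _ => h1 b, AddChar.sum_mulShift (-a) hψ,
    if_neg (neg_ne_zero.mpr ha)]
  simp

end cva

end Pool.Agent.Y60
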