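import Pool.Agent.Y60.Pg4

/-!
# Reducibility of the principal series; three unipotent Brauer characters of `SL(2, F)`
-/

open scoped BigOperators Classical MonoidAlgebra MatrixGroups LinearAlgebra.Projectivization
open Pool.Agent.H254R3.IN Pool.Agent.Helper884

noncomputable section

namespace Pool.Agent.Y60

section AA

variable {F : Type} [Field F] [Fintype F]

/-- the alternating form -/
def alt (v w : Fin 2 → F) : F := v 0 * w 1 - v 1 * w 0

/-- the intertwining operator -/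
def AA : Module.End ℂ (PS F) where
  toFun f := ⟨fun v => ∑ w : Fin 2 → F, qc (alt v w) * f.1 w, by
    intro c v
    rw [Finset.mul_sum]
    refine Finset.sum_congr rfl fun w _ => ?_
    have h : alt (c • v) w = c * alt v w := by
      simp only [alt, Pi.smul_apply, smul_eq_mul]
      ring
    rw [h, qc_mul, mul_assoc]⟩
  map_add' f g := by
    apply Subtype.ext
    funext v
    change ∑ w : Fin 2 → F, qc (alt v w) * (f.1 w + g.1 w) =
      (∑ w : Fin 2 → F, qc (alt v w) * f.1 w) + ∑ w : Fin 2 → F, qc (alt v w) * g.1 w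
    rw [← Finset.sum_add_distrib]
    exact Finset.sum_congr rfl fun w _ => mul_add _ _ _
  map_smul' a f := by
    apply Subtype.ext
    funext v
    change ∑ w : Fin 2 → F, qc (alt v w) * (a * f.1 w) = a * ∑ w : Fin 2 → F, qc (alt v w) * f.1 w
    rw [Finset.mul_sum]
    refine Finset.sum_congr rfl fun w _ => ?_
    ring

lemma AA_apply (f : PS F) (v : Fin 2 → F) :
    (AA f).1 v = ∑ w : Fin 2 → F, qc (alt v w) * f.1 w := rfl

variable {H : Type} [Group H] (ι : H ≃* SL(2, F))

omit [Fintype F] in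
lemma alt_inv (g : SL(2, F)) (v w : Fin 2 → F) :
    alt (g.1.mulVec v) (g.1.mulVec w) = alt v w := by
  have hdet : g.1 0 0 * g.1 1 1 - g.1 0 1 * g.1 1 0 = 1 := by
    rw [← Matrix.det_fin_two]
    exact g.2
  simp only [alt, Matrix.mulVec, dotProduct, Fin.sum_univ_two]
  linear_combination (v 0 * w 1 - v 1 * w 0) * hdet

lemma AA_comm (h : H) (f : PS F) : AA (rP ι h f) = rP ι h (AA f) := by
  apply Subtype.ext
  funext v
  rw [AA_apply, rP_apply, AA_apply]
  have h1 : ∀ w : Fin 2 → F, qc (alt v w) * (rP ι h f).1 w =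
      (fun w' => qc (alt ((ι h⁻¹).1.mulVec v) w') * f.1 w') ((ι h⁻¹).1.mulVec w) := by
    intro w
    rw [rP_apply]
    simp only
    rw [alt_inv]
  rw [Finset.sum_congr rfl fun w _ => h1 w]
  exact Fintype.sum_equiv (MulAction.toPerm (ι h⁻¹)) _ _ (fun w => rfl)

/-- test function -/
def f0 : PS F := ⟨fun v => if v 1 = 0 then qc (v 0) else 0, by
  intro c v
  simp only [Pi.smul_apply, smul_eq_mul]
  by_cases hc : c = 0
  · subst hc
    simp [qc_zero]
  · by_cases h1 : v 1 = 0
    · rw [if_pos h1, if_pos (by rw [h1, mul_zero]), qc_mul]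
    · rw [if_neg h1, if_neg (mul_ne_zero hc h1), mul_zero]⟩

lemma f0_ne : (f0 : PS F) ≠ 0 := by
  intro h
  have h1 : (f0 : PS F).1 ![1, 0] = 0 := by rw [h]; rfl
  have h2 : (f0 : PS F).1 ![1, 0] = 1 := by
    change (if (![1, 0] : Fin 2 → F) 1 = 0 then qc ((![1, 0] : Fin 2 → F) 0) else 0) = (1 : ℂ)
    simp [qc_one]
  rw [h2] at h1
  exact one_ne_zero h1

lemma qc_neg_one_ne : qc (-1 : F) ≠ 0 := by
  intro h
  have h1 := qc_sq (F := F) (a := -1) (neg_ne_zero.mpr one_ne_zero)
  rw [h, zero_mul] at h1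
  exact zero_ne_one h1

lemma AA_not_scalar (c : ℂ) : AA (f0 : PS F) ≠ c • f0 := by
  intro h
  have h1 : (AA (f0 : PS F)).1 ![0, 1] = (c • (f0 : PS F)).1 ![0, 1] := by rw [h]
  have h2 : (c • (f0 : PS F)).1 ![0, 1] = 0 := by
    change c * (if (![0, 1] : Fin 2 → F) 1 = 0 then qc ((![0, 1] : Fin 2 → F) 0) else 0) = 0
    simp
  have h3 : (AA (f0 : PS F)).1 ![0, 1] = (Fintype.card F - 1) * qc (-1 : F) := by
    rw [AA_apply]
    have e1 : ∀ w : Fin 2 → F, qc (alt ![0, 1] w) * (f0 : PS F).1 w =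
        if w 1 = 0 then (if w 0 = 0 then 0 else qc (-1 : F)) else 0 := by
      intro w
      have e2 : alt ![0, 1] w = (-1) * w 0 := by simp [alt]
      rw [e2, qc_mul]
      change qc (-1 : F) * qc (w 0) * (if w 1 = 0 then qc (w 0) else 0) = _
      by_cases hw : w 1 = 0
      · rw [if_pos hw, if_pos hw]
        by_cases hw0 : w 0 = 0
        · rw [if_pos hw0, hw0, qc_zero]
          ring
        · rw [if_neg hw0, mul_assoc, qc_sq hw0, mul_one]
      · rw [if_neg hw, if_neg hw, mul_zero]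
    rw [Finset.sum_congr rfl fun w _ => e1 w]
    have e3 : ∑ w : Fin 2 → F, (if w 1 = 0 then (if w 0 = 0 then 0 else qc (-1 : F)) else 0) =
        ∑ x : F × F, (if x.2 = 0 then (if x.1 = 0 then 0 else qc (-1 : F)) else 0) :=
      Fintype.sum_equiv (finTwoArrowEquiv F) _ _ (fun w => rfl)
    rw [e3, Fintype.sum_prod_type]
    simp only [Finset.sum_ite_eq', Finset.mem_univ, if_true]
    have e4 : ∀ x : F, (if x = 0 then (0 : ℂ) else qc (-1 : F)) =
        qc (-1 : F) - if x = 0 then qc (-1 : F) else 0 := by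
      intro x
      split_ifs <;> ring
    rw [Finset.sum_congr rfl fun x _ => e4 x, Finset.sum_sub_distrib, Finset.sum_const,
      Finset.sum_ite_eq', if_pos (Finset.mem_univ _), Finset.card_univ, nsmul_eq_mul]
    ring
  rw [h2, h3] at h1
  rcases mul_eq_zero.mp h1 with h4 | h4
  · have h5 : (Fintype.card F : ℂ) = 1 := sub_eq_zero.mp h4
    have h6 : Fintype.card F = 1 := by exact_mod_cast h5
    have h7 := Fintype.one_lt_card (α := F)
    omega
  · exact qc_neg_one_ne h4

/-- the principal series is reducible -/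
lemma exists_sub : ∃ W : Subrepresentation (rP ι), (∃ f ∈ W.toSubmodule, f ≠ 0) ∧
    ∃ f, f ∉ W.toSubmodule := by
  haveI : Nontrivial (PS F) := ⟨⟨f0, 0, f0_ne⟩⟩
  obtain ⟨c, hc⟩ := Module.End.exists_eigenvalue (AA : Module.End ℂ (PS F))
  obtain ⟨f, hf⟩ := hc.exists_hasEigenvector
  refine ⟨⟨Module.End.eigenspace AA c, fun h v hv => ?_⟩, ⟨f, hf.1, hf.2⟩, f0, ?_⟩
  · rw [Module.End.mem_eigenspace_iff] at hv ⊢
    rw [AA_comm, hv, map_smul]
  · intro h
    rw [Module.End.mem_eigenspace_iff] at h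
    exact AA_not_scalar c h

/-- there are no invariants -/
lemma inv_zero' (hF : ringChar F ≠ 2) (f : PS F) (h : ∀ g : H, rP ι g f = f) : f = 0 := by
  have h1 : ∀ (g : SL(2, F)) (v : Fin 2 → F), f.1 (g.1.mulVec v) = f.1 v := by
    intro g v
    have h2 := congrArg (fun x : PS F => x.1 v) (h (ι.symm g)⁻¹)
    simp only [rP_apply, inv_inv, MulEquiv.apply_symm_apply] at h2
    exact h2
  obtain ⟨a, ha⟩ := quadraticChar_exists_neg_one (F := F) hF
  have ha0 : a ≠ 0 := by
    rintro rfl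
    rw [quadraticChar_zero] at ha
    norm_num at ha
  have hqa : qc a = -1 := by
    rw [qc, ha]
    norm_num
  -- value at the first basis vector
  have h3 : f.1 ![1, 0] = 0 := by
    have h4 := h1 ⟨!![a, 0; 0, a⁻¹], by rw [Matrix.det_fin_two_of]; field_simp; ring⟩ ![1, 0]
    have h5 : (!![a, 0; 0, a⁻¹] : Matrix (Fin 2) (Fin 2) F).mulVec ![1, 0] = a • ![1, 0] := by
      ext i
      fin_cases i <;> simp [Matrix.mulVec, dotProduct, Fin.sum_univ_two]
    change f.1 ((!![a, 0; 0, a⁻¹] : Matrix (Fin 2) (Fin 2) F).mulVec ![1, 0]) = _ at h4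
    rw [h5, f.2, hqa] at h4
    linear_combination (-1 / 2 : ℂ) * h4
  apply Subtype.ext
  funext v
  change f.1 v = 0
  by_cases h0 : v 0 = 0
  · by_cases h00 : v 1 = 0
    · have h6 := f.2 0 v
      rw [qc_zero, zero_mul] at h6
      rw [← h6]
      refine congrArg f.1 ?_
      ext i
      fin_cases i <;> simp [h0, h00]
    · have h4 := h1 ⟨!![0, -(v 1)⁻¹; v 1, 0], by rw [Matrix.det_fin_two_of]; field_simp; ring⟩
        ![1, 0]
      have h5 : (!![0, -(v 1)⁻¹; v 1, 0] : Matrix (Fin 2) (Fin 2) F).mulVec ![1, 0] = v := by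
        ext i
        fin_cases i <;> simp [Matrix.mulVec, dotProduct, Fin.sum_univ_two, h0]
      change f.1 ((!![0, -(v 1)⁻¹; v 1, 0] : Matrix (Fin 2) (Fin 2) F).mulVec ![1, 0]) = _ at h4
      rw [h5, h3] at h4
      exact h4
  · have h4 := h1 ⟨!![v 0, 0; v 1, (v 0)⁻¹], by rw [Matrix.det_fin_two_of]; field_simp; ring⟩
      ![1, 0]
    have h5 : (!![v 0, 0; v 1, (v 0)⁻¹] : Matrix (Fin 2) (Fin 2) F).mulVec ![1, 0] = v := by
      ext i
      fin_cases i <;> simp [Matrix.mulVec, dotProduct, Fin.sum_univ_two]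
    change f.1 ((!![v 0, 0; v 1, (v 0)⁻¹] : Matrix (Fin 2) (Fin 2) F).mulVec ![1, 0]) = _ at h4
    rw [h5, h3] at h4
    exact h4

end AA

end Pool.Agent.Y60
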