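import Pool.Agent.Y60.Pg5

/-!
# Three unipotent Brauer characters of `SL(2, F)` in characteristic two
-/

open scoped BigOperators Classical MonoidAlgebra MatrixGroups LinearAlgebra.Projectivization
open Pool.Agent.H254R3.IN Pool.Agent.Helper884

noncomputable section

namespace Pool.Agent.Y60

/-- the trivial character is irreducible -/
lemma isIrr_one (H : Type) [Group H] : IsIrr (1 : H → ℂ) := by
  let ρ : Representation ℂ H ℂ := Representation.trivial ℂ H ℂ
  refine ⟨ℂ, inferInstance, inferInstance, inferInstance, ρ, ?_, ?_⟩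
  · haveI : Nontrivial (Subrepresentation ρ) := by
      refine ⟨⟨⊥, ⊤, fun h => ?_⟩⟩
      have h1 : (1 : ℂ) ∈ (⊤ : Subrepresentation ρ) := trivial
      rw [← h] at h1
      exact one_ne_zero h1
    refine ⟨fun W => ?_⟩
    rcases eq_bot_or_eq_top W.toSubmodule with h | h
    · exact Or.inl (Subrepresentation.toSubmodule_injective h)
    · exact Or.inr (Subrepresentation.toSubmodule_injective h)
  · funext h
    have h1 : ρ h = LinearMap.id := rfl
    rw [Representation.character, h1, LinearMap.trace_id]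
    simp

section main

variable {F : Type} [Field F] [Fintype F] {H : Type} [Group H] [Fintype H] (ι : H ≃* SL(2, F))
  {O : ValuationSubring ℂ} (hp : ((2 : ℕ) : ℂ) ∈ O.nonunits)

instance fact2 : Fact (Nat.Prime 2) := ⟨Nat.prime_two⟩

/-- existence of a non-trivial additive character in a non-trivial complex representation -/
lemma exists_ev_ne (hq : Odd (Fintype.card F)) (hp : ((2 : ℕ) : ℂ) ∈ O.nonunits)
    {ψ : AddChar F ℂ} (hψ : ψ.IsPrimitive) {V : Type} [AddCommGroup V] [Module ℂ V]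
    (ρ : Representation ℂ H V) (h : ∃ g, ρ g ≠ 1) :
    ∃ a : F, a ≠ 0 ∧ ev O.subtype ρ (eA ι ψ O a) ≠ 0 := by
  by_contra hno
  push Not at hno
  obtain ⟨g, hg⟩ := h
  exact hg (trivial_of_eA ι ψ hp hq hψ ρ hno g)

/-- the characters of the pieces of the principal series at idempotents -/
lemma exists_comp_ne (hq : Odd (Fintype.card F)) {ψ : AddChar F ℂ} (hψ : ψ.IsPrimitive)
    {V : Type} [AddCommGroup V] [Module ℂ V] [FiniteDimensional ℂ V]
    (ρ : Representation ℂ H V) (h : ∃ g, ρ g ≠ 1) {c : (H → ℂ) → ℕ}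
    (hc : ∀ e : MonoidAlgebra O H, e * e = e →
        cv O ρ.character e = ∑ φ ∈ IBrF (G := H) hp, (c φ : ℂ) * rI 2 O φ e) :
    ∃ a : F, a ≠ 0 ∧ ∃ φ ∈ IBrF (G := H) hp, c φ ≠ 0 ∧ rI 2 O φ (eA ι ψ O a) ≠ 0 := by
  obtain ⟨a, ha, hne⟩ := exists_ev_ne ι hq hp hψ ρ h
  refine ⟨a, ha, ?_⟩
  have he := eA_idem ι ψ hp hq hψ a
  have h1 : (rk O.subtype ρ (eA ι ψ O a) : ℂ) ≠ 0 := by
    rw [Nat.cast_ne_zero, rk]
    intro h0
    apply hne
    rw [Submodule.finrank_eq_zero] at h0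
    exact LinearMap.range_eq_bot.mp h0
  rw [← trace_rk ρ he, cv_trace, hc _ he] at h1
  obtain ⟨φ, hφ, h2⟩ := Finset.exists_ne_zero_of_sum_ne_zero h1
  refine ⟨φ, hφ, ?_, ?_⟩
  · intro h3
    apply h2
    rw [h3]
    simp
  · intro h3
    apply h2
    rw [h3]
    simp

include hp in
/-- three different unipotent Brauer characters -/
theorem three (hq : Odd (Fintype.card F)) {d : (H → ℂ) → (H → ℂ) → ℕ} (hd : IsDecomp 2 O d) :
    ∃ φ : Fin 3 → (H → ℂ), Function.Injective φ ∧ ∀ i, IsIBr 2 O (φ i) ∧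
      ∃ χ : H → ℂ, IsIrr χ ∧ (χ = 1 ∨ ∑ h : H, χ h * pp (ι h⁻¹) ≠ 0) ∧ d χ (φ i) ≠ 0 := by
  have hF : ringChar F ≠ 2 := by
    intro h
    rw [FiniteField.even_card_iff_char_two] at h
    exact (Nat.not_even_iff_odd.mpr hq) (Nat.even_iff.mpr h)
  -- a primitive additive character
  obtain ⟨ψ, hψ⟩ : ∃ ψ : AddChar F ℂ, ψ.IsPrimitive := by
    obtain ⟨ψ, h⟩ := (AddChar.exists_apply_ne_zero (α := F) (a := 1)).mpr one_ne_zero
    exact ⟨ψ, AddChar.IsPrimitive.of_ne_one (AddChar.ne_one_iff.mpr ⟨1, h⟩)⟩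
  obtain ⟨W, ⟨f, hfW, hf0⟩, f', hf'⟩ := exists_sub ι
  obtain ⟨c1, hc1, hv1⟩ := exists_mult (G := H) (V := W.toSubmodule) hp W.toRepresentation
  obtain ⟨c2, hc2, hv2⟩ := exists_mult (G := H) (V := (PS F) ⧸ W.toSubmodule) hp (quo (rP ι) W)
  -- non-trivial action on the pieces
  have hn1 : ∃ g, W.toRepresentation g ≠ 1 := by
    by_contra hno
    push Not at hno
    apply hf0
    refine inv_zero' ι hF f fun g => ?_
    have h1 := congrArg (fun T : Module.End ℂ W.toSubmodule => ((T ⟨f, hfW⟩ : W.toSubmodule) : PS F))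
      (hno g)
    exact h1
  have hn2 : ∃ g, (quo (rP ι) W) g ≠ 1 := by
    by_contra hno
    push Not at hno
    have h1 : ∑ g : H, rP ι g f' = 0 := by
      refine inv_zero' ι hF _ fun g => ?_
      rw [map_sum]
      have h2 : ∀ x : H, rP ι g (rP ι x f') = (fun y => rP ι y f') (g * x) := by
        intro x
        simp only
        rw [map_mul]
        rfl
      rw [Finset.sum_congr rfl fun x _ => h2 x]
      exact Fintype.sum_equiv (Equiv.mulLeft g) _ _ (fun x => rfl)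
    have h3 : W.toSubmodule.mkQ (∑ g : H, rP ι g f') = (Fintype.card H : ℂ) • W.toSubmodule.mkQ f' := by
      rw [map_sum]
      have h4 : ∀ g : H, W.toSubmodule.mkQ (rP ι g f') = W.toSubmodule.mkQ f' := by
        intro g
        rw [← quo_apply, hno g]
        rfl
      rw [Finset.sum_congr rfl fun g _ => h4 g, Finset.sum_const, Finset.card_univ,
        Nat.cast_smul_eq_nsmul]
    rw [h1, map_zero] at h3
    have h5 : (Fintype.card H : ℂ) ≠ 0 := by exact_mod_cast Fintype.card_ne_zero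
    have h6 := (smul_eq_zero.mp h3.symm).resolve_left h5
    rw [Submodule.mkQ_apply, Submodule.Quotient.mk_eq_zero] at h6
    exact hf' h6
  obtain ⟨a1, ha1, φ1, hφ1, hcφ1, hr1⟩ := exists_comp_ne ι hp hq hψ _ hn1 hv1
  obtain ⟨a2, ha2, φ2, hφ2, hcφ2, hr2⟩ := exists_comp_ne ι hp hq hψ _ hn2 hv2
  -- they are different
  have h12 : φ1 ≠ φ2 := by
    intro h
    have he := eA_idem ι ψ hp hq hψ a1
    have h1 := cv_rP ι ψ hp hq hψ ha1
    rw [cv_add _ W he, hv1 _ he, hv2 _ he, ← Finset.sum_add_distrib] at h1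
    have h2 : ∑ φ ∈ IBrF (G := H) hp, (c1 φ + c2 φ) * rI 2 O φ (eA ι ψ O a1) = 1 := by
      have h3 : ((∑ φ ∈ IBrF (G := H) hp, (c1 φ + c2 φ) * rI 2 O φ (eA ι ψ O a1) : ℕ) : ℂ) = 1 := by
        push_cast
        rw [← h1]
        exact Finset.sum_congr rfl fun φ _ => by ring
      exact_mod_cast h3
    have h4 := Finset.single_le_sum (f := fun φ => (c1 φ + c2 φ) * rI 2 O φ (eA ι ψ O a1))
      (fun _ _ => Nat.zero_le _) hφ1
    simp only [h2] at h4
    have h5 : 2 ≤ c1 φ1 + c2 φ1 := by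
      rw [← h] at hcφ2
      omega
    have h6 : 1 ≤ rI 2 O φ1 (eA ι ψ O a1) := Nat.one_le_iff_ne_zero.mpr hr1
    have h7 := Nat.mul_le_mul h5 h6
    omega
  -- the trivial character
  obtain ⟨d0, hd0, hv0⟩ := exists_decomp (G := H) hp
  have htriv : ∃ φ ∈ IBrF (G := H) hp, d0 1 φ ≠ 0 := by
    by_contra hno
    push Not at hno
    have h1 := congrFun (hd0 1 (isIrr_one H)) 1
    rw [finsum_ibr hp, Finset.sum_apply, Finset.sum_eq_zero (fun φ hφ => by
      rw [Pi.smul_apply, hno φ hφ]; simp)] at h1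
    rw [regPart, if_neg (by rw [orderOf_one]; norm_num)] at h1
    exact one_ne_zero h1
  obtain ⟨φ0, hφ0, hdφ0⟩ := htriv
  have hr0 : ∀ a : F, a ≠ 0 → rI 2 O φ0 (eA ι ψ O a) = 0 := by
    intro a ha
    have h1 := cv_one ι ψ hp hq hψ ha
    rw [hv0 1 (isIrr_one H) _ (eA_idem ι ψ hp hq hψ a)] at h1
    have h2 : ∑ φ ∈ IBrF (G := H) hp, d0 1 φ * rI 2 O φ (eA ι ψ O a) = 0 := by
      have h3 : ((∑ φ ∈ IBrF (G := H) hp, d0 1 φ * rI 2 O φ (eA ι ψ O a) : ℕ) : ℂ) = 0 := by
        push_cast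
        exact h1
      exact_mod_cast h3
    have h4 := (Finset.sum_eq_zero_iff.mp h2) φ0 hφ0
    exact (Nat.mul_eq_zero.mp h4).resolve_left hdφ0
  have h01 : φ0 ≠ φ1 := by
    rintro rfl
    exact hr1 (hr0 a1 ha1)
  have h02 : φ0 ≠ φ2 := by
    rintro rfl
    exact hr2 (hr0 a2 ha2)
  -- the pieces are constituents of the permutation character
  have hcl : IC.IsClass (fun h : H => pp (ι h)) := by
    intro g y
    simp only [map_mul, map_inv]
    exact pp_conj _ _
  have hreg : regPart 2 (rP ι).character = regPart 2 (fun h : H => pp (ι h)) := by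
    funext g
    rw [regPart, regPart]
    by_cases hg : 2 ∣ orderOf g
    · rw [if_pos hg, if_pos hg]
    · rw [if_neg hg, if_neg hg, rP_char_odd]
      exact Nat.not_even_iff_odd.mp (fun h => hg (even_iff_two_dvd.mp h))
  have hexp : regPart 2 (fun h : H => pp (ι h)) =
      ∑ χ ∈ IC.Irr H, IC.B (fun h : H => pp (ι h)) χ • regPart 2 χ := by
    funext g
    rw [Finset.sum_apply]
    by_cases hg : 2 ∣ orderOf g
    · rw [regPart, if_pos hg]
      symm
      apply Finset.sum_eq_zero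
      intro χ _
      rw [Pi.smul_apply, regPart, if_pos hg, smul_zero]
    · rw [regPart, if_neg hg]
      have h1 := congrFun (IC.expand (fun h : H => pp (ι h)) hcl) g
      rw [Finset.sum_apply] at h1
      rw [h1]
      refine Finset.sum_congr rfl fun χ _ => ?_
      rw [Pi.smul_apply, Pi.smul_apply, regPart, if_neg hg]
  have hcoef : ∀ φ, IsIBr 2 O φ → ((c1 φ + c2 φ : ℕ) : ℂ) =
      ∑ χ ∈ IC.Irr H, IC.B (fun h : H => pp (ι h)) χ * d χ φ := by
    intro φ hφ
    have h1 := ibr_unique hp (fun φ => ((c1 φ + c2 φ : ℕ) : ℂ) -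
      ∑ χ ∈ IC.Irr H, IC.B (fun h : H => pp (ι h)) χ * d χ φ) (by
        simp only [sub_smul, Finset.sum_sub_distrib]
        have h2 : ∑ φ ∈ IBrF (G := H) hp, ((c1 φ + c2 φ : ℕ) : ℂ) • φ =
            regPart 2 (rP ι).character := by
          rw [char_add hp _ W, hc1, hc2, ← Finset.sum_add_distrib]
          refine Finset.sum_congr rfl fun φ _ => ?_
          push_cast
          rw [add_smul]
        have h3 : ∑ φ ∈ IBrF (G := H) hp, (∑ χ ∈ IC.Irr H,
            IC.B (fun h : H => pp (ι h)) χ * d χ φ) • φ = regPart 2 (rP ι).character := by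
          rw [hreg, hexp]
          simp only [Finset.sum_smul]
          rw [Finset.sum_comm]
          refine Finset.sum_congr rfl fun χ hχ => ?_
          rw [hd χ (irr_iff.mp hχ), finsum_ibr hp, Finset.smul_sum]
          refine Finset.sum_congr rfl fun φ _ => ?_
          rw [smul_smul]
        rw [h2, h3, sub_self]) φ hφ
    exact sub_eq_zero.mp h1
  have hcon : ∀ φ ∈ IBrF (G := H) hp, c1 φ + c2 φ ≠ 0 →
      ∃ χ : H → ℂ, IsIrr χ ∧ (χ = 1 ∨ ∑ h : H, χ h * pp (ι h⁻¹) ≠ 0) ∧ d χ φ ≠ 0 := by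
    intro φ hφ hne
    have h1 : ((c1 φ + c2 φ : ℕ) : ℂ) ≠ 0 := by exact_mod_cast hne
    rw [hcoef φ ((mem_IBrF hp).mp hφ)] at h1
    obtain ⟨χ, hχ, h2⟩ := Finset.exists_ne_zero_of_sum_ne_zero h1
    refine ⟨χ, irr_iff.mp hχ, Or.inr ?_, ?_⟩
    · have h3 := left_ne_zero_of_mul h2
      rw [IC.B_comm, IC.B] at h3
      exact right_ne_zero_of_mul h3
    · intro h3
      apply right_ne_zero_of_mul h2
      rw [h3]
      simp
  refine ⟨![φ0, φ1, φ2], ?_, ?_⟩
  · intro i j hij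
    fin_cases i <;> fin_cases j <;> simp at hij ⊢
    · exact absurd hij h01
    · exact absurd hij h02
    · exact absurd hij.symm h01
    · exact absurd hij h12
    · exact absurd hij.symm h02
    · exact absurd hij.symm h12
  · intro i
    fin_cases i
    · refine ⟨(mem_IBrF hp).mp hφ0, 1, isIrr_one H, Or.inl rfl, ?_⟩
      change d 1 φ0 ≠ 0
      rw [decomp_unique hp hd hd0 1 (isIrr_one H) φ0 ((mem_IBrF hp).mp hφ0)]
      exact hdφ0
    · exact ⟨(mem_IBrF hp).mp hφ1, hcon φ1 hφ1 (by omega)⟩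
    · exact ⟨(mem_IBrF hp).mp hφ2, hcon φ2 hφ2 (by omega)⟩

end main

end Pool.Agent.Y60
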