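import Pool.Agent.Y60.Pg2

/-!
# Elements of odd order of `PGL(2, F)`
-/

open scoped BigOperators Classical MatrixGroups Polynomial
open Matrix Polynomial

noncomputable section

namespace Pool.Agent.Y60

section gl

variable {F : Type} [Field F]

lemma ch2 (M : Matrix (Fin 2) (Fin 2) F) :
    M * M = (M 0 0 + M 1 1) • M - (M 0 0 * M 1 1 - M 0 1 * M 1 0) • 1 := by
  ext i j
  fin_cases i <;> fin_cases j <;>
    simp only [Matrix.mul_apply, Fin.sum_univ_two, Matrix.sub_apply, Matrix.smul_apply,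
      Matrix.one_apply, Fin.zero_eta, Fin.mk_one, smul_eq_mul] <;> simp <;> ring

lemma det_sl (S : SL(2, F)) : S.1 0 0 * S.1 1 1 - S.1 0 1 * S.1 1 0 = 1 := by
  rw [← Matrix.det_fin_two]
  exact S.2

lemma ch_sl (S : SL(2, F)) : S.1 * S.1 = (S.1 0 0 + S.1 1 1) • S.1 - 1 := by
  rw [ch2, det_sl, one_smul]

/-- semisimplicity -/
def IsSs (s : SL(2, F)) : Prop := Module.End.IsSemisimple (Matrix.toLin' s.1)

lemma ss_aux (M : Matrix (Fin 2) (Fin 2) F) (t : F) (hM : M * M = t • M - 1) (h : t ^ 2 ≠ 4) :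
    Module.End.IsSemisimple (Matrix.toLin' M) := by
  have hsq : Squarefree (X ^ 2 - C t * X + 1 : F[X]) := by
    apply Polynomial.Separable.squarefree
    rw [Polynomial.Separable]
    have hd : Polynomial.derivative (X ^ 2 - C t * X + 1 : F[X]) = 2 * X - C t := by
      simp
      norm_num
    rw [hd]
    refine ⟨C (-4 / (t ^ 2 - 4)), C (1 / (t ^ 2 - 4)) * (2 * X - C t), ?_⟩
    have h4 : t ^ 2 - 4 ≠ 0 := sub_ne_zero.mpr h
    have hc4 : (C (4 : F) : F[X]) = 4 := map_ofNat C 4
    have e1 : (C (-4 / (t ^ 2 - 4)) : F[X]) = C (1 / (t ^ 2 - 4)) * (-4) := by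
      rw [← hc4, ← C_neg, ← C_mul]
      congr 1
      ring
    have e2 : C (1 / (t ^ 2 - 4)) * (C t ^ 2 - 4 : F[X]) = 1 := by
      rw [← hc4, ← C_pow, ← C_sub, ← C_mul, ← C_1]
      congr 1
      field_simp
    rw [e1]
    linear_combination e2
  refine Module.End.isSemisimple_of_squarefree_aeval_eq_zero hsq ?_
  have h2 : (Matrix.toLin' M) ^ 2 = Matrix.toLin' (M * M) := by
    rw [sq, Matrix.toLin'_mul]
    rfl
  rw [map_add, map_sub, map_pow, map_mul, Polynomial.aeval_X, Polynomial.aeval_C, map_one, h2, hM,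
    map_sub, map_smul, Matrix.toLin'_one]
  ext v i
  simp [Algebra.algebraMap_eq_smul_one]

lemma ss_of_trace {S : SL(2, F)} (h : (S.1 0 0 + S.1 1 1) ^ 2 ≠ 4) : IsSs S :=
  ss_aux S.1 _ (ch_sl S) h

lemma ss_one : IsSs (1 : SL(2, F)) := by
  rw [IsSs]
  have h : Matrix.toLin' (1 : SL(2, F)).1 = LinearMap.id := Matrix.toLin'_one
  rw [h]
  exact Module.End.isSemisimple_id

/-- unipotent elements different from one are conjugate in `PGL(2, F)` -/
lemma conj_uu {S : SL(2, F)} (h : S.1 0 0 + S.1 1 1 = 2) (h1 : S ≠ 1) :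
    IsConj (SpecialLinearGroup.toPGL (uu (1 : F))) (SpecialLinearGroup.toPGL S) := by
  have hdet := det_sl S
  have key : ∀ P : GL (Fin 2) F, S.1 * P.1 = P.1 * (uu (1 : F)).1 →
      IsConj (SpecialLinearGroup.toPGL (uu (1 : F))) (SpecialLinearGroup.toPGL S) := by
    intro P hP
    rw [isConj_iff]
    refine ⟨ProjGenLinGroup.mk P, ?_⟩
    rw [mul_inv_eq_iff_eq_mul]
    change ProjGenLinGroup.mk P * ProjGenLinGroup.mk (SpecialLinearGroup.toGL (uu (1 : F))) =
      ProjGenLinGroup.mk (SpecialLinearGroup.toGL S) * ProjGenLinGroup.mk P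
    rw [← map_mul, ← map_mul]
    congr 1
    apply Units.ext
    exact hP.symm
  have h11 : S.1 1 1 = 2 - S.1 0 0 := by linear_combination h
  by_cases hc : S.1 1 0 = 0
  · have ha : S.1 0 0 = 1 := by
      rw [h11, hc] at hdet
      have : (S.1 0 0 - 1) ^ 2 = 0 := by linear_combination -hdet
      have := pow_eq_zero_iff (two_ne_zero) |>.mp this
      linear_combination this
    have hb : S.1 0 1 ≠ 0 := by
      intro hb
      apply h1
      apply Subtype.ext
      change S.1 = 1
      ext i j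
      fin_cases i <;> fin_cases j
      · simpa using ha
      · simpa using hb
      · simpa using hc
      · simp only [Fin.mk_one, Matrix.one_apply_eq]
        rw [h11, ha]
        ring
    refine key (Matrix.GeneralLinearGroup.mkOfDetNeZero !![S.1 0 1, 0; 0, 1] (by
      rw [Matrix.det_fin_two_of]
      simpa using hb)) ?_
    change S.1 * !![S.1 0 1, 0; 0, 1] = !![S.1 0 1, 0; 0, 1] * !![1, 1; 0, 1]
    ext i j
    fin_cases i <;> fin_cases j <;>
      simp [Matrix.mul_apply, Fin.sum_univ_two, hc, ha, h11]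
    norm_num
  · refine key (Matrix.GeneralLinearGroup.mkOfDetNeZero !![S.1 0 0 - 1, 1; S.1 1 0, 0] (by
      rw [Matrix.det_fin_two_of]
      simpa using hc)) ?_
    change S.1 * !![S.1 0 0 - 1, 1; S.1 1 0, 0] =
      !![S.1 0 0 - 1, 1; S.1 1 0, 0] * !![1, 1; 0, 1]
    ext i j
    fin_cases i <;> fin_cases j <;>
      simp [Matrix.mul_apply, Fin.sum_univ_two, h11]
    · linear_combination -hdet + (S.1 0 0) * h11
    · ring

/-- trace `-2` does not occur in odd order -/
lemma trace_ne (h2 : (2 : F) ≠ 0) {S : SL(2, F)} (h : S.1 0 0 + S.1 1 1 = -2) {o : ℕ} (ho : Odd o)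
    (hS : S ^ o = 1) : False := by
  set M : Matrix (Fin 2) (Fin 2) F := -S.1 with hM
  have hMM : (M - 1) * (M - 1) = 0 := by
    have h3 := ch_sl S
    rw [h] at h3
    rw [hM]
    have e : (-S.1 - 1) * (-S.1 - 1) = S.1 * S.1 + (2 : F) • S.1 + 1 := by
      rw [two_smul]
      noncomm_ring
    rw [e, h3]
    module
  have hpow : ∀ n : ℕ, M ^ n = 1 + (n : F) • (M - 1) := by
    intro n
    induction n with
    | zero => simp
    | succ n ih =>
      rw [pow_succ, ih]
      have e : (1 + (n : F) • (M - 1)) * M = M + (n : F) • ((M - 1) * (M - 1)) +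
          (n : F) • (M - 1) := by
        have e1 : (M - 1) * M = (M - 1) * (M - 1) + (M - 1) := by noncomm_ring
        rw [add_mul, one_mul, smul_mul_assoc, e1, smul_add, add_assoc]
      rw [e, hMM, smul_zero, add_zero]
      push_cast
      module
  have h4 : M ^ o = -1 := by
    rw [hM, ho.neg_pow]
    have : S.1 ^ o = 1 := by
      have := congrArg Subtype.val hS
      exact this
    rw [this]
  have h5 := hpow o
  rw [h4] at h5
  have h6 := congrFun (congrFun h5 0) 0
  have h7 := congrFun (congrFun h5 1) 1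
  simp only [hM, Matrix.neg_apply, Matrix.add_apply, Matrix.smul_apply, Matrix.sub_apply,
    Matrix.one_apply_eq, smul_eq_mul] at h6 h7
  have h8 : (4 : F) = 0 := by linear_combination (-1 : F) * h6 + (-1 : F) * h7 + (o : F) * h
  have h9 : (2 : F) * 2 = 0 := by rw [← h8]; norm_num
  rcases mul_eq_zero.mp h9 with h | h
  · exact h2 h
  · exact h2 h

/-- elements of odd order lift to elements of odd order -/
lemma exists_lift (g : PGL(2, F)) {o : ℕ} (ho : Odd o) (hg : g ^ o = 1) :
    ∃ S : SL(2, F), S ^ o = 1 ∧ SpecialLinearGroup.toPGL S = g := by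
  induction g using ProjGenLinGroup.induction_on with
  | mk A =>
    rw [← map_pow, ProjGenLinGroup.mk_eq_one, GeneralLinearGroup.center_eq_range_scalar] at hg
    obtain ⟨u, hu⟩ := hg
    obtain ⟨k, hk⟩ := ho
    set δ := GeneralLinearGroup.det A with hδ
    have h1 : δ ^ o = u ^ 2 := by
      rw [hδ, ← map_pow, ← hu]
      apply Units.ext
      rw [GeneralLinearGroup.val_det_apply, GeneralLinearGroup.coe_scalar]
      simp
    set d : Fˣ := u * (δ ^ k)⁻¹ with hd
    have h2 : d ^ 2 = δ := by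
      rw [hd, mul_pow, ← h1, hk, pow_succ, inv_pow, ← pow_mul, mul_comm k 2]
      group
    have h3 : d ^ o = u := by
      have h4 : (δ ^ k) ^ o = u ^ (2 * k) := by
        rw [← pow_mul, mul_comm k o, pow_mul, h1, ← pow_mul]
      rw [hd, mul_pow, inv_pow, h4, hk, pow_succ]
      group
    let B : GL (Fin 2) F := GeneralLinearGroup.scalar (Fin 2) d⁻¹ * A
    have hB : B.1.det = 1 := by
      have h5 : GeneralLinearGroup.det B = 1 := by
        have h6 : GeneralLinearGroup.det (GeneralLinearGroup.scalar (Fin 2) d⁻¹) = (d⁻¹) ^ 2 := by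
          apply Units.ext
          rw [GeneralLinearGroup.val_det_apply, GeneralLinearGroup.coe_scalar]
          simp
        rw [show B = GeneralLinearGroup.scalar (Fin 2) d⁻¹ * A from rfl, map_mul, h6, inv_pow, h2]
        exact inv_mul_cancel _
      have h7 := congrArg Units.val h5
      exact h7
    have hBo : B ^ o = 1 := by
      have hcomm : Commute (GeneralLinearGroup.scalar (Fin 2) d⁻¹) A := by
        have : GeneralLinearGroup.scalar (Fin 2) d⁻¹ ∈ Subgroup.center (GL (Fin 2) F) := by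
          rw [GeneralLinearGroup.center_eq_range_scalar]
          exact ⟨d⁻¹, rfl⟩
        exact ((Subgroup.mem_center_iff.mp this) A).symm
      rw [show B = GeneralLinearGroup.scalar (Fin 2) d⁻¹ * A from rfl, hcomm.mul_pow, ← hu,
        ← map_pow, ← map_mul, inv_pow, h3, inv_mul_cancel, map_one]
    refine ⟨⟨B.1, hB⟩, ?_, ?_⟩
    · apply Subtype.ext
      have h8 := congrArg Units.val hBo
      exact h8
    · have h9 : SpecialLinearGroup.toGL (⟨B.1, hB⟩ : SL(2, F)) = B := Units.ext rfl
      change ProjGenLinGroup.mk (SpecialLinearGroup.toGL (⟨B.1, hB⟩ : SL(2, F))) = _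
      rw [h9, show B = GeneralLinearGroup.scalar (Fin 2) d⁻¹ * A from rfl, map_mul,
        ProjGenLinGroup.mk_scalar, one_mul]

/-- the conjugacy classes of elements of odd order of `PGL(2, F)` -/
theorem pgl_class (h2 : (2 : F) ≠ 0) (g : PGL(2, F)) {o : ℕ} (ho : Odd o) (hg : g ^ o = 1) :
    (∃ s : SL(2, F), IsSs s ∧ s ^ o = 1 ∧ IsConj (SpecialLinearGroup.toPGL s) g) ∨
      IsConj (SpecialLinearGroup.toPGL (uu (1 : F))) g := by
  obtain ⟨S, hS, rfl⟩ := exists_lift g ho hg
  by_cases h4 : (S.1 0 0 + S.1 1 1) ^ 2 = 4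
  · have h5 : (S.1 0 0 + S.1 1 1 - 2) * (S.1 0 0 + S.1 1 1 + 2) = 0 := by
      linear_combination h4
    rcases mul_eq_zero.mp h5 with h6 | h6
    · by_cases h1 : S = 1
      · left
        exact ⟨1, ss_one, one_pow _, by rw [h1]⟩
      · right
        exact conj_uu (by linear_combination h6) h1
    · exact absurd (trace_ne h2 (by linear_combination h6) ho hS) not_false
  · left
    exact ⟨S, ss_of_trace h4, hS, IsConj.refl _⟩

end gl

end Pool.Agent.Y60
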