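import Pool.Agent.Y60.Mod7

/-!
# An upper bound for the number of irreducible Brauer characters
-/

open scoped BigOperators Classical
open Pool.Agent.H254R3.IN

noncomputable section

namespace Pool.Agent.Y60

variable {O : ValuationSubring ℂ} {G : Type} [Group G] {p : ℕ}

lemma orderOf_conj' (g y : G) : orderOf (y * g * y⁻¹) = orderOf g := by
  have h := orderOf_injective (MulAut.conj y).toMonoidHom (MulAut.conj y).injective g
  rw [← h]
  rfl

/-- Brauer characters are class functions -/
lemma brauer_conj {V : Type} [AddCommGroup V] [Module (RF O) V]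
    (σ : Representation (RF O) G V) (g y : G) :
    brauerChar p O σ (y * g * y⁻¹) = brauerChar p O σ g := by
  rw [brauerChar, brauerChar, orderOf_conj']
  by_cases hg : p ∣ orderOf g
  · rw [if_pos hg, if_pos hg]
  · rw [if_neg hg, if_neg hg]
    refine Finset.sum_congr rfl fun ζ _ => ?_
    congr 2
    have h1 : ∀ v, σ y (σ y⁻¹ v) = v := by
      intro v
      rw [← Module.End.mul_apply, ← map_mul, mul_inv_cancel, map_one]
      rfl
    have h2 : ∀ v, σ y⁻¹ (σ y v) = v := by
      intro v
      rw [← Module.End.mul_apply, ← map_mul, inv_mul_cancel, map_one]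
      rfl
    let f : V ≃ₗ[RF O] V :=
      { σ y with
        invFun := σ y⁻¹
        left_inv := h2
        right_inv := h1 }
    have h3 : (Module.End.eigenspace (σ g) (red O ζ)).map (f : V →ₗ[RF O] V) =
        Module.End.eigenspace (σ (y * g * y⁻¹)) (red O ζ) := by
      ext v
      constructor
      · rintro ⟨w, hw, rfl⟩
        rw [SetLike.mem_coe, Module.End.mem_eigenspace_iff] at hw
        rw [Module.End.mem_eigenspace_iff]
        change σ (y * g * y⁻¹) (σ y w) = red O ζ • σ y w
        rw [← Module.End.mul_apply, ← map_mul, inv_mul_cancel_right, map_mul,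
          Module.End.mul_apply, hw, map_smul]
      · intro hv
        rw [Module.End.mem_eigenspace_iff] at hv
        refine ⟨σ y⁻¹ v, ?_, h1 v⟩
        rw [SetLike.mem_coe, Module.End.mem_eigenspace_iff]
        rw [← map_smul, ← hv, ← Module.End.mul_apply, ← Module.End.mul_apply, ← map_mul,
          ← map_mul]
        congr 2
        group
    rw [← h3]
    exact (LinearEquiv.finrank_eq (Submodule.equivMapOfInjective (f : V →ₗ[RF O] V)
      f.injective _)).symm

lemma ibr_conj {φ : G → ℂ} (hφ : IsIBr p O φ) {g h : G} (hc : IsConj g h) : φ g = φ h := by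
  obtain ⟨V, _, _, _, σ, _, rfl⟩ := hφ
  obtain ⟨y, rfl⟩ := isConj_iff.mp hc
  exact (brauer_conj σ g y).symm

/-- the number of irreducible Brauer characters is at most the number of classes of `p`-regular
elements -/
theorem card_ibr_le [Finite G] [Fact p.Prime] (hp : (p : ℂ) ∈ O.nonunits) {T : Type} [Fintype T]
    (t : T → G) (ht : ∀ g : G, ¬ p ∣ orderOf g → ∃ x, IsConj (t x) g) :
    Nat.card {φ : G → ℂ // IsIBr p O φ} ≤ Fintype.card T := by
  haveI : Finite {φ : G → ℂ // IsIBr p O φ} := ibr_finite (G := G) hp
  haveI : Fintype {φ : G → ℂ // IsIBr p O φ} := Fintype.ofFinite _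
  have hli := ibr_li (G := G) hp
  have h : LinearIndependent ℂ (fun φ : {φ : G → ℂ // IsIBr p O φ} => fun x : T => φ.1 (t x)) := by
    rw [Fintype.linearIndependent_iff] at hli ⊢
    intro c hc
    apply hli
    funext g
    rw [Finset.sum_apply, Pi.zero_apply]
    by_cases hg : p ∣ orderOf g
    · apply Finset.sum_eq_zero
      intro φ _
      obtain ⟨V, _, _, _, σ, _, h1⟩ := φ.2
      rw [Pi.smul_apply, h1, brauerChar, if_pos hg, smul_zero]
    · obtain ⟨x, hx⟩ := ht g hg
      have h1 := congrFun hc x
      rw [Finset.sum_apply, Pi.zero_apply] at h1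
      rw [← h1]
      refine Finset.sum_congr rfl fun φ _ => ?_
      rw [Pi.smul_apply, Pi.smul_apply, ibr_conj φ.2 hx]
  have h2 := h.fintype_card_le_finrank
  rw [Module.finrank_pi] at h2
  rw [Nat.card_eq_fintype_card]
  exact h2

end Pool.Agent.Y60
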