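import Pool.Agent.Y60.Pg6
import Pool.Agent.Y60.Pg7
import Pool.Agent.Y60.Pg8
import Pool.Agent.Y60.JDef

/-!
# The Jordan decomposition of Brauer characters fails for `PGL(2, q)` and `ℓ = 2`
-/

open scoped BigOperators Classical MatrixGroups LinearAlgebra.Projectivization
open Pool.Agent.H254R3.IN

noncomputable section

namespace Pool.Agent.Y60

variable {F : Type} [Field F] [Finite F]

instance finiteSL : Finite SL(2, F) := by
  unfold Matrix.SpecialLinearGroup
  infer_instance

/-- the centraliser of `1` -/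
def iota : Subgroup.centralizer ({(1 : SL(2, F))} : Set SL(2, F)) ≃* SL(2, F) :=
  (MulEquiv.subgroupCongr (by
    rw [eq_top_iff]
    intro g _
    rw [Subgroup.mem_centralizer_iff]
    intro h hh
    rw [Set.mem_singleton_iff.mp hh, one_mul, mul_one])).trans Subgroup.topEquiv

omit [Finite F] in
lemma iota_apply (h : Subgroup.centralizer ({(1 : SL(2, F))} : Set SL(2, F))) :
    iota h = (h : SL(2, F)) := rfl

variable {O : ValuationSubring ℂ} (hp : ((2 : ℕ) : ℂ) ∈ O.nonunits)

include hp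

lemma unip_nonempty (s : SL(2, F)) :
    ∃ μ : Subgroup.centralizer {s} → ℂ, IsUnipotentIBr O s μ := by
  haveI : Fintype (Subgroup.centralizer ({s} : Set SL(2, F))) := Fintype.ofFinite _
  obtain ⟨d, hd, _⟩ := exists_decomp (G := Subgroup.centralizer ({s} : Set SL(2, F))) hp
  have h1 : ∃ φ ∈ IBrF (G := Subgroup.centralizer ({s} : Set SL(2, F))) hp, d 1 φ ≠ 0 := by
    by_contra hno
    push Not at hno
    have h1 := congrFun (hd 1 (isIrr_one _)) 1
    rw [finsum_ibr hp, Finset.sum_apply, Finset.sum_eq_zero (fun φ hφ => by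
      rw [Pi.smul_apply, hno φ hφ]; simp)] at h1
    rw [regPart, if_neg (by rw [orderOf_one]; norm_num)] at h1
    exact one_ne_zero h1
  obtain ⟨φ, hφ, hne⟩ := h1
  refine ⟨φ, (mem_IBrF hp).mp hφ, 1, d, ⟨isIrr_one _, ?_⟩, hd, hne⟩
  split_ifs with hs
  · left
    rw [finsum_eq_sum_of_fintype]
    have h2 : ∑ h : Subgroup.centralizer ({s} : Set SL(2, F)),
        (1 : Subgroup.centralizer ({s} : Set SL(2, F)) → ℂ) h * lineChar (h⁻¹ : SL(2, F)) =
        ((∑ h : Subgroup.centralizer ({s} : Set SL(2, F)),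
          Nat.card (MulAction.fixedBy (ℙ F (Fin 2 → F)) (h⁻¹ : SL(2, F))) : ℕ) : ℂ) := by
      push_cast
      refine Finset.sum_congr rfl fun h _ => ?_
      rw [Pi.one_apply, one_mul, lineChar]
    rw [h2, Nat.cast_ne_zero]
    intro h3
    have h4 := (Finset.sum_eq_zero_iff.mp h3) 1 (Finset.mem_univ _)
    haveI : Finite (ℙ F (Fin 2 → F)) := inferInstance
    haveI : Nonempty (MulAction.fixedBy (ℙ F (Fin 2 → F))
        (((1 : Subgroup.centralizer ({s} : Set SL(2, F))) : SL(2, F))⁻¹)) :=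
      ⟨⟨Projectivization.mk F (rr none) (rr_ne none), by
        rw [MulAction.mem_fixedBy]
        simp⟩⟩
    exact Nat.card_pos.ne' h4
  · rfl

lemma three_unip (hq : Odd (Nat.card F)) :
    3 ≤ Nat.card {μ : Subgroup.centralizer {(1 : SL(2, F))} → ℂ // IsUnipotentIBr O 1 μ} := by
  haveI : Fintype F := Fintype.ofFinite F
  haveI : Fintype (Subgroup.centralizer ({(1 : SL(2, F))} : Set SL(2, F))) := Fintype.ofFinite _
  obtain ⟨d, hd, _⟩ := exists_decomp (G := Subgroup.centralizer ({(1 : SL(2, F))} : Set SL(2, F))) hp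
  obtain ⟨φ, hinj, hφ⟩ := three iota hp (by rw [← Nat.card_eq_fintype_card]; exact hq) hd
  haveI : Finite {φ : Subgroup.centralizer {(1 : SL(2, F))} → ℂ // IsIBr 2 O φ} :=
    ibr_finite (G := Subgroup.centralizer ({(1 : SL(2, F))} : Set SL(2, F))) hp
  haveI : Finite {μ : Subgroup.centralizer {(1 : SL(2, F))} → ℂ // IsUnipotentIBr O 1 μ} :=
    Finite.of_injective (fun μ => (⟨μ.1, μ.2.1⟩ :
      {φ : Subgroup.centralizer {(1 : SL(2, F))} → ℂ // IsIBr 2 O φ})) (by
        intro a b hab
        exact Subtype.ext (congrArg (fun x => x.1) hab))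
  have hc : (1 : SL(2, F)) ∈ Subgroup.center SL(2, F) := Subgroup.one_mem _
  have key : ∀ i, IsUnipotentIBr O 1 (φ i) := by
    intro i
    obtain ⟨h1, χ, h2, h3, h4⟩ := hφ i
    refine ⟨h1, χ, d, ⟨h2, ?_⟩, hd, h4⟩
    rw [if_pos hc]
    left
    rw [finsum_eq_sum_of_fintype]
    rcases h3 with rfl | h3
    · have h5 : ∑ h : Subgroup.centralizer ({(1 : SL(2, F))} : Set SL(2, F)),
          (1 : Subgroup.centralizer ({(1 : SL(2, F))} : Set SL(2, F)) → ℂ) h *
            lineChar (h⁻¹ : SL(2, F)) =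
          ((∑ h : Subgroup.centralizer ({(1 : SL(2, F))} : Set SL(2, F)),
            Nat.card (MulAction.fixedBy (ℙ F (Fin 2 → F)) (h⁻¹ : SL(2, F))) : ℕ) : ℂ) := by
        push_cast
        refine Finset.sum_congr rfl fun h _ => ?_
        rw [Pi.one_apply, one_mul, lineChar]
      rw [h5, Nat.cast_ne_zero]
      intro h6
      have h7 := (Finset.sum_eq_zero_iff.mp h6) 1 (Finset.mem_univ _)
      haveI : Nonempty (MulAction.fixedBy (ℙ F (Fin 2 → F))
          (((1 : Subgroup.centralizer ({(1 : SL(2, F))} : Set SL(2, F))) : SL(2, F))⁻¹)) :=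
        ⟨⟨Projectivization.mk F (rr none) (rr_ne none), by
          rw [MulAction.mem_fixedBy]
          simp⟩⟩
      exact Nat.card_pos.ne' h7
    · exact h3
  have h8 := Nat.card_le_card_of_injective (α := Fin 3)
    (β := {μ : Subgroup.centralizer {(1 : SL(2, F))} → ℂ // IsUnipotentIBr O 1 μ})
    (fun i => ⟨φ i, key i⟩) (by
      intro i j hij
      exact hinj (congrArg (fun x => x.1) hij))
  rw [Nat.card_eq_fintype_card, Fintype.card_fin] at h8
  exact h8

/-- the main counting result -/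
theorem jordan_fails (hq : Odd (Nat.card F)) (R : Set SL(2, F))
    (hR : ∀ s ∈ R, IsSemisimpleOdd s)
    (hR' : ∀ s, IsSemisimpleOdd s → ∃! r, r ∈ R ∧ IsConj r s) :
    Nat.card {φ : PGL(2, F) → ℂ // IsIBr 2 O φ} <
      Nat.card (Σ s : R, {μ : Subgroup.centralizer {s.1} → ℂ // IsUnipotentIBr O s.1 μ}) := by
  haveI : Fintype R := Fintype.ofFinite R
  haveI : Finite PGL(2, F) := by
    unfold Matrix.ProjGenLinGroup
    infer_instance
  have h2 : (2 : F) ≠ 0 := by
    intro h
    haveI : Fintype F := Fintype.ofFinite F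
    have h3 : ringChar F = 2 := by
      have h4 : ringChar F ∣ 2 := ringChar.dvd (by exact_mod_cast h)
      exact (Nat.dvd_prime Nat.prime_two).mp h4 |>.resolve_left (CharP.ringChar_ne_one)
    rw [FiniteField.even_card_iff_char_two, ← Nat.card_eq_fintype_card] at h3
    exact (Nat.not_even_iff_odd.mpr hq) (Nat.even_iff.mpr h3)
  -- upper bound
  have hup : Nat.card {φ : PGL(2, F) → ℂ // IsIBr 2 O φ} ≤ Fintype.card R + 1 := by
    have h3 := card_ibr_le (G := PGL(2, F)) (p := 2) hp (T := Option R)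
      (fun x => match x with
        | none => Matrix.SpecialLinearGroup.toPGL (uu (1 : F))
        | some s => Matrix.SpecialLinearGroup.toPGL s.1) (by
      intro g hg
      have hodd : Odd (orderOf g) :=
        Nat.not_even_iff_odd.mp (fun h => hg (even_iff_two_dvd.mp h))
      rcases pgl_class h2 g hodd (pow_orderOf_eq_one g) with ⟨s, hs, hso, hsc⟩ | h
      · have hs2 : IsSemisimpleOdd s :=
          ⟨hs, Odd.of_dvd_nat hodd (orderOf_dvd_of_pow_eq_one hso)⟩
        obtain ⟨r, ⟨hr, hrs⟩, _⟩ := hR' s hs2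
        exact ⟨some ⟨r, hr⟩, (MonoidHom.map_isConj Matrix.SpecialLinearGroup.toPGL hrs).trans hsc⟩
      · exact ⟨none, h⟩)
    rwa [Fintype.card_option] at h3
  -- lower bound
  have h1R : (1 : SL(2, F)) ∈ R := by
    obtain ⟨r, ⟨hr, hr1⟩, _⟩ := hR' 1 ⟨ss_one, by rw [orderOf_one]; exact odd_one⟩
    have : r = 1 := isConj_one_left.mp hr1
    rwa [this] at hr
  have hfin : ∀ s : R, Finite {μ : Subgroup.centralizer {s.1} → ℂ // IsUnipotentIBr O s.1 μ} := by
    intro s
    haveI : Finite {φ : Subgroup.centralizer {s.1} → ℂ // IsIBr 2 O φ} :=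
      ibr_finite (G := Subgroup.centralizer ({s.1} : Set SL(2, F))) hp
    exact Finite.of_injective (fun μ => (⟨μ.1, μ.2.1⟩ :
      {φ : Subgroup.centralizer {s.1} → ℂ // IsIBr 2 O φ})) (by
        intro a b hab
        exact Subtype.ext (congrArg (fun x => x.1) hab))
  have hlow : Fintype.card R + 2 ≤
      Nat.card (Σ s : R, {μ : Subgroup.centralizer {s.1} → ℂ // IsUnipotentIBr O s.1 μ}) := by
    rw [Nat.card_sigma]
    have h4 : ∀ s : R, (1 + if s = ⟨1, h1R⟩ then 2 else 0) ≤
        Nat.card {μ : Subgroup.centralizer {s.1} → ℂ // IsUnipotentIBr O s.1 μ} := by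
      intro s
      by_cases hs : s = ⟨1, h1R⟩
      · rw [if_pos hs, hs]
        exact three_unip hp hq
      · rw [if_neg hs, add_zero]
        haveI := hfin s
        haveI : Nonempty {μ : Subgroup.centralizer {s.1} → ℂ // IsUnipotentIBr O s.1 μ} := by
          obtain ⟨μ, hμ⟩ := unip_nonempty hp s.1
          exact ⟨⟨μ, hμ⟩⟩
        exact Nat.card_pos
    have h5 := Finset.sum_le_sum (s := (Finset.univ : Finset R)) (fun s _ => h4 s)
    rw [Finset.sum_add_distrib, Finset.sum_const, Finset.sum_ite_eq', if_pos (Finset.mem_univ _),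
      Finset.card_univ, smul_eq_mul, mul_one] at h5
    exact h5
  omega

end Pool.Agent.Y60
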