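import Pool.Agent.Y60.Grp2

/-!
# Statements of the jobs of the project `MP_5c3aa2_al` (decomposition matrix of `2.L₃(4)` mod 3)
-/

open scoped BigOperators MatrixGroups

namespace Pool.Agent.Y60

/-- JOB T5 (elementary arithmetic, Mathlib only). -/
def StT5 : Prop :=
  ∀ (ι : Type) (L : Finset ι) (n m0 m1 m2 s t : ι → ℕ),
    ∑ i ∈ L, n i ^ 2 = 20160 →
    ∑ i ∈ L, m0 i ^ 2 = 5 → ∑ i ∈ L, m1 i ^ 2 = 4 → ∑ i ∈ L, m2 i ^ 2 = 4 →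
    ∑ i ∈ L, m0 i * m1 i = 3 → ∑ i ∈ L, m0 i * m2 i = 3 → ∑ i ∈ L, m1 i * m2 i = 3 →
    ∑ i ∈ L, m0 i * n i = 252 → ∑ i ∈ L, m1 i * n i = 252 → ∑ i ∈ L, m2 i * n i = 252 →
    ∑ i ∈ L, s i * n i = 56 → ∑ i ∈ L, t i * n i = 70 →
    (∀ i ∈ L, s i + t i ≤ m0 i) →
    (∀ i ∈ L, n i % 5 = (m0 i + 2 * m1 i + 2 * m2 i) % 5) →
    (∀ i ∈ L, n i ∣ 1008 * (m0 i + 2 * m1 i + 2 * m2 i)) →
    ∃ a b c d e f : ι, [a, b, c, d, e, f].Nodup ∧ (∀ i ∈ [a, b, c, d, e, f], i ∈ L) ∧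
      (n a = 28 ∧ m0 a = 1 ∧ m1 a = 1 ∧ m2 a = 0) ∧
      (n b = 28 ∧ m0 b = 1 ∧ m1 b = 0 ∧ m2 b = 1) ∧
      (n c = 64 ∧ m0 c = 0 ∧ m1 c = 1 ∧ m2 c = 1) ∧
      (n d = 70 ∧ m0 d = 1 ∧ m1 d = 1 ∧ m2 d = 1) ∧
      (n e = 90 ∧ m0 e = 1 ∧ m1 e = 1 ∧ m2 e = 1) ∧
      (n f = 36 ∧ m0 f = 1 ∧ m1 f = 0 ∧ m2 f = 0) ∧
      ∀ i ∈ L, i ∉ [a, b, c, d, e, f] → m0 i = 0 ∧ m1 i = 0 ∧ m2 i = 0

/-- JOB TR (linear independence of the traces of pairwise non-isomorphic irreducible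
representations of a finite group over an algebraically closed field of any characteristic). -/
def StTR : Prop :=
  ∀ (k : Type) [Field k] [IsAlgClosed k] (G : Type) [Group G] [Finite G] (ι : Type) [Fintype ι]
    (V : ι → Type) [∀ i, AddCommGroup (V i)] [∀ i, Module k (V i)]
    [∀ i, FiniteDimensional k (V i)] (ρ : ∀ i, Representation k G (V i)),
    (∀ i, (ρ i).IsIrreducible) → (∀ i j, i ≠ j → IsEmpty (Representation.Equiv (ρ i) (ρ j))) →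
    ∀ c : ι → k, (∀ g : G, ∑ i, c i * LinearMap.trace k (V i) (ρ i g) = 0) → ∀ i, c i = 0

/-- JOB B1 -/
def StB1 : Prop :=
  Nonempty ((GG ⧸ Subgroup.center GG) ≃* PSL(3, F4)) ∧ commutator GG = ⊤ ∧
    Nat.card GG = 40320

/-- the stabilizer of `e_5` -/
def KK : Subgroup GG := MulAction.stabilizer GG b5

/-- the central involution `-1` -/
def zz : GG := ge 4
/-- the involution `diag(-1,-1,1,1,1,1)` -/
def vv : GG := ge 0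
/-- the `5`-cycle `(0 1 2 3 4)` -/
def cc : GG := ge 1

/-- the diagonal subgroup of the elements with even determinant fixing `e_5` -/
def EE : Subgroup GG :=
  Subgroup.closure {vv, cc * vv * cc⁻¹, cc ^ 2 * vv * (cc ^ 2)⁻¹, cc ^ 3 * vv * (cc ^ 3)⁻¹}

/-- JOB B2 -/
def StB2 : Prop :=
  Nat.card GG = 40320 →
    MulAction.IsPretransitive GG XX ∧ Nat.card KK = 160 ∧
    (∀ g : GG, g * zz = zz * g) ∧ zz * zz = 1 ∧ zz ≠ 1 ∧ zz ∉ KK ∧ vv * vv = 1 ∧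
    cc ^ 5 = 1 ∧ cc ≠ 1 ∧ cc ∈ KK ∧ EE ≤ KK ∧ Nat.card EE = 16 ∧
    (∀ e ∈ EE, cc * e * cc⁻¹ ∈ EE) ∧
    (∀ e ∈ EE, ∀ l ∈ [1, 2, 3, 4], IsConj (e * cc ^ l) (cc ^ l)) ∧
    (∀ f : GG → ℂ, (∀ g y, f (y * g * y⁻¹) = f g) →
      ∑ᶠ e : EE, f e = f 1 + 10 * f vv + 5 * f (zz * vv)) ∧
    IsConj cc cc⁻¹ ∧ ¬ IsConj vv (zz * vv) ∧ ¬ IsConj cc (cc ^ 2) ∧
    Nat.card (Subgroup.centralizer ({vv} : Set GG)) = 128 ∧
    Nat.card (Subgroup.centralizer ({cc} : Set GG)) = 10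

end Pool.Agent.Y60
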